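import Pool.Agent.Helper83.PY.Surg

/-!
PY piece P3: splitting of the vertex `u` along the path `h - u - f`, with `f` identified to `h`.

`X` is one of the two arcs of faces at `u` between the pairs `(u,h)` and `(u,f)`.
Proof. `Q' = Q.split u X f h` on the same set `E`; new end `none` on the faces of `X`, `some u` on
the faces at `u` outside `X`.
* For `a ≠ u`, `b ≠ h, f`: `Q'.bd S (some a) b = Q.bd S a b`; column `h` is the sum of the columns
  `h` and `f` (one of them vanishes, by `hnc`); `Q'.bd S none b = Q.bd (S ∩ X) u b` for `b ≠ h, f`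
  and `= Q.bd (S ∩ X) u h + Q.bd (S ∩ X) u f` for `b = h`; `Q'.bd S (some u) b` the same with
  `S \ X`; column `f` is empty.
* two: for `b ≠ h,f` the number of faces of `X` at `(u,b)` is 0 or 2; at `h`: 1 + 1.
* conn: `Q'.bd S = 0` gives `Q.bd S a b = 0` except possibly at `(u,h), (u,f)`; column sums
  (`sum_bd_A`) kill these too.
* linkB at `b ≠ h`: direct.  At `h`: columns `h` and `f` of `Q.bd S` vanish (as in conn), so all or
  none of the faces at `h` resp. at `f` are in `S`; `Q'.bd S none h = 0` shows that it is the same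
  alternative for both (the face of `X` at `(u,h)`, the face of `X` at `(u,f)`).
* linkA at `some a`, `a ≠ u`: direct.  At `none`: `T = S ∩ X` has `Q.bd T u b = 0` for `b ≠ h,f` and
  equal values `s` at `h,f`; `s = 0`: link of `E` at `u` for `T` (not all, since `E \ X` has a face
  at `u`), so `T = ∅`; `s = 1`: the same for `X \ S`.  At `some u` the same with `star \ X`.
* ml: given `Z` on `Option A × B`: `Z1 a b = Z (some a) b` for `a ≠ u`, `b ≠ h,f`; for `a ≠ u` the
  entry `Z (some a) h` goes to `h` or `f` according to adjacency; `Z1 u b = Z none b + Z (some u) b`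
  for `b ≠ h,f`; `Z1 u h`, `Z1 u f` are determined by the column sums.  Rows are even.  Take `X0`
  with `Q.bd X0 = Z1`.  The difference `D = Q'.bd X0 + Z` vanishes outside the rows `none`,
  `some u`, where it is the same function; at `b ≠ h` one of the two rows has no pair, so it is 0,
  and at `h` by the row sum.
-/

open Finset

set_option linter.unusedSectionVars false
set_option linter.unusedSimpArgs false
set_option linter.unusedVariables false

namespace Helper83.PY

variable {ι A B : Type*} [DecidableEq ι] [DecidableEq A] [DecidableEq B] [Fintype A] [Fintype B]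

theorem split_inc_other {Q : QS ι A B} {X : Finset ι} {u : A} {h f : B} {a : A} (ha : a ≠ u)
    (i : ι) (b : B) : (Q.split u X f h).inc i (some a) b = (Q.ren f h).inc i a b := by
  unfold QS.inc QS.split QS.ren
  simp only
  congr 1
  congr 1
  · by_cases h1 : i ∈ X ∧ Q.p i = u
    · have h2 : ¬ Q.p i = a := by rw [h1.2]; exact Ne.symm ha
      simp [h1, Ne.symm ha]
    · simp [h1]
  · by_cases h1 : i ∈ X ∧ Q.q i = u
    · have h2 : ¬ Q.q i = a := by rw [h1.2]; exact Ne.symm ha
      simp [h1, Ne.symm ha]
    · simp [h1]

theorem split_inc_none {Q : QS ι A B} {X : Finset ι} {u : A} {h f : B} (i : ι) (b : B) :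
    (Q.split u X f h).inc i none b = if i ∈ X then (Q.ren f h).inc i u b else 0 := by
  unfold QS.inc QS.split QS.ren
  simp only
  by_cases hi : i ∈ X
  · simp only [hi, true_and, if_true]
    congr 1
    congr 1
    · by_cases h1 : Q.p i = u <;> simp [h1]
    · by_cases h1 : Q.q i = u <;> simp [h1]
  · simp [hi]

theorem split_inc_u {Q : QS ι A B} {X : Finset ι} {u : A} {h f : B} (i : ι) (b : B) :
    (Q.split u X f h).inc i (some u) b = if i ∈ X then 0 else (Q.ren f h).inc i u b := by
  unfold QS.inc QS.split QS.ren
  simp only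
  by_cases hi : i ∈ X
  · simp only [hi, true_and, if_true]
    by_cases h1 : Q.p i = u <;> by_cases h2 : Q.q i = u <;> simp [h1, h2]
  · simp [hi]

theorem split_cnt_other {Q : QS ι A B} {X : Finset ι} {u : A} {h f : B} {a : A} (ha : a ≠ u)
    (S : Finset ι) (b : B) : (Q.split u X f h).cnt S (some a) b = (Q.ren f h).cnt S a b :=
  Finset.sum_congr rfl (fun i _ => split_inc_other ha i b)

theorem split_cnt_none {Q : QS ι A B} {X : Finset ι} {u : A} {h f : B}
    (S : Finset ι) (b : B) : (Q.split u X f h).cnt S none b = (Q.ren f h).cnt (S ∩ X) u b := by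
  unfold QS.cnt
  rw [Finset.sum_congr rfl (fun i _ => split_inc_none i b), Finset.sum_ite_mem]

theorem split_cnt_u {Q : QS ι A B} {X : Finset ι} {u : A} {h f : B}
    (S : Finset ι) (b : B) : (Q.split u X f h).cnt S (some u) b = (Q.ren f h).cnt (S \ X) u b := by
  unfold QS.cnt
  rw [Finset.sum_congr rfl (fun i _ => split_inc_u i b)]
  rw [← Finset.sum_sdiff (Finset.sdiff_subset : S \ X ⊆ S)]
  have h1 : ∑ i ∈ S \ (S \ X), (if i ∈ X then 0 else (Q.ren f h).inc i u b) = 0 := by
    apply Finset.sum_eq_zero
    intro i hi
    rw [Finset.mem_sdiff, Finset.mem_sdiff] at hi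
    have h2 : i ∈ X := by
      by_contra h3
      exact hi.2 ⟨hi.1, h3⟩
    rw [if_pos h2]
  rw [h1, zero_add]
  apply Finset.sum_congr rfl
  intro i hi
  rw [if_neg (Finset.mem_sdiff.1 hi).2]

theorem split_bd_other {Q : QS ι A B} {X : Finset ι} {u : A} {h f : B} {a : A} (ha : a ≠ u)
    (S : Finset ι) (b : B) : (Q.split u X f h).bd S (some a) b = (Q.ren f h).bd S a b := by
  unfold QS.bd; rw [split_cnt_other ha]

theorem split_bd_none {Q : QS ι A B} {X : Finset ι} {u : A} {h f : B}
    (S : Finset ι) (b : B) : (Q.split u X f h).bd S none b = (Q.ren f h).bd (S ∩ X) u b := by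
  unfold QS.bd; rw [split_cnt_none]

theorem split_bd_u {Q : QS ι A B} {X : Finset ι} {u : A} {h f : B}
    (S : Finset ι) (b : B) : (Q.split u X f h).bd S (some u) b = (Q.ren f h).bd (S \ X) u b := by
  unfold QS.bd; rw [split_cnt_u]

theorem split_atB {Q : QS ι A B} {X : Finset ι} {u : A} {h f : B} (i : ι) (b : B) :
    (Q.split u X f h).atB i b ↔ (Q.ren f h).atB i b := Iff.rfl

theorem split_atA_other {Q : QS ι A B} {X : Finset ι} {u : A} {h f : B} {a : A} (ha : a ≠ u)
    (i : ι) : (Q.split u X f h).atA i (some a) ↔ Q.atA i a := by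
  unfold QS.atA QS.split
  simp only
  by_cases h1 : i ∈ X ∧ Q.p i = u <;> by_cases h2 : i ∈ X ∧ Q.q i = u
  · simp [h1, h2, Ne.symm ha]
  · simp [h1, Ne.symm ha]
    intro _ h3; exact h2 ⟨h1.1, h3⟩
  · simp [h2, Ne.symm ha]
    intro _ h3; exact h1 ⟨h2.1, h3⟩
  · rw [if_neg h1, if_neg h2]; simp

theorem split_atA_none {Q : QS ι A B} {X : Finset ι} {u : A} {h f : B} (i : ι) :
    (Q.split u X f h).atA i none ↔ i ∈ X ∧ Q.atA i u := by
  unfold QS.atA QS.split
  simp only
  by_cases hi : i ∈ X <;> by_cases h1 : Q.p i = u <;> by_cases h2 : Q.q i = u <;>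
    simp [hi, h1, h2]

theorem split_atA_u {Q : QS ι A B} {X : Finset ι} {u : A} {h f : B} (i : ι) :
    (Q.split u X f h).atA i (some u) ↔ i ∉ X ∧ Q.atA i u := by
  unfold QS.atA QS.split
  simp only
  by_cases hi : i ∈ X <;> by_cases h1 : Q.p i = u <;> by_cases h2 : Q.q i = u <;>
    simp [hi, h1, h2]

theorem bd_inter_sdiff (Q : QS ι A B) (S X : Finset ι) (a : A) (b : B) :
    Q.bd (S ∩ X) a b + Q.bd (S \ X) a b = Q.bd S a b := by
  have h1 : S \ (S ∩ X) = S \ X := by
    ext i; simp only [Finset.mem_sdiff, Finset.mem_inter]; tauto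
  have h2 := Q.cnt_sdiff (Finset.inter_subset_left : S ∩ X ⊆ S) a b
  rw [h1] at h2
  unfold QS.bd
  rw [← h2]; push_cast; ring

theorem split_sph {Q : QS ι A B} {E X : Finset ι} {u : A} {h f : B} (hE : IsSph Q E)
    (hhf : h ≠ f) (hX : X ⊆ E) (hXu : ∀ i ∈ X, Q.atA i u)
    (hXb : ∀ b, Q.bd X u b = if b = h ∨ b = f then 1 else 0)
    (hnc : ∀ a, a ≠ u → Q.cnt E a h = 0 ∨ Q.cnt E a f = 0) :
    IsSph (Q.split u X f h) E := by
  have hXh : Q.bd X u h = 1 := by rw [hXb]; simp
  have hXf : Q.bd X u f = 1 := by rw [hXb]; simp
  have hXo : ∀ b, b ≠ h → b ≠ f → Q.bd X u b = 0 := fun b h1 h2 => by rw [hXb]; simp [h1, h2]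
  have cXh : Q.cnt X u h = 1 := cnt_of_bd_one hE hX hXh
  have cXf : Q.cnt X u f = 1 := cnt_of_bd_one hE hX hXf
  have cEh : Q.cnt E u h = 2 := by
    have := Q.cnt_mono hX u h
    rcases hE.two u h with h1 | h1
    · omega
    · exact h1
  have cEf : Q.cnt E u f = 2 := by
    have := Q.cnt_mono hX u f
    rcases hE.two u f with h1 | h1
    · omega
    · exact h1
  have hEX : E ∩ X = X := Finset.inter_eq_right.2 hX
  have z0 : ∀ {S : Finset ι}, S ⊆ E → ∀ a b, Q.cnt E a b = 0 → Q.bd S a b = 0 := by
    intro S hS a b h1
    have := Q.cnt_mono hS a b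
    exact Q.bd_eq_zero_of_cnt (by omega)
  -- columns `h`, `f` away from `u`
  have hcol : ∀ {S : Finset ι}, S ⊆ E → ∀ a, a ≠ u → Q.bd S a h + Q.bd S a f = 0 →
      Q.bd S a h = 0 ∧ Q.bd S a f = 0 := by
    intro S hS a ha h0
    rcases hnc a ha with h3 | h3
    · have h4 := z0 hS a h h3
      rw [h4, zero_add] at h0
      exact ⟨h4, h0⟩
    · have h4 := z0 hS a f h3
      rw [h4, add_zero] at h0
      exact ⟨h0, h4⟩
  have hcolu : ∀ {S : Finset ι}, S ⊆ E → (∀ a, a ≠ u → Q.bd S a h + Q.bd S a f = 0) →
      ∀ a, Q.bd S a h = 0 ∧ Q.bd S a f = 0 := by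
    intro S hS h0 a
    by_cases ha : a = u
    · subst ha
      have e : ∀ b, (∀ a', a' ≠ a → Q.bd S a' b = 0) → Q.bd S a b = 0 := by
        intro b h1
        have h2 := Q.sum_bd_A S b
        rw [Finset.sum_eq_single a (fun a' _ h3 => h1 a' h3)
          (fun h3 => absurd (Finset.mem_univ a) h3)] at h2
        exact h2
      exact ⟨e h (fun a' h1 => (hcol hS a' h1 (h0 a' h1)).1),
        e f (fun a' h1 => (hcol hS a' h1 (h0 a' h1)).2)⟩
    · exact hcol hS a ha (h0 a ha)
  have hsumu : ∀ (S : Finset ι) (b : B), b ≠ h → b ≠ f →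
      (Q.split u X f h).bd S none b + (Q.split u X f h).bd S (some u) b = Q.bd S u b := by
    intro S b hb hb2
    rw [split_bd_none, split_bd_u, ren_bd_other hb hb2, ren_bd_other hb hb2, bd_inter_sdiff]
  obtain ⟨j0, hj0, hj0u, hj0h⟩ := out_of_bd_one hE hX hXh
  have hXne : ∃ i ∈ X, Q.atA i u ∧ Q.atB i h := by
    rw [← QS.cnt_ne_zero]; omega
  have hXnf : ∃ i ∈ X, Q.atA i u ∧ Q.atB i f := by
    rw [← QS.cnt_ne_zero]; omega
  -- arcs
  have arc1 : ∀ T ⊆ X, (∀ b, Q.bd T u b = 0) → T = ∅ := by
    intro T hT h0
    rcases hE.linkA u T (hT.trans hX) h0 with h1 | h1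
    · rw [Finset.mem_sdiff] at hj0
      exact absurd (hT (h1 j0 hj0.1 hj0u)) hj0.2
    · apply Finset.eq_empty_of_forall_notMem
      intro i hi
      exact h1 i hi (hXu i (hT hi))
  have arc2 : ∀ T ⊆ E \ X, (∀ b, Q.bd T u b = 0) → ∀ i ∈ T, ¬ Q.atA i u := by
    intro T hT h0
    rcases hE.linkA u T (hT.trans Finset.sdiff_subset) h0 with h1 | h1
    · obtain ⟨i, hi, hiu, _⟩ := hXne
      have := hT (h1 i (hX hi) hiu)
      rw [Finset.mem_sdiff] at this
      exact absurd hi this.2
    · exact h1
  refine ⟨hE.ne, ?_, ?_, ?_, ?_, ?_⟩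
  · -- two
    intro a' b
    rcases a' with _ | a
    · rw [split_cnt_none, hEX]
      by_cases hb : b = h
      · subst hb; rw [ren_cnt_hub hhf]; right; omega
      · by_cases hb2 : b = f
        · subst hb2; left; exact ren_cnt_f hhf X u
        · rw [ren_cnt_other hb hb2]
          exact cnt_of_bd_zero hE hX (hXo b hb hb2)
    · by_cases ha : a = u
      · subst ha
        rw [split_cnt_u]
        by_cases hb : b = h
        · subst hb
          rw [ren_cnt_hub hhf]
          have h1 := Q.cnt_sdiff hX a b
          have h2 := Q.cnt_sdiff hX a f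
          right; omega
        · by_cases hb2 : b = f
          · subst hb2; left; exact ren_cnt_f hhf _ _
          · rw [ren_cnt_other hb hb2]
            apply cnt_of_bd_zero hE Finset.sdiff_subset
            rw [Q.bd_sdiff hX, hE.bd_all, hXo b hb hb2, add_zero]
      · rw [split_cnt_other ha]
        by_cases hb : b = h
        · subst hb
          rw [ren_cnt_hub hhf]
          rcases hnc a ha with h1 | h1
          · rw [h1, zero_add]; exact hE.two a f
          · rw [h1, add_zero]; exact hE.two a b
        · by_cases hb2 : b = f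
          · subst hb2; left; exact ren_cnt_f hhf _ _
          · rw [ren_cnt_other hb hb2]; exact hE.two a b
  · -- conn
    intro S hS h0
    apply hE.conn S hS
    have h1 := hcolu hS (fun a ha => by
      rw [← ren_bd_hub hhf, ← split_bd_other (X := X) ha]; exact h0 (some a) h)
    intro a b
    by_cases hb : b = h
    · subst hb; exact (h1 a).1
    · by_cases hb2 : b = f
      · subst hb2; exact (h1 a).2
      · by_cases ha : a = u
        · subst ha
          rw [← hsumu S b hb hb2, h0, h0, add_zero]
        · rw [← ren_bd_other hb hb2, ← split_bd_other (X := X) ha]; exact h0 (some a) b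
  · -- linkB
    intro b S hS h0
    by_cases hb : b = h
    · subst hb
      have h1 := hcolu hS (fun a ha => by
        rw [← ren_bd_hub hhf, ← split_bd_other (X := X) ha]; exact h0 (some a))
      have h2 := h0 none
      rw [split_bd_none, ren_bd_hub hhf] at h2
      rcases hE.linkB b S hS (fun a => (h1 a).1) with h3 | h3 <;>
        rcases hE.linkB f S hS (fun a => (h1 a).2) with h4 | h4
      · left
        intro i hi h5
        rcases (ren_atB_hub hhf i).1 h5 with h6 | h6
        · exact h3 i hi h6
        · exact h4 i hi h6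
      · exfalso
        have e1 : Q.cnt (S ∩ X) u b = Q.cnt X u b := by
          unfold QS.cnt
          rw [Finset.inter_comm, ← Finset.sum_inter_add_sum_sdiff X S]
          have : ∑ i ∈ X \ S, Q.inc i u b = 0 := by
            apply Finset.sum_eq_zero
            intro i hi
            rw [Finset.mem_sdiff] at hi
            rw [QS.inc_eq_zero]
            intro h5
            exact hi.2 (h3 i (hX hi.1) h5.2)
          rw [this, add_zero]
        have e2 : Q.cnt (S ∩ X) u f = 0 := by
          rw [QS.cnt_eq_zero]
          intro i hi h5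
          exact h4 i (Finset.mem_inter.1 hi).1 h5.2
        unfold QS.bd at h2
        rw [e1, e2, cXh] at h2
        exact absurd h2 (by decide)
      · exfalso
        have e1 : Q.cnt (S ∩ X) u f = Q.cnt X u f := by
          unfold QS.cnt
          rw [Finset.inter_comm, ← Finset.sum_inter_add_sum_sdiff X S]
          have : ∑ i ∈ X \ S, Q.inc i u f = 0 := by
            apply Finset.sum_eq_zero
            intro i hi
            rw [Finset.mem_sdiff] at hi
            rw [QS.inc_eq_zero]
            intro h5
            exact hi.2 (h4 i (hX hi.1) h5.2)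
          rw [this, add_zero]
        have e2 : Q.cnt (S ∩ X) u b = 0 := by
          rw [QS.cnt_eq_zero]
          intro i hi h5
          exact h3 i (Finset.mem_inter.1 hi).1 h5.2
        unfold QS.bd at h2
        rw [e1, e2, cXf] at h2
        exact absurd h2 (by decide)
      · right
        intro i hi h5
        rcases (ren_atB_hub hhf i).1 h5 with h6 | h6
        · exact h3 i hi h6
        · exact h4 i hi h6
    · by_cases hb2 : b = f
      · subst hb2
        right
        intro i _ h1
        exact ren_atB_f hhf i h1
      · have h1 : ∀ a, Q.bd S a b = 0 := by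
          intro a
          by_cases ha : a = u
          · subst ha
            rw [← hsumu S b hb hb2, h0, h0, add_zero]
          · rw [← ren_bd_other hb hb2, ← split_bd_other (X := X) ha]; exact h0 (some a)
        rcases hE.linkB b S hS h1 with h3 | h3
        · left
          intro i hi h4
          exact h3 i hi ((ren_atB_other hb hb2 i).1 h4)
        · right
          intro i hi h4
          exact h3 i hi ((ren_atB_other hb hb2 i).1 h4)
  · -- linkA
    intro a' S hS h0
    rcases a' with _ | a
    · -- the new end
      have hT : S ∩ X ⊆ X := Finset.inter_subset_right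
      have h1 : ∀ b, b ≠ h → b ≠ f → Q.bd (S ∩ X) u b = 0 := by
        intro b hb hb2
        rw [← ren_bd_other hb hb2, ← split_bd_none]; exact h0 b
      have h2 : Q.bd (S ∩ X) u h + Q.bd (S ∩ X) u f = 0 := by
        rw [← ren_bd_hub hhf, ← split_bd_none]; exact h0 h
      have h3 : Q.bd (S ∩ X) u f = Q.bd (S ∩ X) u h := (CharTwo.add_eq_zero.1 h2).symm
      rcases zmod2_cases (Q.bd (S ∩ X) u h) with h4 | h4
      · right
        have h5 : S ∩ X = ∅ := by
          apply arc1 _ hT
          intro b
          by_cases hb : b = h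
          · subst hb; exact h4
          · by_cases hb2 : b = f
            · subst hb2; rw [h3]; exact h4
            · exact h1 b hb hb2
        intro i hi h6
        have h7 : i ∈ S ∩ X := Finset.mem_inter.2 ⟨hi, ((split_atA_none i).1 h6).1⟩
        rw [h5] at h7
        exact absurd h7 (Finset.notMem_empty i)
      · left
        have h5 : X \ (S ∩ X) = ∅ := by
          apply arc1 _ Finset.sdiff_subset
          intro b
          rw [Q.bd_sdiff hT]
          by_cases hb : b = h
          · subst hb; rw [h4, hXh]; decide
          · by_cases hb2 : b = f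
            · subst hb2; rw [h3, h4, hXf]; decide
            · rw [h1 b hb hb2, hXo b hb hb2, add_zero]
        intro i hi h6
        have h7 := ((split_atA_none i).1 h6).1
        by_contra h8
        have h9 : i ∈ X \ (S ∩ X) :=
          Finset.mem_sdiff.2 ⟨h7, fun h9 => h8 (Finset.mem_inter.1 h9).1⟩
        rw [h5] at h9
        exact absurd h9 (Finset.notMem_empty i)
    · by_cases ha : a = u
      · subst ha
        have hT : S \ X ⊆ E \ X := Finset.sdiff_subset_sdiff hS (Finset.Subset.refl _)
        have h1 : ∀ b, b ≠ h → b ≠ f → Q.bd (S \ X) a b = 0 := by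
          intro b hb hb2
          rw [← ren_bd_other hb hb2, ← split_bd_u]; exact h0 b
        have h2 : Q.bd (S \ X) a h + Q.bd (S \ X) a f = 0 := by
          rw [← ren_bd_hub hhf, ← split_bd_u]; exact h0 h
        have h3 : Q.bd (S \ X) a f = Q.bd (S \ X) a h := (CharTwo.add_eq_zero.1 h2).symm
        rcases zmod2_cases (Q.bd (S \ X) a h) with h4 | h4
        · right
          have h5 := arc2 _ hT (by
            intro b
            by_cases hb : b = h
            · subst hb; exact h4
            · by_cases hb2 : b = f
              · subst hb2; rw [h3]; exact h4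
              · exact h1 b hb hb2)
          intro i hi h6
          have h7 := (split_atA_u i).1 h6
          exact h5 i (Finset.mem_sdiff.2 ⟨hi, h7.1⟩) h7.2
        · left
          have h5 := arc2 ((E \ X) \ (S \ X)) Finset.sdiff_subset (by
            intro b
            rw [Q.bd_sdiff hT, Q.bd_sdiff hX, hE.bd_all, zero_add]
            by_cases hb : b = h
            · subst hb; rw [h4, hXh]; decide
            · by_cases hb2 : b = f
              · subst hb2; rw [h3, h4, hXf]; decide
              · rw [h1 b hb hb2, hXo b hb hb2, add_zero])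
          intro i hi h6
          have h7 := (split_atA_u i).1 h6
          by_contra h8
          refine h5 i (Finset.mem_sdiff.2 ⟨Finset.mem_sdiff.2 ⟨hi, h7.1⟩, ?_⟩) h7.2
          intro h9
          exact h8 (Finset.mem_sdiff.1 h9).1
      · have h1 : ∀ b, Q.bd S a b = 0 := by
          have h2 : Q.bd S a h + Q.bd S a f = 0 := by
            rw [← ren_bd_hub hhf, ← split_bd_other (X := X) ha]; exact h0 h
          have h3 := hcol hS a ha h2
          intro b
          by_cases hb : b = h
          · subst hb; exact h3.1
          · by_cases hb2 : b = f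
            · subst hb2; exact h3.2
            · rw [← ren_bd_other hb hb2, ← split_bd_other (X := X) ha]; exact h0 b
        rcases hE.linkA a S hS h1 with h3 | h3
        · left
          intro i hi h4
          exact h3 i hi ((split_atA_other ha i).1 h4)
        · right
          intro i hi h4
          exact h3 i hi ((split_atA_other ha i).1 h4)
  · -- ml
    intro Z hZs hZr hZc
    have hZf : ∀ a', Z a' f = 0 := by
      intro a'
      apply hZs
      rcases a' with _ | a
      · rw [split_cnt_none]; exact ren_cnt_f hhf _ _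
      · by_cases ha : a = u
        · subst ha; rw [split_cnt_u]; exact ren_cnt_f hhf _ _
        · rw [split_cnt_other ha]; exact ren_cnt_f hhf _ _
    let Y : A → B → ZMod 2 := fun a b =>
      if b = h then (if Q.cnt E a h = 0 then 0 else Z (some a) h)
      else if b = f then (if Q.cnt E a h = 0 then Z (some a) h else 0)
      else Z (some a) b
    have hYh : ∀ a, Y a h = if Q.cnt E a h = 0 then 0 else Z (some a) h := fun a => by simp [Y]
    have hYf : ∀ a, Y a f = if Q.cnt E a h = 0 then Z (some a) h else 0 := fun a => by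
      simp [Y, Ne.symm hhf]
    have hYo : ∀ a b, b ≠ h → b ≠ f → Y a b = Z (some a) b := fun a b hb hb2 => by
      simp [Y, hb, hb2]
    have hYhf : ∀ a, Y a h + Y a f = Z (some a) h := by
      intro a
      rw [hYh, hYf]
      by_cases h1 : Q.cnt E a h = 0 <;> simp [h1]
    have hYs : ∀ a, a ≠ u → ∀ b, Q.cnt E a b = 0 → Y a b = 0 := by
      intro a ha b h1
      by_cases hb : b = h
      · subst hb; rw [hYh]; simp [h1]
      · by_cases hb2 : b = f
        · subst hb2
          rw [hYf]
          by_cases h2 : Q.cnt E a h = 0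
          · rw [if_pos h2]
            apply hZs
            rw [split_cnt_other ha, ren_cnt_hub hhf, h1, h2]
          · rw [if_neg h2]
        · rw [hYo a b hb hb2]
          apply hZs
          rw [split_cnt_other ha, ren_cnt_other hb hb2]; exact h1
    let Z1 : A → B → ZMod 2 := fun a b =>
      if a = u then
        (if b = h ∨ b = f then ∑ a' ∈ Finset.univ.erase u, Y a' b
          else Z none b + Z (some u) b)
      else Y a b
    have hZ1o : ∀ a, a ≠ u → ∀ b, Z1 a b = Y a b := fun a ha b => by simp [Z1, ha]
    have hZ1u : ∀ b, b ≠ h → b ≠ f → Z1 u b = Z none b + Z (some u) b := fun b hb hb2 => by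
      simp [Z1, hb, hb2]
    have hZ1c : ∀ b, b = h ∨ b = f → Z1 u b = ∑ a' ∈ Finset.univ.erase u, Y a' b := fun b hb => by
      simp [Z1, hb]
    have splitA : ∀ W : A → ZMod 2, ∑ a, W a = W u + ∑ a ∈ Finset.univ.erase u, W a := by
      intro W
      rw [Finset.add_sum_erase _ W (Finset.mem_univ u)]
    have splitB : ∀ W : B → ZMod 2,
        ∑ b, W b = W h + (W f + ∑ b ∈ (Finset.univ.erase h).erase f, W b) := by
      intro W
      rw [Finset.add_sum_erase _ W (Finset.mem_erase.2 ⟨Ne.symm hhf, Finset.mem_univ f⟩),
        Finset.add_sum_erase _ W (Finset.mem_univ h)]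
    have splitO : ∀ W : Option A → ZMod 2,
        ∑ a, W a = W none + (W (some u) + ∑ a ∈ Finset.univ.erase u, W (some a)) := by
      intro W
      rw [Fintype.sum_option, splitA (fun a => W (some a))]
    have ob : ∀ b ∈ (Finset.univ.erase h).erase f, b ≠ h ∧ b ≠ f := by
      intro b hb
      rw [Finset.mem_erase, Finset.mem_erase] at hb
      exact ⟨hb.2.1, hb.1⟩
    have hZ1s : ∀ a b, Q.cnt E a b = 0 → Z1 a b = 0 := by
      intro a b h1
      by_cases ha : a = u
      · subst ha
        have hb : b ≠ h := by rintro rfl; omega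
        have hb2 : b ≠ f := by rintro rfl; omega
        rw [hZ1u b hb hb2]
        have e1 : Z none b = 0 := by
          apply hZs
          rw [split_cnt_none, ren_cnt_other hb hb2]
          have := Q.cnt_mono (Finset.inter_subset_left : E ∩ X ⊆ E) a b
          omega
        have e2 : Z (some a) b = 0 := by
          apply hZs
          rw [split_cnt_u, ren_cnt_other hb hb2]
          have := Q.cnt_mono (Finset.sdiff_subset : E \ X ⊆ E) a b
          omega
        rw [e1, e2, add_zero]
      · rw [hZ1o a ha]; exact hYs a ha b h1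
    have hrow : ∀ a, ∑ b, Z1 a b = 0 := by
      intro a
      by_cases ha : a = u
      · subst ha
        rw [splitB (fun b => Z1 a b), hZ1c h (Or.inl rfl), hZ1c f (Or.inr rfl)]
        have e1 : ∑ b ∈ (Finset.univ.erase h).erase f, Z1 a b
            = ∑ b ∈ (Finset.univ.erase h).erase f, (Z none b + Z (some a) b) :=
          Finset.sum_congr rfl (fun b hb => hZ1u b (ob b hb).1 (ob b hb).2)
        rw [e1, Finset.sum_add_distrib]
        have e2 := hZr none
        rw [splitB (fun b => Z none b), hZf, zero_add] at e2
        have e3 := hZr (some a)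
        rw [splitB (fun b => Z (some a) b), hZf, zero_add] at e3
        have e4 := hZc h
        rw [splitO (fun a' => Z a' h)] at e4
        have e5 : (∑ a' ∈ Finset.univ.erase a, Y a' h) + ∑ a' ∈ Finset.univ.erase a, Y a' f
            = ∑ a' ∈ Finset.univ.erase a, Z (some a') h := by
          rw [← Finset.sum_add_distrib]
          exact Finset.sum_congr rfl (fun a' _ => hYhf a')
        have two0 : (2 : ZMod 2) = 0 := by decide
        linear_combination e5 + e2 + e3 + e4 - (Z none h + Z (some a) h) * two0
      · rw [Finset.sum_congr rfl (fun b _ => hZ1o a ha b), splitB (fun b => Y a b), ← add_assoc,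
          hYhf]
        have e1 : ∑ b ∈ (Finset.univ.erase h).erase f, Y a b
            = ∑ b ∈ (Finset.univ.erase h).erase f, Z (some a) b :=
          Finset.sum_congr rfl (fun b hb => hYo a b (ob b hb).1 (ob b hb).2)
        rw [e1]
        have e3 := hZr (some a)
        rw [splitB (fun b => Z (some a) b), hZf, zero_add] at e3
        exact e3
    have hcolZ : ∀ b, ∑ a, Z1 a b = 0 := by
      intro b
      rw [splitA (fun a => Z1 a b)]
      have e1 : ∑ a ∈ Finset.univ.erase u, Z1 a b = ∑ a ∈ Finset.univ.erase u, Y a b :=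
        Finset.sum_congr rfl (fun a ha => hZ1o a (Finset.mem_erase.1 ha).1 b)
      rw [e1]
      by_cases hb : b = h ∨ b = f
      · rw [hZ1c b hb]; exact CharTwo.add_self_eq_zero _
      · push Not at hb
        rw [hZ1u b hb.1 hb.2]
        have e2 : ∑ a ∈ Finset.univ.erase u, Y a b = ∑ a ∈ Finset.univ.erase u, Z (some a) b :=
          Finset.sum_congr rfl (fun a _ => hYo a b hb.1 hb.2)
        rw [e2]
        have e3 := hZc b
        rw [splitO (fun a' => Z a' b)] at e3
        rw [add_assoc]; exact e3
    obtain ⟨X0, hX0, hbX0⟩ := hE.ml Z1 hZ1s hrow hcolZ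
    refine ⟨X0, hX0, ?_⟩
    have hoth : ∀ a, a ≠ u → ∀ b, (Q.split u X f h).bd X0 (some a) b = Z (some a) b := by
      intro a ha b
      rw [split_bd_other ha]
      by_cases hb : b = h
      · subst hb
        rw [ren_bd_hub hhf, hbX0, hbX0, hZ1o a ha, hZ1o a ha, hYhf]
      · by_cases hb2 : b = f
        · subst hb2
          rw [hZf]
          unfold QS.bd
          rw [ren_cnt_f hhf]; simp
        · rw [ren_bd_other hb hb2, hbX0, hZ1o a ha, hYo a b hb hb2]
    have hnu : ∀ b, b ≠ h → (Q.split u X f h).bd X0 none b = Z none b ∧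
        (Q.split u X f h).bd X0 (some u) b = Z (some u) b := by
      intro b hb
      by_cases hb2 : b = f
      · subst hb2
        rw [hZf, hZf, split_bd_none, split_bd_u]
        unfold QS.bd
        rw [ren_cnt_f hhf, ren_cnt_f hhf]; simp
      · have e1 := hsumu X0 b hb hb2
        rw [hbX0, hZ1u b hb hb2] at e1
        have key : ((Q.split u X f h).bd X0 none b = 0 ∧ Z none b = 0) ∨
            ((Q.split u X f h).bd X0 (some u) b = 0 ∧ Z (some u) b = 0) := by
          rcases cnt_of_bd_zero hE hX (hXo b hb hb2) with h1 | h1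
          · left
            constructor
            · rw [split_bd_none, ren_bd_other hb hb2]
              have := Q.cnt_mono (Finset.inter_subset_right : X0 ∩ X ⊆ X) u b
              exact Q.bd_eq_zero_of_cnt (by omega)
            · apply hZs
              rw [split_cnt_none, hEX, ren_cnt_other hb hb2]; exact h1
          · right
            have h2 := Q.cnt_sdiff hX u b
            have h3 : Q.cnt (E \ X) u b = 0 := by
              rcases hE.two u b with h4 | h4 <;> omega
            constructor
            · rw [split_bd_u, ren_bd_other hb hb2]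
              have := Q.cnt_mono (Finset.sdiff_subset_sdiff hX0 (Finset.Subset.refl X)) u b
              exact Q.bd_eq_zero_of_cnt (by omega)
            · apply hZs
              rw [split_cnt_u, ren_cnt_other hb hb2]; exact h3
        rcases key with ⟨k1, k2⟩ | ⟨k1, k2⟩
        · rw [k1, k2, zero_add, zero_add] at e1
          exact ⟨by rw [k1, k2], e1⟩
        · rw [k1, k2, add_zero, add_zero] at e1
          exact ⟨e1, by rw [k1, k2]⟩
    have hlast : ∀ a' : Option A, (∀ b, b ≠ h → (Q.split u X f h).bd X0 a' b = Z a' b) →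
        (Q.split u X f h).bd X0 a' h = Z a' h := by
      intro a' h1
      have e1 := (Q.split u X f h).sum_bd_B X0 a'
      have e2 := hZr a'
      rw [splitB (fun b => (Q.split u X f h).bd X0 a' b)] at e1
      rw [splitB (fun b => Z a' b)] at e2
      rw [h1 f (Ne.symm hhf), Finset.sum_congr rfl (fun b hb => h1 b (ob b hb).1), ← e2] at e1
      exact add_right_cancel e1
    intro a' b
    rcases a' with _ | a
    · by_cases hb : b = h
      · subst hb; exact hlast none (fun b' hb' => (hnu b' hb').1)
      · exact (hnu b hb).1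
    · by_cases ha : a = u
      · subst ha
        by_cases hb : b = h
        · subst hb; exact hlast (some a) (fun b' hb' => (hnu b' hb').2)
        · exact (hnu b hb).2
      · exact hoth a ha b

end Helper83.PY
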