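import Pool.Agent.Helper83.PY.Surg

/-!
PY piece P1: closure of a region by one face.
-/

open Finset

set_option linter.unusedSectionVars false
set_option linter.unusedSimpArgs false
set_option linter.unusedVariables false

namespace Helper83.PY

variable {ι A B : Type*} [DecidableEq ι] [DecidableEq A] [DecidableEq B] [Fintype A] [Fintype B]

section
variable {Q : QS ι A B}

theorem setFace_atA_ne {e0 i : ι} {v z : A} {h f : B} (hi : i ≠ e0) (a : A) :
    (Q.setFace e0 v z h f).atA i a ↔ Q.atA i a := by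
  unfold QS.atA QS.setFace
  simp [Function.update_of_ne hi]

theorem setFace_atB_ne {e0 i : ι} {v z : A} {h f : B} (hi : i ≠ e0) (b : B) :
    (Q.setFace e0 v z h f).atB i b ↔ Q.atB i b := by
  unfold QS.atB QS.setFace
  simp [Function.update_of_ne hi]

theorem setFace_atA_self {e0 : ι} {v z : A} {h f : B} (a : A) :
    (Q.setFace e0 v z h f).atA e0 a ↔ (a = v ∨ a = z) := by
  unfold QS.atA QS.setFace
  simp [eq_comm]

theorem setFace_atB_self {e0 : ι} {v z : A} {h f : B} (b : B) :
    (Q.setFace e0 v z h f).atB e0 b ↔ (b = h ∨ b = f) := by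
  unfold QS.atB QS.setFace
  simp [eq_comm]

theorem setFace_inc_ne {e0 i : ι} {v z : A} {h f : B} (hi : i ≠ e0) (a : A) (b : B) :
    (Q.setFace e0 v z h f).inc i a b = Q.inc i a b := by
  unfold QS.inc QS.setFace
  simp [Function.update_of_ne hi]

theorem setFace_cnt_of_notMem {e0 : ι} {v z : A} {h f : B} {S : Finset ι} (hS : e0 ∉ S)
    (a : A) (b : B) : (Q.setFace e0 v z h f).cnt S a b = Q.cnt S a b := by
  unfold QS.cnt
  apply Finset.sum_congr rfl
  intro i hi
  have hne : i ≠ e0 := by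
    intro h1; rw [h1] at hi; exact hS hi
  exact setFace_inc_ne hne a b

theorem setFace_inc_self {e0 : ι} {v z : A} {h f : B} (hvz : v ≠ z) (hhf : h ≠ f) (a : A) (b : B) :
    (Q.setFace e0 v z h f).inc e0 a b
      = if (a = v ∨ a = z) ∧ (b = h ∨ b = f) then 1 else 0 := by
  unfold QS.inc QS.setFace
  simp only [Function.update_self]
  by_cases h1 : v = a
  · subst h1
    have h2 : ¬ z = v := Ne.symm hvz
    by_cases h3 : h = b
    · subst h3; simp [h2, Ne.symm hhf]
    · by_cases h4 : f = b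
      · subst h4; simp [h2, h3]
      · simp [h2, h3, h4, Ne.symm h3, Ne.symm h4]
  · by_cases h2 : z = a
    · subst h2
      by_cases h3 : h = b
      · subst h3; simp [h1, Ne.symm hhf]
      · by_cases h4 : f = b
        · subst h4; simp [h1, h3]
        · simp [h1, h3, h4, Ne.symm h3, Ne.symm h4]
    · simp [h1, h2, Ne.symm h1, Ne.symm h2]

theorem setFace_bd_insert {e0 : ι} {v z : A} {h f : B} (hvz : v ≠ z) (hhf : h ≠ f)
    {S : Finset ι} (hS : e0 ∉ S) (a : A) (b : B) :
    (Q.setFace e0 v z h f).bd (insert e0 S) a b = del v z h f a b + Q.bd S a b := by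
  unfold QS.bd
  have h1 : (Q.setFace e0 v z h f).cnt (insert e0 S) a b
      = (Q.setFace e0 v z h f).inc e0 a b + (Q.setFace e0 v z h f).cnt S a b := by
    unfold QS.cnt; rw [Finset.sum_insert hS]
  rw [h1, setFace_cnt_of_notMem hS, setFace_inc_self hvz hhf]
  push_cast
  rfl

theorem setFace_bd_of_notMem {e0 : ι} {v z : A} {h f : B} {S : Finset ι} (hS : e0 ∉ S)
    (a : A) (b : B) : (Q.setFace e0 v z h f).bd S a b = Q.bd S a b := by
  unfold QS.bd; rw [setFace_cnt_of_notMem hS]

end

/-- the complement of a region is a region -/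
theorem compl_reg {Q : QS ι A B} {E K : Finset ι} {v z : A} {h f : B} (hE : IsSph Q E)
    (hK : K ⊆ E) (R : IsReg Q K v z h f) : IsReg Q (E \ K) v z h f :=
  ⟨R.vz, R.hf, fun a b => by rw [Q.bd_sdiff hK, hE.bd_all, zero_add]; exact R.bd a b⟩

/-- lift of a subset of the closed complement -/
def clo (e0 : ι) (K S : Finset ι) : Finset ι := S.erase e0 ∪ (if e0 ∈ S then K else ∅)

theorem mem_clo {e0 : ι} {K S : Finset ι} {i : ι} :
    i ∈ clo e0 K S ↔ (i ≠ e0 ∧ i ∈ S) ∨ (e0 ∈ S ∧ i ∈ K) := by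
  unfold clo
  rw [Finset.mem_union, Finset.mem_erase]
  by_cases h : e0 ∈ S <;> simp [h]

theorem bd_union_disj {Q : QS ι A B} {S T : Finset ι} (h : Disjoint S T) (a : A) (b : B) :
    Q.bd (S ∪ T) a b = Q.bd S a b + Q.bd T a b := by
  unfold QS.bd QS.cnt
  rw [Finset.sum_union h]; push_cast; rfl

theorem clo_bd {Q : QS ι A B} {E K : Finset ι} {v z : A} {h f : B} (hE : IsSph Q E)
    (hK : K ⊆ E) (R : IsReg Q K v z h f) {e0 : ι} (he0 : e0 ∈ K) {S : Finset ι}
    (hS : S ⊆ insert e0 (E \ K)) (a : A) (b : B) :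
    (Q.setFace e0 v z h f).bd S a b = Q.bd (clo e0 K S) a b := by
  by_cases h0 : e0 ∈ S
  · have h1 : insert e0 (S.erase e0) = S := Finset.insert_erase h0
    have h2 : clo e0 K S = S.erase e0 ∪ K := by unfold clo; rw [if_pos h0]
    have h3 : Disjoint (S.erase e0) K := by
      rw [Finset.disjoint_left]
      intro i hi hiK
      rw [Finset.mem_erase] at hi
      rcases Finset.mem_insert.1 (hS hi.2) with h4 | h4
      · exact hi.1 h4
      · exact (Finset.mem_sdiff.1 h4).2 hiK
    rw [h2, bd_union_disj h3, R.bd]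
    conv_lhs => rw [← h1]
    rw [setFace_bd_insert R.vz R.hf (Finset.notMem_erase e0 S), add_comm]
  · have h2 : clo e0 K S = S := by
      unfold clo; rw [if_neg h0, Finset.union_empty, Finset.erase_eq_of_notMem h0]
    rw [h2, setFace_bd_of_notMem h0]

theorem clo_sub {E K : Finset ι} {e0 : ι} (hK : K ⊆ E) {S : Finset ι}
    (hS : S ⊆ insert e0 (E \ K)) : clo e0 K S ⊆ E := by
  intro i hi
  rcases mem_clo.1 hi with ⟨h1, h2⟩ | ⟨h1, h2⟩
  · rcases Finset.mem_insert.1 (hS h2) with h3 | h3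
    · exact absurd h3 h1
    · exact (Finset.mem_sdiff.1 h3).1
  · exact hK h2

theorem closure_link_aux {Q : QS ι A B} {E K : Finset ι} {v z : A} {h f : B} (hE : IsSph Q E)
    (hK : K ⊆ E) (R : IsReg Q K v z h f) {e0 : ι} (he0 : e0 ∈ K) (b : B) (S : Finset ι)
    (hS : S ⊆ insert e0 (E \ K)) (h0 : ∀ a, (Q.setFace e0 v z h f).bd S a b = 0) :
    (∀ i ∈ insert e0 (E \ K), (Q.setFace e0 v z h f).atB i b → i ∈ S) ∨
      (∀ i ∈ S, ¬ (Q.setFace e0 v z h f).atB i b) := by
  have h1 : ∀ a, Q.bd (clo e0 K S) a b = 0 := fun a => by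
    rw [← clo_bd hE hK R he0 hS]; exact h0 a
  have hcor : b = h ∨ b = f → ∃ i ∈ K, Q.atB i b := by
    intro hb
    obtain ⟨i, hi, _, hib⟩ := reg_corner R (Or.inl rfl : v = v ∨ v = z) hb
    exact ⟨i, hi, hib⟩
  rcases hE.linkB b (clo e0 K S) (clo_sub hK hS) h1 with h2 | h2
  · left
    intro i hi hib
    by_cases hie : i = e0
    · subst hie
      rw [setFace_atB_self] at hib
      obtain ⟨j, hj, hjb⟩ := hcor hib
      have h3 := h2 j (hK hj) hjb
      rcases mem_clo.1 h3 with ⟨h4, h5⟩ | ⟨h4, h5⟩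
      · exfalso
        rcases Finset.mem_insert.1 (hS h5) with h6 | h6
        · exact h4 h6
        · exact (Finset.mem_sdiff.1 h6).2 hj
      · exact h4
    · rw [setFace_atB_ne hie] at hib
      rcases Finset.mem_insert.1 hi with h6 | h6
      · exact absurd h6 hie
      · have h3 := h2 i (Finset.mem_sdiff.1 h6).1 hib
        rcases mem_clo.1 h3 with ⟨h4, h5⟩ | ⟨h4, h5⟩
        · exact h5
        · exact absurd h5 (Finset.mem_sdiff.1 h6).2
  · right
    intro i hi hib
    by_cases hie : i = e0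
    · subst hie
      rw [setFace_atB_self] at hib
      obtain ⟨j, hj, hjb⟩ := hcor hib
      exact h2 j (mem_clo.2 (Or.inr ⟨hi, hj⟩)) hjb
    · rw [setFace_atB_ne hie] at hib
      exact h2 i (mem_clo.2 (Or.inl ⟨hie, hi⟩)) hib

theorem setFace_swap (Q : QS ι A B) (e0 : ι) (v z : A) (h f : B) :
    (Q.setFace e0 v z h f).swap = Q.swap.setFace e0 h f v z := rfl

theorem swap_reg {Q : QS ι A B} {K : Finset ι} {v z : A} {h f : B} (R : IsReg Q K v z h f) :
    IsReg Q.swap K h f v z := by
  refine ⟨R.hf, R.vz, fun b a => ?_⟩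
  rw [QS.swap_bd, R.bd]
  unfold del
  simp only [and_comm]

theorem closure_sph {Q : QS ι A B} {E K : Finset ι} {v z : A} {h f : B} (hE : IsSph Q E)
    (hK : K ⊆ E) (R : IsReg Q K v z h f) {e0 : ι} (he0 : e0 ∈ K) :
    IsSph (Q.setFace e0 v z h f) (insert e0 (E \ K)) where
  ne := Finset.insert_nonempty _ _
  two := by
    have hn : e0 ∉ E \ K := fun h1 => (Finset.mem_sdiff.1 h1).2 he0
    intro a b
    have h1 : (Q.setFace e0 v z h f).cnt (insert e0 (E \ K)) a b
        = (Q.setFace e0 v z h f).inc e0 a b + Q.cnt (E \ K) a b := by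
      rw [← setFace_cnt_of_notMem (Q := Q) (v := v) (z := z) (h := h) (f := f) hn]
      unfold QS.cnt; rw [Finset.sum_insert hn]
    rw [h1, setFace_inc_self R.vz R.hf]
    have R' := compl_reg hE hK R
    by_cases hc : (a = v ∨ a = z) ∧ (b = h ∨ b = f)
    · rw [if_pos hc]
      have h2 : Q.bd (E \ K) a b = 1 := by rw [R'.bd]; simp only [del]; rw [if_pos hc]
      rw [cnt_of_bd_one hE Finset.sdiff_subset h2]
      right; rfl
    · rw [if_neg hc, zero_add]
      have h2 : Q.bd (E \ K) a b = 0 := by rw [R'.bd]; simp only [del]; rw [if_neg hc]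
      exact cnt_of_bd_zero hE Finset.sdiff_subset h2
  conn := by
    intro S hS h0
    have h1 : ∀ a b, Q.bd (clo e0 K S) a b = 0 := fun a b => by
      rw [← clo_bd hE hK R he0 hS]; exact h0 a b
    rcases hE.conn _ (clo_sub hK hS) h1 with h2 | h2
    · left
      rw [Finset.eq_empty_iff_forall_notMem]
      intro i hi
      have h3 : ∀ j, j ∉ clo e0 K S := fun j => by rw [h2]; exact Finset.notMem_empty j
      by_cases hie : i = e0
      · subst hie
        exact h3 i (mem_clo.2 (Or.inr ⟨hi, he0⟩))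
      · exact h3 i (mem_clo.2 (Or.inl ⟨hie, hi⟩))
    · right
      apply Finset.Subset.antisymm hS
      intro i hi
      have h3 : ∀ j ∈ E, j ∈ clo e0 K S := fun j hj => by rw [h2]; exact hj
      rcases Finset.mem_insert.1 hi with h4 | h4
      · subst h4
        rcases mem_clo.1 (h3 i (hK he0)) with ⟨h5, _⟩ | ⟨h5, _⟩
        · exact absurd rfl h5
        · exact h5
      · rw [Finset.mem_sdiff] at h4
        rcases mem_clo.1 (h3 i h4.1) with ⟨_, h5⟩ | ⟨_, h5⟩
        · exact h5
        · exact absurd h5 h4.2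
  linkB := by
    intro b S hS h0
    exact closure_link_aux hE hK R he0 b S hS h0
  linkA := by
    intro a S hS h0
    exact closure_link_aux hE.swap hK (swap_reg R) he0 a S hS (fun b => by
      rw [← setFace_swap, QS.swap_bd]; exact h0 b)
  ml := by
    intro Z hZs hZr hZc
    have hn : e0 ∉ E \ K := fun h1 => (Finset.mem_sdiff.1 h1).2 he0
    have R' := compl_reg hE hK R
    have hcor : ∀ a b, (a = v ∨ a = z) ∧ (b = h ∨ b = f) → Q.cnt (E \ K) a b ≠ 0 := by
      intro a b hc h1
      obtain ⟨i, hi, h2⟩ := reg_corner R' hc.1 hc.2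
      exact (Q.cnt_eq_zero _ _ _).1 h1 i hi h2
    have hZs' : ∀ a b, Q.cnt (E \ K) a b = 0 → Z a b = 0 := by
      intro a b h1
      apply hZs
      have h2 : (Q.setFace e0 v z h f).cnt (insert e0 (E \ K)) a b
          = (Q.setFace e0 v z h f).inc e0 a b + Q.cnt (E \ K) a b := by
        rw [← setFace_cnt_of_notMem (Q := Q) (v := v) (z := z) (h := h) (f := f) hn]
        unfold QS.cnt; rw [Finset.sum_insert hn]
      rw [h2, h1, setFace_inc_self R.vz R.hf, if_neg (fun hc => hcor a b hc h1)]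
    obtain ⟨X, hX, hbX⟩ := hE.ml Z (fun a b h1 => by
      apply hZs'
      have := Q.cnt_mono (Finset.sdiff_subset : E \ K ⊆ E) a b
      omega) hZr hZc
    have hXd : Disjoint (X \ K) (X ∩ K) := by
      rw [Finset.disjoint_left]
      intro i hi hi2
      exact (Finset.mem_sdiff.1 hi).2 (Finset.mem_inter.1 hi2).2
    have hXu : (X \ K) ∪ (X ∩ K) = X := Finset.sdiff_union_inter X K
    have hsum : ∀ a b, Q.bd (X \ K) a b + Q.bd (X ∩ K) a b = Z a b := by
      intro a b
      rw [← bd_union_disj hXd, hXu, hbX]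
    have hsub : X \ K ⊆ E \ K := Finset.sdiff_subset_sdiff hX (Finset.Subset.refl _)
    have hW : ∀ a b, Q.bd (X ∩ K) a b ≠ 0 → (a = v ∨ a = z) ∧ (b = h ∨ b = f) := by
      intro a b h1
      have h2 : Q.cnt K a b ≠ 0 := by
        intro h3
        have h4 := Q.cnt_mono (Finset.inter_subset_right : X ∩ K ⊆ K) a b
        exact h1 (Q.bd_eq_zero_of_cnt (by omega))
      have h3 : Q.cnt (E \ K) a b ≠ 0 := by
        intro h4
        have h5 := Q.cnt_mono hsub a b
        have h6 := hsum a b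
        rw [Q.bd_eq_zero_of_cnt (show Q.cnt (X \ K) a b = 0 by omega), zero_add, hZs' a b h4] at h6
        exact h1 h6
      have h4 := bd_one_of_both hE hK h2 h3
      rw [R.bd] at h4
      exact del_eq_one h4
    rcases corner_eq R.vz R.hf hW (fun a => Q.sum_bd_B _ a) (fun b => Q.sum_bd_A _ b) with h1 | h1
    · refine ⟨X \ K, hsub.trans (Finset.subset_insert _ _), ?_⟩
      intro a b
      rw [setFace_bd_of_notMem (fun h2 => hn (hsub h2)), ← hsum a b, h1, add_zero]
    · refine ⟨insert e0 (X \ K), Finset.insert_subset_insert e0 hsub, ?_⟩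
      intro a b
      rw [setFace_bd_insert R.vz R.hf (fun h2 => hn (hsub h2)), ← hsum a b, h1, add_comm]

end Helper83.PY
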