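import Pool.Agent.Helper83.PY.Surg

/-!
PY piece P2: doubling of a face.
-/

open Finset

set_option linter.unusedSectionVars false
set_option linter.unusedSimpArgs false
set_option linter.unusedVariables false

namespace Helper83.PY

variable {ι A B : Type*} [DecidableEq ι] [DecidableEq A] [DecidableEq B] [Fintype A] [Fintype B]

/-- splitting off two indices from a count -/
theorem cnt_two {ι A B : Type*} [DecidableEq ι] [DecidableEq A] [DecidableEq B]
    (Q : QS ι A B) {e0 e1 : ι} (hne : e0 ≠ e1) (S : Finset ι) (a : A) (b : B) :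
    Q.cnt S a b = Q.cnt ((S.erase e1).erase e0) a b + (if e0 ∈ S then Q.inc e0 a b else 0)
      + (if e1 ∈ S then Q.inc e1 a b else 0) := by
  have h1 : Q.cnt S a b = Q.cnt (S.erase e1) a b + (if e1 ∈ S then Q.inc e1 a b else 0) := by
    unfold QS.cnt
    by_cases h : e1 ∈ S
    · rw [if_pos h, Finset.sum_erase_add _ _ h]
    · rw [if_neg h, Finset.erase_eq_of_notMem h, add_zero]
  have h2 : Q.cnt (S.erase e1) a b
      = Q.cnt ((S.erase e1).erase e0) a b + (if e0 ∈ S then Q.inc e0 a b else 0) := by
    unfold QS.cnt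
    by_cases h : e0 ∈ S
    · have h' : e0 ∈ S.erase e1 := Finset.mem_erase.2 ⟨hne, h⟩
      rw [if_pos h, Finset.sum_erase_add _ _ h']
    · have h' : e0 ∉ S.erase e1 := fun h3 => h (Finset.mem_of_mem_erase h3)
      rw [if_neg h, Finset.erase_eq_of_notMem h', add_zero]
  rw [h1, h2]

section
variable {Q : QS ι A B} {e0 e1 : ι}

theorem dbl_atA_ne {i : ι} (hi : i ≠ e1) (a : A) : (Q.dbl e0 e1).atA i a ↔ Q.atA i a := by
  unfold QS.atA QS.dbl; simp [hi]

theorem dbl_atA_e1 (a : A) : (Q.dbl e0 e1).atA e1 a ↔ Q.atA e0 a := by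
  unfold QS.atA QS.dbl; simp

theorem dbl_inc_other {i : ι} (h0 : i ≠ e0) (h1 : i ≠ e1) (a : A) (b : B) :
    (Q.dbl e0 e1).inc i a (some b) = Q.inc i a b := by
  unfold QS.inc QS.dbl; simp [h0, h1]

theorem dbl_inc_other_none {i : ι} (h0 : i ≠ e0) (h1 : i ≠ e1) (a : A) :
    (Q.dbl e0 e1).inc i a none = 0 := by
  unfold QS.inc QS.dbl; simp [h0, h1]

theorem dbl_atB_none (i : ι) : (Q.dbl e0 e1).atB i none ↔ (i = e0 ∨ i = e1) := by
  unfold QS.atB QS.dbl
  by_cases h1 : i = e1
  · simp [h1]
  · by_cases h0 : i = e0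
    · subst h0; simp [h1]
    · simp [h0, h1]

/-- the multiplicity of `a` among the ends of `e0` -/
def pe (Q : QS ι A B) (e0 : ι) (a : A) : ℕ :=
  (if Q.p e0 = a then 1 else 0) + (if Q.q e0 = a then 1 else 0)

theorem inc_e0 (a : A) (b : B) : Q.inc e0 a b
    = pe Q e0 a * ((if Q.x e0 = b then 1 else 0) + (if Q.y e0 = b then 1 else 0)) := rfl

theorem dbl_inc_e0_none (hne : e0 ≠ e1) (a : A) : (Q.dbl e0 e1).inc e0 a none = pe Q e0 a := by
  unfold QS.inc QS.dbl pe; simp [hne]

theorem dbl_inc_e1_none (a : A) : (Q.dbl e0 e1).inc e1 a none = pe Q e0 a := by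
  unfold QS.inc QS.dbl pe; simp

theorem dbl_inc_e0_some (hne : e0 ≠ e1) (a : A) (b : B) :
    (Q.dbl e0 e1).inc e0 a (some b) = pe Q e0 a * (if Q.x e0 = b then 1 else 0) := by
  unfold QS.inc QS.dbl pe; simp [hne]

theorem dbl_inc_e1_some (a : A) (b : B) :
    (Q.dbl e0 e1).inc e1 a (some b) = pe Q e0 a * (if Q.y e0 = b then 1 else 0) := by
  unfold QS.inc QS.dbl pe; simp

theorem dbl_cnt_rest (S : Finset ι) (a : A) (b : B) :
    (Q.dbl e0 e1).cnt ((S.erase e1).erase e0) a (some b) = Q.cnt ((S.erase e1).erase e0) a b := by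
  unfold QS.cnt
  apply Finset.sum_congr rfl
  intro i hi
  rw [Finset.mem_erase, Finset.mem_erase] at hi
  exact dbl_inc_other hi.1 hi.2.1 a b

theorem dbl_cnt_rest_none (S : Finset ι) (a : A) :
    (Q.dbl e0 e1).cnt ((S.erase e1).erase e0) a none = 0 := by
  unfold QS.cnt
  apply Finset.sum_eq_zero
  intro i hi
  rw [Finset.mem_erase, Finset.mem_erase] at hi
  exact dbl_inc_other_none hi.1 hi.2.1 a

theorem dbl_bd_none (hne : e0 ≠ e1) (S : Finset ι) (a : A) :
    (Q.dbl e0 e1).bd S a none
      = (pe Q e0 a : ZMod 2) * ((if e0 ∈ S then 1 else 0) + (if e1 ∈ S then 1 else 0)) := by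
  unfold QS.bd
  rw [cnt_two _ hne, dbl_cnt_rest_none, dbl_inc_e0_none hne, dbl_inc_e1_none]
  by_cases h0 : e0 ∈ S <;> by_cases h1 : e1 ∈ S <;> simp [h0, h1] <;> ring

theorem dbl_bd_some (hne : e0 ≠ e1) (S : Finset ι) (a : A) (b : B) :
    (Q.dbl e0 e1).bd S a (some b)
      = Q.bd ((S.erase e1).erase e0) a b
        + (if e0 ∈ S then (pe Q e0 a : ZMod 2) * (if Q.x e0 = b then 1 else 0) else 0)
        + (if e1 ∈ S then (pe Q e0 a : ZMod 2) * (if Q.y e0 = b then 1 else 0) else 0) := by
  unfold QS.bd
  rw [cnt_two _ hne, dbl_cnt_rest, dbl_inc_e0_some hne, dbl_inc_e1_some]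
  by_cases h0 : e0 ∈ S <;> by_cases h1 : e1 ∈ S <;> simp [h0, h1]

/-- the plain boundary of a set not containing `e1` -/
theorem bd_e0 (hne : e0 ≠ e1) {S : Finset ι} (h1 : e1 ∉ S) (a : A) (b : B) :
    Q.bd S a b = Q.bd ((S.erase e1).erase e0) a b
      + (if e0 ∈ S then (pe Q e0 a : ZMod 2)
          * ((if Q.x e0 = b then 1 else 0) + (if Q.y e0 = b then 1 else 0)) else 0) := by
  unfold QS.bd
  rw [cnt_two _ hne, if_neg h1, inc_e0]
  by_cases h0 : e0 ∈ S <;> simp [h0]

/-- replacement set for the column `y` -/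
def alt (e0 e1 : ι) (S : Finset ι) : Finset ι :=
  (S.erase e1).erase e0 ∪ (if e1 ∈ S then {e0} else ∅)

theorem mem_alt {S : Finset ι} {i : ι} :
    i ∈ alt e0 e1 S ↔ (i ≠ e0 ∧ i ≠ e1 ∧ i ∈ S) ∨ (i = e0 ∧ e1 ∈ S) := by
  unfold alt
  rw [Finset.mem_union, Finset.mem_erase, Finset.mem_erase]
  by_cases h : e1 ∈ S <;> simp [h]

theorem alt_rest (hne : e0 ≠ e1) (S : Finset ι) :
    ((alt e0 e1 S).erase e1).erase e0 = (S.erase e1).erase e0 := by
  ext i
  simp only [Finset.mem_erase, mem_alt]
  constructor
  · rintro ⟨h1, h2, h3 | h3⟩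
    · exact ⟨h1, h2, h3.2.2⟩
    · exact absurd h3.1 h1
  · rintro ⟨h1, h2, h3⟩
    exact ⟨h1, h2, Or.inl ⟨h1, h2, h3⟩⟩

theorem e1_notMem_alt (hne : e0 ≠ e1) (S : Finset ι) : e1 ∉ alt e0 e1 S := by
  rw [mem_alt]
  rintro (h | h)
  · exact h.2.1 rfl
  · exact hne h.1.symm

theorem e0_mem_alt (S : Finset ι) : e0 ∈ alt e0 e1 S ↔ e1 ∈ S := by
  rw [mem_alt]
  simp

/-- column `b ≠ y` -/
theorem dbl_bd_ne (hne : e0 ≠ e1) (S : Finset ι) (a : A) {b : B} (hb : Q.y e0 ≠ b) :
    (Q.dbl e0 e1).bd S a (some b) = Q.bd (S.erase e1) a b := by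
  rw [dbl_bd_some hne, bd_e0 hne (Finset.notMem_erase e1 S), Finset.erase_idem]
  have h2 : e0 ∈ S.erase e1 ↔ e0 ∈ S := by simp [Finset.mem_erase, hne]
  simp only [h2]
  by_cases h0 : e0 ∈ S <;> by_cases h1 : e1 ∈ S <;> simp [h0, h1, hb]

/-- column `y` -/
theorem dbl_bd_y (hne : e0 ≠ e1) (hx : Q.x e0 ≠ Q.y e0) (S : Finset ι) (a : A) :
    (Q.dbl e0 e1).bd S a (some (Q.y e0)) = Q.bd (alt e0 e1 S) a (Q.y e0) := by
  rw [dbl_bd_some hne, bd_e0 hne (e1_notMem_alt hne S), alt_rest hne]
  simp only [e0_mem_alt]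
  by_cases h0 : e0 ∈ S <;> by_cases h1 : e1 ∈ S <;> simp [h0, h1, hx]

/-- all columns when `e0 ∈ S ↔ e1 ∈ S` -/
theorem dbl_bd_both (hne : e0 ≠ e1) {S : Finset ι} (h : e0 ∈ S ↔ e1 ∈ S) (a : A) (b : B) :
    (Q.dbl e0 e1).bd S a (some b) = Q.bd (S.erase e1) a b := by
  rw [dbl_bd_some hne, bd_e0 hne (Finset.notMem_erase e1 S), Finset.erase_idem]
  have h2 : e0 ∈ S.erase e1 ↔ e0 ∈ S := by simp [Finset.mem_erase, hne]
  simp only [h2, ← h]
  by_cases h0 : e0 ∈ S
  · simp only [h0, if_true]; ring
  · simp [h0]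

theorem pe_one {a : A} (hp : Q.p e0 ≠ Q.q e0) (ha : Q.atA e0 a) : pe Q e0 a = 1 := by
  unfold pe
  rcases ha with h | h
  · have : ¬ Q.q e0 = a := fun h2 => hp (h.trans h2.symm)
    simp [h, this]
  · have : ¬ Q.p e0 = a := fun h2 => hp (h2.trans h.symm)
    simp [h, this]

theorem pe_zero {a : A} (ha : ¬ Q.atA e0 a) : pe Q e0 a = 0 := by
  unfold QS.atA at ha
  push Not at ha
  unfold pe
  simp [ha.1, ha.2]

theorem both_of_row (hne : e0 ≠ e1) (hp : Q.p e0 ≠ Q.q e0) {S : Finset ι} {a : A}
    (ha : Q.atA e0 a) (h : (Q.dbl e0 e1).bd S a none = 0) : e0 ∈ S ↔ e1 ∈ S := by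
  rw [dbl_bd_none hne, pe_one hp ha] at h
  by_cases h0 : e0 ∈ S <;> by_cases h1 : e1 ∈ S
  · simp [h0, h1]
  · simp [h0, h1] at h
  · simp [h0, h1] at h
  · simp [h0, h1]

end

theorem dbl_sph {Q : QS ι A B} {E : Finset ι} (hE : IsSph Q E) {e0 e1 : ι} (he0 : e0 ∈ E)
    (he1 : e1 ∉ E) (hp : Q.p e0 ≠ Q.q e0) (hx : Q.x e0 ≠ Q.y e0) :
    IsSph (Q.dbl e0 e1) (insert e1 E) := by
  have hne : e0 ≠ e1 := by
    intro h; rw [h] at he0; exact he1 he0
  have hrest : ((insert e1 E).erase e1).erase e0 = (E.erase e1).erase e0 := by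
    rw [Finset.erase_insert he1, Finset.erase_eq_of_notMem he1]
  have hsubE : ∀ {S : Finset ι}, S ⊆ insert e1 E → S.erase e1 ⊆ E := by
    intro S hS i hi
    rw [Finset.mem_erase] at hi
    rcases Finset.mem_insert.1 (hS hi.2) with h | h
    · exact absurd h hi.1
    · exact h
  have haltE : ∀ {S : Finset ι}, S ⊆ insert e1 E → alt e0 e1 S ⊆ E := by
    intro S hS i hi
    rcases mem_alt.1 hi with ⟨h1, h2, h3⟩ | ⟨h1, _⟩
    · exact hsubE hS (Finset.mem_erase.2 ⟨h2, h3⟩)
    · rw [h1]; exact he0
  have hcntsome : ∀ a b, (Q.dbl e0 e1).cnt (insert e1 E) a (some b) = Q.cnt E a b := by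
    intro a b
    rw [cnt_two _ hne, dbl_cnt_rest, hrest, dbl_inc_e0_some hne, dbl_inc_e1_some,
      cnt_two Q hne E, if_neg he1, if_pos he0, if_pos (Finset.mem_insert_self _ _),
      if_pos (Finset.mem_insert_of_mem he0), inc_e0]
    ring
  have hcntnone : ∀ a, (Q.dbl e0 e1).cnt (insert e1 E) a none = pe Q e0 a + pe Q e0 a := by
    intro a
    rw [cnt_two _ hne, dbl_cnt_rest_none, dbl_inc_e0_none hne, dbl_inc_e1_none,
      if_pos (Finset.mem_insert_self _ _), if_pos (Finset.mem_insert_of_mem he0), zero_add]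
  refine ⟨Finset.insert_nonempty _ _, ?_, ?_, ?_, ?_, ?_⟩
  · -- two
    intro a b
    rcases b with _ | b
    · rw [hcntnone]
      by_cases ha : Q.atA e0 a
      · rw [pe_one hp ha]; right; rfl
      · rw [pe_zero ha]; left; rfl
    · rw [hcntsome]; exact hE.two a b
  · -- conn
    intro S hS h0
    have hb := both_of_row hne hp (Or.inl rfl : Q.atA e0 (Q.p e0)) (h0 (Q.p e0) none)
    have h1 : ∀ a b, Q.bd (S.erase e1) a b = 0 := fun a b => by
      rw [← dbl_bd_both hne hb]; exact h0 a (some b)
    rcases hE.conn _ (hsubE hS) h1 with h2 | h2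
    · left
      have h3 : e0 ∉ S := by
        intro h4
        have : e0 ∈ S.erase e1 := Finset.mem_erase.2 ⟨hne, h4⟩
        rw [h2] at this
        exact absurd this (Finset.notMem_empty _)
      have h4 : e1 ∉ S := fun h5 => h3 (hb.2 h5)
      rw [Finset.erase_eq_of_notMem h4] at h2
      exact h2
    · right
      apply Finset.Subset.antisymm hS
      intro i hi
      have h3 : e0 ∈ S := by
        have : e0 ∈ S.erase e1 := by rw [h2]; exact he0
        exact Finset.mem_of_mem_erase this
      rcases Finset.mem_insert.1 hi with h4 | h4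
      · rw [h4]; exact hb.1 h3
      · have : i ∈ S.erase e1 := by rw [h2]; exact h4
        exact Finset.mem_of_mem_erase this
  · -- linkB
    intro b S hS h0
    rcases b with _ | b
    · have hb := both_of_row hne hp (Or.inl rfl : Q.atA e0 (Q.p e0)) (h0 (Q.p e0))
      by_cases h1 : e0 ∈ S
      · left
        intro i _ hi
        rcases (dbl_atB_none i).1 hi with h2 | h2
        · rw [h2]; exact h1
        · rw [h2]; exact hb.1 h1
      · right
        intro i hi h2
        rcases (dbl_atB_none i).1 h2 with h3 | h3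
        · rw [h3] at hi; exact h1 hi
        · rw [h3] at hi; exact h1 (hb.2 hi)
    · by_cases hby : Q.y e0 = b
      · -- column y
        subst hby
        have h1 : ∀ a, Q.bd (alt e0 e1 S) a (Q.y e0) = 0 := fun a => by
          rw [← dbl_bd_y hne hx]; exact h0 a
        have hat : ∀ i, i ≠ e0 → i ≠ e1 →
            ((Q.dbl e0 e1).atB i (some (Q.y e0)) ↔ Q.atB i (Q.y e0)) := by
          intro i h2 h3
          unfold QS.atB QS.dbl; simp [h2, h3]
        have hat0 : ¬ (Q.dbl e0 e1).atB e0 (some (Q.y e0)) := by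
          unfold QS.atB QS.dbl; simp [hne, hx]
        rcases hE.linkB _ _ (haltE hS) h1 with h2 | h2
        · left
          intro i hi hib
          by_cases hi0 : i = e0
          · rw [hi0] at hib; exact absurd hib hat0
          · by_cases hi1 : i = e1
            · rw [hi1]
              exact (e0_mem_alt S).1 (h2 e0 he0 (Or.inr rfl))
            · have h3 : i ∈ E := by
                rcases Finset.mem_insert.1 hi with h4 | h4
                · exact absurd h4 hi1
                · exact h4
              rcases mem_alt.1 (h2 i h3 ((hat i hi0 hi1).1 hib)) with h4 | h4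
              · exact h4.2.2
              · exact absurd h4.1 hi0
        · right
          intro i hi hib
          by_cases hi0 : i = e0
          · rw [hi0] at hib; exact hat0 hib
          · by_cases hi1 : i = e1
            · rw [hi1] at hi
              exact h2 e0 ((e0_mem_alt S).2 hi) (Or.inr rfl)
            · exact h2 i (mem_alt.2 (Or.inl ⟨hi0, hi1, hi⟩)) ((hat i hi0 hi1).1 hib)
      · have h1 : ∀ a, Q.bd (S.erase e1) a b = 0 := fun a => by
          rw [← dbl_bd_ne hne S a hby]; exact h0 a
        have hat : ∀ i, i ≠ e1 → ((Q.dbl e0 e1).atB i (some b) ↔ Q.atB i b) := by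
          intro i h3
          unfold QS.atB QS.dbl
          by_cases h2 : i = e0
          · subst h2; simp [h3, hby]
          · simp [h2, h3]
        have hat1 : ¬ (Q.dbl e0 e1).atB e1 (some b) := by
          unfold QS.atB QS.dbl; simp [hby]
        rcases hE.linkB _ _ (hsubE hS) h1 with h2 | h2
        · left
          intro i hi hib
          by_cases hi1 : i = e1
          · rw [hi1] at hib; exact absurd hib hat1
          · have h3 : i ∈ E := by
              rcases Finset.mem_insert.1 hi with h4 | h4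
              · exact absurd h4 hi1
              · exact h4
            exact Finset.mem_of_mem_erase (h2 i h3 ((hat i hi1).1 hib))
        · right
          intro i hi hib
          by_cases hi1 : i = e1
          · rw [hi1] at hib; exact hat1 hib
          · exact h2 i (Finset.mem_erase.2 ⟨hi1, hi⟩) ((hat i hi1).1 hib)
  · -- linkA
    intro a S hS h0
    by_cases ha : Q.atA e0 a
    · have hb := both_of_row hne hp ha (h0 none)
      have h1 : ∀ b, Q.bd (S.erase e1) a b = 0 := fun b => by
        rw [← dbl_bd_both hne hb]; exact h0 (some b)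
      rcases hE.linkA _ _ (hsubE hS) h1 with h2 | h2
      · left
        intro i hi hia
        have h0S : e0 ∈ S := Finset.mem_of_mem_erase (h2 e0 he0 ha)
        by_cases hi1 : i = e1
        · rw [hi1]; exact hb.1 h0S
        · have h3 : i ∈ E := by
            rcases Finset.mem_insert.1 hi with h4 | h4
            · exact absurd h4 hi1
            · exact h4
          exact Finset.mem_of_mem_erase (h2 i h3 ((dbl_atA_ne hi1 a).1 hia))
      · right
        intro i hi hia
        have h0S : e0 ∉ S := fun h3 => h2 e0 (Finset.mem_erase.2 ⟨hne, h3⟩) ha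
        by_cases hi1 : i = e1
        · rw [hi1] at hi; exact h0S (hb.2 hi)
        · exact h2 i (Finset.mem_erase.2 ⟨hi1, hi⟩) ((dbl_atA_ne hi1 a).1 hia)
    · have hpe := pe_zero ha
      have h1 : ∀ b, Q.bd (S.erase e1) a b = 0 := by
        intro b
        have h2 := h0 (some b)
        rw [dbl_bd_some hne] at h2
        rw [bd_e0 hne (Finset.notMem_erase e1 S), Finset.erase_idem, hpe]
        rw [hpe] at h2
        simpa using h2
      rcases hE.linkA _ _ (hsubE hS) h1 with h2 | h2
      · left
        intro i hi hia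
        by_cases hi1 : i = e1
        · rw [hi1, dbl_atA_e1] at hia; exact absurd hia ha
        · have h3 : i ∈ E := by
            rcases Finset.mem_insert.1 hi with h4 | h4
            · exact absurd h4 hi1
            · exact h4
          exact Finset.mem_of_mem_erase (h2 i h3 ((dbl_atA_ne hi1 a).1 hia))
      · right
        intro i hi hia
        by_cases hi1 : i = e1
        · rw [hi1, dbl_atA_e1] at hia; exact ha hia
        · exact h2 i (Finset.mem_erase.2 ⟨hi1, hi⟩) ((dbl_atA_ne hi1 a).1 hia)
  · -- ml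
    intro Z hZs hZr hZc
    have hy : Q.y e0 ≠ Q.x e0 := Ne.symm hx
    set t : ZMod 2 := Z (Q.p e0) none with ht
    -- column none
    have hz0 : ∀ a, ¬ Q.atA e0 a → Z a none = 0 := by
      intro a ha
      apply hZs
      rw [hcntnone, pe_zero ha]
    have hZn : ∀ a, Z a none = (pe Q e0 a : ZMod 2) * t := by
      intro a
      by_cases ha : Q.atA e0 a
      · rw [pe_one hp ha, Nat.cast_one, one_mul]
        rcases ha with h1 | h1
        · rw [ht, h1]
        · have h2 := hZc none
          have h3 : ∑ a, Z a none = ∑ a ∈ ({Q.p e0, Q.q e0} : Finset A), Z a none := by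
            symm
            apply Finset.sum_subset (Finset.subset_univ _)
            intro a' _ ha'
            apply hz0
            rintro (h4 | h4)
            · apply ha'; rw [h4]; exact Finset.mem_insert_self _ _
            · apply ha'; rw [h4]; exact Finset.mem_insert_of_mem (Finset.mem_singleton_self _)
          rw [h3, Finset.sum_pair hp] at h2
          rw [← h1, ht]
          exact (CharTwo.add_eq_zero.1 h2).symm
      · rw [hz0 a ha, pe_zero ha]; simp
    let Z1 : A → B → ZMod 2 := fun a b =>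
      Z a (some b) + (if Q.y e0 = b then (pe Q e0 a : ZMod 2) * t else 0)
    obtain ⟨X, hX, hbX⟩ := hE.ml Z1 (by
      intro a b h1
      simp only [Z1]
      have h2 : Z a (some b) = 0 := hZs a (some b) (by rw [hcntsome]; exact h1)
      rw [h2, zero_add]
      by_cases h3 : Q.y e0 = b
      · rw [if_pos h3]
        have h4 : ¬ Q.atA e0 a := by
          intro h5
          exact (Q.cnt_eq_zero _ _ _).1 h1 e0 he0 ⟨h5, Or.inr h3⟩
        rw [pe_zero h4]; simp
      · rw [if_neg h3]) (by
      intro a
      simp only [Z1]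
      rw [Finset.sum_add_distrib]
      simp only [Finset.sum_ite_eq, Finset.mem_univ, if_true]
      have h1 := hZr a
      rw [Fintype.sum_option, hZn a] at h1
      rw [add_comm]; exact h1) (by
      intro b
      simp only [Z1]
      rw [Finset.sum_add_distrib, hZc (some b), zero_add]
      by_cases h3 : Q.y e0 = b
      · simp only [h3, if_true]
        rw [← Finset.sum_mul]
        have : ∑ a, (pe Q e0 a : ZMod 2) = 0 := by
          unfold pe
          push_cast
          rw [Finset.sum_add_distrib]
          simp only [Finset.sum_ite_eq, Finset.mem_univ, if_true]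
          decide
        rw [this, zero_mul]
      · simp [h3])
    have he1X : e1 ∉ X := fun h => he1 (hX h)
    -- e1 in S iff [e0 ∈ X] + t = 1
    by_cases hc : (if e0 ∈ X then (1 : ZMod 2) else 0) + t = 1
    · refine ⟨insert e1 X, Finset.insert_subset_insert e1 hX, ?_⟩
      intro a b
      have m0 : e0 ∈ insert e1 X ↔ e0 ∈ X := by simp [hne]
      have m1 : e1 ∈ insert e1 X := Finset.mem_insert_self _ _
      have mr : ((insert e1 X).erase e1).erase e0 = (X.erase e1).erase e0 := by
        rw [Finset.erase_insert he1X, Finset.erase_eq_of_notMem he1X]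
      rcases b with _ | b
      · rw [dbl_bd_none hne, hZn]
        simp only [m0, m1, if_true]
        have : (2 : ZMod 2) = 0 := by decide
        congr 1
        linear_combination (-1 : ZMod 2) * hc + ((if e0 ∈ X then (1 : ZMod 2) else 0)) * this
      · rw [dbl_bd_some hne, mr]
        have h1 := hbX a b
        rw [bd_e0 hne he1X] at h1
        simp only [Z1] at h1
        simp only [m0, m1, if_true]
        by_cases h0 : e0 ∈ X
        · simp only [h0, if_true] at h1 hc ⊢
          have ht0 : t = 0 := by linear_combination hc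
          rw [ht0] at h1
          simp only [mul_zero, ite_self, add_zero] at h1
          rw [← h1]; ring
        · simp only [h0, if_false] at h1 hc ⊢
          have ht0 : t = 1 := by linear_combination hc
          rw [ht0] at h1
          simp only [mul_one, add_zero] at h1
          rw [h1]
          have : (2 : ZMod 2) = 0 := by decide
          by_cases hb : Q.y e0 = b
          · simp only [hb, if_true, mul_one, add_zero]
            linear_combination (pe Q e0 a : ZMod 2) * this
          · simp [hb]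
    · have hc' : (if e0 ∈ X then (1 : ZMod 2) else 0) + t = 0 := by
        rcases zmod2_cases ((if e0 ∈ X then (1 : ZMod 2) else 0) + t) with h | h
        · exact h
        · exact absurd h hc
      refine ⟨X, hX.trans (Finset.subset_insert _ _), ?_⟩
      intro a b
      rcases b with _ | b
      · rw [dbl_bd_none hne, hZn, if_neg he1X]
        congr 1
        have : (2 : ZMod 2) = 0 := by decide
        linear_combination hc' - t * this
      · rw [dbl_bd_some hne, if_neg he1X]
        have h1 := hbX a b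
        rw [bd_e0 hne he1X] at h1
        simp only [Z1] at h1
        by_cases h0 : e0 ∈ X
        · simp only [h0, if_true] at h1 hc' ⊢
          have ht0 : t = 1 := by
            have : (2 : ZMod 2) = 0 := by decide
            linear_combination hc' - this
          rw [ht0] at h1
          have : (2 : ZMod 2) = 0 := by decide
          by_cases hb : Q.y e0 = b
          · simp only [hb, if_true, mul_one] at h1 ⊢
            linear_combination h1
          · simp only [hb, if_false] at h1 ⊢
            linear_combination h1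
        · simp only [h0, if_false] at h1 hc' ⊢
          have ht0 : t = 0 := by linear_combination hc'
          rw [ht0] at h1
          simp only [mul_zero, ite_self, add_zero] at h1 ⊢
          exact h1

end Helper83.PY
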