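import Pool.Agent.Helper83.PY.Seg

/-!
PY piece P4: Lemma Z (proved, helper83).

Proof by induction on `m` (over all types A, B), `|nb u| = 2m`.

* m = 1: nb u = {h, phi}.  BaseT (with U, M) gives a cover; every face at `u` has the side `phi`,
  so `u` can be replaced by `phi`.
* m >= 2: e1 the face at (u,h) different from g, phi1 its other side, e2 the other face at
  (u,phi1), phi2 its other side, w1, w2 the other ends of e1, e2; D = {e1,e2}, bd D u = {h,phi2}.
  - w1 <> w2: split along h-u-phi2 (`split_sph`).
  - w1 = w2 = z: `block_sph` for K = E \ D, rename phi2 -> h, M' = insert z M.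
-/

open Finset

set_option linter.unusedSectionVars false
set_option linter.unusedSimpArgs false
set_option linter.unusedVariables false

namespace Helper83.PY

variable {ι : Type} [DecidableEq ι]

section
variable {A B : Type} [DecidableEq A] [DecidableEq B] [Fintype A] [Fintype B]
  {Q : QS ι A B} {E D : Finset ι} {u : A} {h f : B} {g : ι} {U : Finset A}

theorem mem_nb {Q : QS ι A B} {E : Finset ι} {u : A} {b : B} : b ∈ nb Q E u ↔ Adj Q E u b := by
  unfold nb
  rw [Finset.mem_filter, adj_iff]
  simp

/-- the deleted system keeps the setting -/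
theorem setg_del (hs : Setg Q E u h U) (s : Seg Q E D u h f g) {w : A} (R : IsReg Q D u w h f)
    (hDw : ∀ i ∈ D, Q.atA i w)
    (hD2 : ∀ i ∈ D, ∀ a, Q.atA i a → a = u ∨ a = w)
    (hbl : ∀ a, a ≠ u → a ≠ w → Q.cnt (E \ D) a h = 0 ∨ Q.cnt (E \ D) a f = 0) :
    Setg (Q.ren f h) (E \ D) u h U where
  sph := block_sph s.sph Finset.sdiff_subset (compl_reg s.sph s.sub R) hbl
  adj := ⟨g, Finset.mem_sdiff.2 ⟨s.gE, s.gD⟩, s.gu, (ren_atB_hub s.hf g).2 (Or.inl s.gh)⟩
  uU := hs.uU
  outer := by
    intro v hv
    obtain ⟨i, hi, hiv, hih⟩ := hs.outer v hv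
    refine ⟨i, Finset.mem_sdiff.2 ⟨hi, ?_⟩, hiv, (ren_atB_hub s.hf i).2 (Or.inl hih)⟩
    intro hiD
    rcases hD2 i hiD v hiv with h1 | h1
    · rw [h1] at hv; exact hs.uU hv
    · -- v = w is adjacent to f
      have h2 : Q.cnt D w f ≠ 0 := by
        intro h3
        have h4 := R.bd w f
        rw [Q.bd_eq_zero_of_cnt h3] at h4
        simp [del] at h4
      have h3 : Q.cnt E w f ≠ 0 := by
        have := Q.cnt_mono s.sub w f; omega
      have h4 : Q.cnt E u f ≠ 0 := by
        have := Q.cnt_mono s.sub u f
        rw [s.cntD_f] at this; omega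
      exact s.hf (hs.disj w (h1 ▸ hv) f (adj_iff.2 h3) (adj_iff.2 h4)).symm
  disj := by
    intro v hv c h1 h2
    by_contra hc
    have old : ∀ {a : A}, Adj (Q.ren f h) (E \ D) a c → Adj Q E a c := by
      rintro a ⟨i, hi, hia, hib⟩
      have hcf : c ≠ f := by rintro rfl; exact ren_atB_f s.hf i hib
      exact ⟨i, (Finset.mem_sdiff.1 hi).1, hia, (ren_atB_other hc hcf i).1 hib⟩
    exact hc (hs.disj v hv c (old h1) (old h2))

theorem clean_del (s : Seg Q E D u h f g) (hcl : Clean Q E u g) :
    Clean (Q.ren f h) (E \ D) u g := by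
  intro z b b' hz hbb h1 h2 h3 h4
  have mono : ∀ {a : A} {c : B}, Adj (Q.ren f h) (E \ D) a c → Adj (Q.ren f h) E a c := by
    rintro a c ⟨i, hi, h5⟩
    exact ⟨i, (Finset.mem_sdiff.1 hi).1, h5⟩
  exact s.clean_core hcl hz hbb h1 h2 (mono h3) (mono h4)

/-- the neighbours after deletion -/
theorem nb_del (s : Seg Q E D u h f g) {c : B} :
    Adj (Q.ren f h) (E \ D) u c ↔ (c = h ∨ (Adj Q E u c ∧ c ≠ h ∧ c ≠ f ∧ Q.cnt D u c = 0)) := by
  constructor
  · rintro ⟨i, hi, hia, hib⟩
    by_cases hc : c = h
    · exact Or.inl hc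
    · right
      have hcf : c ≠ f := by rintro rfl; exact ren_atB_f s.hf i hib
      have h1 := (ren_atB_other hc hcf i).1 hib
      refine ⟨⟨i, (Finset.mem_sdiff.1 hi).1, hia, h1⟩, hc, hcf, ?_⟩
      by_contra h2
      exact cnt_pos_of_mem (Q := Q) hi hia h1 (s.inner hc hcf h2)
  · rintro (rfl | ⟨⟨i, hi, hia, hib⟩, h1, h2, h3⟩)
    · exact ⟨g, Finset.mem_sdiff.2 ⟨s.gE, s.gD⟩, s.gu, (ren_atB_hub s.hf g).2 (Or.inl s.gh)⟩
    · exact ⟨i, Finset.mem_sdiff.2 ⟨hi, fun h4 => cnt_pos_of_mem h4 hia hib h3⟩, hia,
        (ren_atB_other h1 h2 i).2 hib⟩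

/-- the split system keeps the setting -/
theorem setg_split (hs : Setg Q E u h U) (s : Seg Q E D u h f g)
    (hnc : ∀ a, a ≠ u → Q.cnt E a h = 0 ∨ Q.cnt E a f = 0) :
    Setg (Q.split u D f h) E (some u) h (U.map Function.Embedding.some) where
  sph := split_sph s.sph s.hf s.sub s.atu s.bd hnc
  adj := ⟨g, s.gE, (split_atA_u g).2 ⟨s.gD, s.gu⟩, (ren_atB_hub s.hf g).2 (Or.inl s.gh)⟩
  uU := by
    intro h1
    rw [Finset.mem_map] at h1
    obtain ⟨v, hv, h2⟩ := h1
    simp only [Function.Embedding.some_apply, Option.some.injEq] at h2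
    rw [h2] at hv
    exact hs.uU hv
  outer := by
    intro v' hv'
    rw [Finset.mem_map] at hv'
    obtain ⟨v, hv, rfl⟩ := hv'
    simp only [Function.Embedding.some_apply]
    have hvu : v ≠ u := by rintro rfl; exact hs.uU hv
    obtain ⟨i, hi, hiv, hih⟩ := hs.outer v hv
    exact ⟨i, hi, (split_atA_other hvu i).2 hiv, (ren_atB_hub s.hf i).2 (Or.inl hih)⟩
  disj := by
    intro v' hv' c h1 h2
    rw [Finset.mem_map] at hv'
    obtain ⟨v, hv, rfl⟩ := hv'
    simp only [Function.Embedding.some_apply] at h1
    have hvu : v ≠ u := by rintro rfl; exact hs.uU hv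
    by_contra hc
    obtain ⟨i, hi, hia, hib⟩ := h1
    obtain ⟨j, hj, hja, hjb⟩ := h2
    have hcf : c ≠ f := by rintro rfl; exact ren_atB_f s.hf i hib
    have e1 : Adj Q E v c := ⟨i, hi, (split_atA_other hvu i).1 hia, (ren_atB_other hc hcf i).1 hib⟩
    have e2 : Adj Q E u c := ⟨j, hj, ((split_atA_u j).1 hja).2, (ren_atB_other hc hcf j).1 hjb⟩
    exact hc (hs.disj v hv c e1 e2)

theorem adj_split_u {c : B} : Adj (Q.split u D f h) E (some u) c ↔
    Adj (Q.ren f h) (E \ D) u c := by
  constructor
  · rintro ⟨i, hi, hia, hib⟩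
    have := (split_atA_u i).1 hia
    exact ⟨i, Finset.mem_sdiff.2 ⟨hi, this.1⟩, this.2, hib⟩
  · rintro ⟨i, hi, hia, hib⟩
    have := Finset.mem_sdiff.1 hi
    exact ⟨i, this.1, (split_atA_u i).2 ⟨this.2, hia⟩, hib⟩

theorem clean_split (s : Seg Q E D u h f g) (hcl : Clean Q E u g) :
    Clean (Q.split u D f h) E (some u) g := by
  intro z' b b' hz hbb h1 h2 h3 h4
  rw [adj_split_u] at h1 h2
  rcases z' with _ | z
  · -- the new vertex is adjacent to h and inner vertices of D only
    exfalso
    have key : ∀ {c : B}, Adj (Q.ren f h) (E \ D) u c →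
        Adj (Q.split u D f h) E none c → c = h := by
      rintro c g1 ⟨i, hi, hia, hib⟩
      rcases (nb_del s).1 g1 with g2 | ⟨g2, g3, g4, g5⟩
      · exact g2
      · exfalso
        have := (split_atA_none i).1 hia
        exact cnt_pos_of_mem this.1 this.2 ((ren_atB_other g3 g4 i).1 hib) g5
    exact hbb ((key h1 h3).trans (key h2 h4).symm)
  · have hzu : z ≠ u := by rintro rfl; exact hz rfl
    have conv : ∀ {c : B}, Adj (Q.split u D f h) E (some z) c → Adj (Q.ren f h) E z c := by
      rintro c ⟨i, hi, hia, hib⟩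
      exact ⟨i, hi, (ren_atA Q f h i z).2 ((split_atA_other (Q := Q) hzu i).1 hia), hib⟩
    rcases s.clean_core hcl hzu hbb h1 h2 (conv h3) (conv h4) with
      ⟨i, hi, h5, h6, h7⟩ | ⟨X, hX, hgX, hXa, hXb⟩
    · left
      have := Finset.mem_sdiff.1 hi
      exact ⟨i, this.1, (split_atA_u i).2 ⟨this.2, h5⟩, h6, h7⟩
    · right
      refine ⟨X, hX.trans Finset.sdiff_subset, hgX, ?_, ?_⟩
      · intro i hi
        have := Finset.mem_sdiff.1 (hX hi)
        exact ⟨(split_atA_u i).2 ⟨this.2, (hXa i hi).1⟩, (split_atA_other hzu i).2 (hXa i hi).2⟩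
      · intro c
        rw [split_bd_u]
        have : X \ D = X := by
          rw [Finset.sdiff_eq_self_iff_disjoint]
          rw [Finset.disjoint_left]
          intro i hi hiD
          exact (Finset.mem_sdiff.1 (hX hi)).2 hiD
        rw [this, hXb]

/-- lift of a cover of the deleted system -/
theorem lift_del (s : Seg Q E D u h f g) {w : A} (hDw : ∀ i ∈ D, Q.atA i w) {M : Finset A}
    {t t' : ℕ} (hG : GoodM (Q.ren f h) (E \ D) u h U (insert w M) t) (ht : t ≤ t' + D.card) :
    GoodM Q E u h U M t' := by
  obtain ⟨SA, SB, h1, h2, h3, h4, h5, h6⟩ := hG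
  refine ⟨SA, SB.erase f, (Finset.subset_insert _ _).trans h1, h2, h3, ?_, ?_, ?_⟩
  · intro h7; exact h4 (Finset.mem_of_mem_erase h7)
  · intro i hi
    by_cases hiD : i ∈ D
    · exact Hit.of_atA (hDw i hiD) (h1 (Finset.mem_insert_self _ _))
    · exact hit_ren h4 h5 i (Finset.mem_sdiff.2 ⟨hi, hiD⟩)
  · have h7 : (SB.erase f).card ≤ SB.card := Finset.card_erase_le
    have h8 := Finset.card_sdiff_of_subset s.sub
    have h9 := Finset.card_le_card s.sub
    omega

/-- lift of a cover of the split system -/
theorem lift_split (s : Seg Q E D u h f g) {f1 : B} (hf1 : ∀ i ∈ D, Q.atB i f1) (hf1h : f1 ≠ h)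
    {M : Finset A} {t : ℕ}
    (hG : GoodM (Q.split u D f h) E (some u) h (U.map Function.Embedding.some)
      (M.map Function.Embedding.some) t) : GoodM Q E u h U M t := by
  obtain ⟨SA, SB, h1, h2, h3, h4, h5, h6⟩ := hG
  have mem : ∀ a, a ∈ Finset.eraseNone SA ↔ some a ∈ SA := fun a => Finset.mem_eraseNone
  refine ⟨Finset.eraseNone SA, if none ∈ SA then insert f1 (SB.erase f) else SB.erase f,
    ?_, ?_, ?_, ?_, ?_, ?_⟩
  · intro a ha
    rw [mem]
    exact h1 (Finset.mem_map.2 ⟨a, ha, rfl⟩)
  · rw [mem]; exact h2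
  · intro v hv
    rw [mem]
    exact h3 (some v) (Finset.mem_map.2 ⟨v, hv, rfl⟩)
  · have h7 : h ∉ SB.erase f := fun h8 => h4 (Finset.mem_of_mem_erase h8)
    split_ifs
    · intro h8
      rcases Finset.mem_insert.1 h8 with h9 | h9
      · exact hf1h h9.symm
      · exact h7 h9
    · exact h7
  · have hsub : SB.erase f ⊆ if none ∈ SA then insert f1 (SB.erase f) else SB.erase f := by
      split_ifs
      · exact Finset.subset_insert _ _
      · exact Finset.Subset.refl _
    have side : ∀ {c : B}, (if c = f then h else c) ∈ SB →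
        c ∈ if none ∈ SA then insert f1 (SB.erase f) else SB.erase f := by
      intro c hc
      apply hsub
      split_ifs at hc with h7
      · exact absurd hc h4
      · exact Finset.mem_erase.2 ⟨h7, hc⟩
    have endd : ∀ {i : ι} {a : A}, i ∈ E →
        (if i ∈ D ∧ a = u then none else some a) ∈ SA →
        a ∈ Finset.eraseNone SA ∨ (i ∈ D ∧ none ∈ SA) := by
      intro i a hi ha
      split_ifs at ha with h7
      · exact Or.inr ⟨h7.1, ha⟩
      · left; rw [mem]; exact ha
    intro i hi
    have hD : i ∈ D ∧ none ∈ SA → Q.p i ∈ Finset.eraseNone SA ∨ Q.q i ∈ Finset.eraseNone SA ∨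
        Q.x i ∈ (if none ∈ SA then insert f1 (SB.erase f) else SB.erase f) ∨
        Q.y i ∈ (if none ∈ SA then insert f1 (SB.erase f) else SB.erase f) := by
      rintro ⟨h7, h8⟩
      apply Hit.of_atB (hf1 i h7)
      rw [if_pos h8]
      exact Finset.mem_insert_self _ _
    rcases h5 i hi with h7 | h7 | h7 | h7
    · rcases endd hi h7 with h8 | h8
      · exact Or.inl h8
      · exact hD h8
    · rcases endd hi h7 with h8 | h8
      · exact Or.inr (Or.inl h8)
      · exact hD h8
    · exact Or.inr (Or.inr (Or.inl (side h7)))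
    · exact Or.inr (Or.inr (Or.inr (side h7)))
  · have h7 : (SB.erase f).card ≤ SB.card := Finset.card_erase_le
    by_cases h8 : none ∈ SA
    · rw [if_pos h8]
      have h9 : (insert f1 (SB.erase f)).card ≤ SB.card + 1 :=
        (Finset.card_insert_le _ _).trans (Nat.add_le_add_right h7 1)
      have h10 : (Finset.eraseNone SA).card + 1 = SA.card := by
        have e1 := Finset.card_eraseNone_eq_card_erase (s := SA)
        rw [e1, Finset.card_erase_of_mem h8]
        have : 0 < SA.card := Finset.card_pos.2 ⟨none, h8⟩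
        omega
      omega
    · rw [if_neg h8]
      have h10 : (Finset.eraseNone SA).card ≤ SA.card := by
        have e1 := Finset.card_eraseNone_eq_card_erase (s := SA)
        rw [e1]; exact Finset.card_erase_le
      omega

/-- if the faces of `S` at `u` close up, they are all faces at `u` -/
theorem all_of_row (hE : IsSph Q E) {S : Finset ι} (hS : S ⊆ E) {e : ι} (he : e ∈ S)
    (heu : Q.atA e u) (h0 : ∀ c, Q.bd S u c = 0) : ∀ i ∈ E, Q.atA i u → i ∈ S := by
  rcases hE.linkA u S hS h0 with h1 | h1
  · exact h1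
  · exact absurd heu (h1 e he)

theorem nb_card_le {S : Finset ι} {F : Finset B} (hSE : ∀ i ∈ E, Q.atA i u → i ∈ S)
    (hF : ∀ i ∈ S, ∀ c, Q.atB i c → c ∈ F) : (nb Q E u).card ≤ F.card := by
  apply Finset.card_le_card
  intro c hc
  rw [mem_nb] at hc
  obtain ⟨i, hi, hia, hib⟩ := hc
  exact hF i (hSE i hi hia) c hib

/-- Base case of Lemma Z: `u` has two neighbours. -/
theorem base_Z {k : ℕ} {T : ℕ → ℕ} (hb : BaseT ι k T) (hs : Setg Q E u h U) (hk : U.card ≤ k)
    {M : Finset A} (hM : ∀ a ∈ M, Adj Q E a h) (huM : u ∉ M) (hMU : ∀ a ∈ M, a ∉ U)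
    (hc : (nb Q E u).card = 2) : GoodM Q E u h U M (T M.card) := by
  have hh : h ∈ nb Q E u := mem_nb.2 hs.adj
  obtain ⟨x, y, hxy, hnb⟩ := Finset.card_eq_two.1 hc
  obtain ⟨f, hfh, hf, hall⟩ : ∃ f, f ≠ h ∧ Adj Q E u f ∧ ∀ c, Adj Q E u c → c = h ∨ c = f := by
    have hx : x ∈ nb Q E u := by rw [hnb]; simp
    have hy : y ∈ nb Q E u := by rw [hnb]; simp
    have hall : ∀ c, Adj Q E u c → c = x ∨ c = y := by
      intro c hc
      have := mem_nb.2 hc
      rw [hnb] at this
      simpa using this
    rcases hall h hs.adj with h1 | h1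
    · refine ⟨y, ?_, mem_nb.1 hy, ?_⟩
      · rw [h1]; exact Ne.symm hxy
      · rw [h1]; exact hall
    · refine ⟨x, ?_, mem_nb.1 hx, ?_⟩
      · rw [h1]; exact hxy
      · rw [h1]; intro c hc; exact (hall c hc).symm
  have hside : ∀ i ∈ E, Q.atA i u → Q.atB i f := by
    intro i hi hia
    have h1 := hall (Q.x i) ⟨i, hi, hia, Or.inl rfl⟩
    have h2 := hall (Q.y i) ⟨i, hi, hia, Or.inr rfl⟩
    rcases h1 with h1 | h1
    · rcases h2 with h2 | h2
      · exfalso
        by_cases h3 : 2 ≤ E.card
        · exact sides_ne hs.sph hi h3 (h1.trans h2.symm)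
        · obtain ⟨j, hj, hja, hjb⟩ := hf
          have h4 : E.card ≤ 1 := by omega
          have h5 := Finset.card_le_one.1 h4 i hi j hj
          rw [← h5] at hjb
          rcases hjb with h6 | h6
          · exact hfh (h6.symm.trans h1)
          · exact hfh (h6.symm.trans h2)
      · exact Or.inr h2
    · exact Or.inl h1
  obtain ⟨SA, SB, h1, h2, h3, h4, h5⟩ := hb A B Q E h U M hs.sph ⟨u, hs.adj⟩ hs.outer hk hM hMU
  by_cases hu : u ∈ SA
  · refine ⟨SA.erase u, insert f SB, ?_, Finset.notMem_erase _ _, ?_, ?_, ?_, ?_⟩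
    · intro a ha
      refine Finset.mem_erase.2 ⟨?_, h1 ha⟩
      rintro rfl; exact huM ha
    · intro v hv h6; exact h2 v hv (Finset.mem_of_mem_erase h6)
    · intro h6
      rcases Finset.mem_insert.1 h6 with h7 | h7
      · exact hfh h7.symm
      · exact h3 h7
    · intro i hi
      by_cases hiu : Q.atA i u
      · exact Hit.of_atB (hside i hi hiu) (Finset.mem_insert_self _ _)
      · have e1 : Q.p i ≠ u := fun h6 => hiu (Or.inl h6)
        have e2 : Q.q i ≠ u := fun h6 => hiu (Or.inr h6)
        rcases h4 i hi with h6 | h6 | h6 | h6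
        · exact Or.inl (Finset.mem_erase.2 ⟨e1, h6⟩)
        · exact Or.inr (Or.inl (Finset.mem_erase.2 ⟨e2, h6⟩))
        · exact Or.inr (Or.inr (Or.inl (Finset.mem_insert_of_mem h6)))
        · exact Or.inr (Or.inr (Or.inr (Finset.mem_insert_of_mem h6)))
    · have h6 := Finset.card_erase_of_mem hu
      have h7 : 0 < SA.card := Finset.card_pos.2 ⟨u, hu⟩
      have h8 := Finset.card_insert_le f SB
      omega
  · exact ⟨SA, SB, h1, hu, h2, h3, h4, h5⟩

end

theorem lemmaZ {k : ℕ} {T : ℕ → ℕ} (hb : BaseT ι k T) (hT : ∀ j, T (j + 1) ≤ T j + 2) :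
    ∀ (m : ℕ) (A B : Type) [DecidableEq A] [DecidableEq B] [Fintype A] [Fintype B]
      (Q : QS ι A B) (E : Finset ι) (u : A) (h : B) (U M : Finset A) (g : ι),
      Setg Q E u h U → U.card ≤ k → g ∈ E → Q.atA g u → Q.atB g h → Clean Q E u g →
      (∀ a ∈ M, Adj Q E a h) → u ∉ M → (∀ a ∈ M, a ∉ U) → (nb Q E u).card = 2 * m →
      GoodM Q E u h U M (T M.card) := by
  intro m
  induction m with
  | zero =>
    intro A B _ _ _ _ Q E u h U M g hs hk hg hgu hgh hcl hM huM hMU hc
    exfalso
    have h1 : h ∈ nb Q E u := mem_nb.2 hs.adj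
    have h2 : 0 < (nb Q E u).card := Finset.card_pos.2 ⟨h, h1⟩
    omega
  | succ m ih =>
    intro A B _ _ _ _ Q E u h U M g hs hk hg hgu hgh hcl hM huM hMU hc
    rcases Nat.eq_zero_or_pos m with hm0 | hm
    · subst hm0
      exact base_Z hb hs hk hM huM hMU (by omega)
    have hE := hs.sph
    -- at least two faces
    have hE2 : 2 ≤ E.card := by
      by_contra h1
      have h2 : E.card ≤ 1 := by omega
      have h3 : (nb Q E u).card ≤ ({Q.x g, Q.y g} : Finset B).card := by
        apply nb_card_le (S := {g})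
        · intro i hi _
          rw [Finset.mem_singleton]
          exact Finset.card_le_one.1 h2 i hi g hg
        · intro i hi c hic
          rw [Finset.mem_singleton] at hi
          subst hi
          rcases hic with h4 | h4 <;> simp [← h4]
      have h4 : ({Q.x g, Q.y g} : Finset B).card ≤ 2 := Finset.card_le_two
      omega
    -- first face
    obtain ⟨e1, he1', he1u, he1h⟩ := second hE hg hE2 hgu hgh
    obtain ⟨h1g, he1⟩ := Finset.mem_erase.1 he1'
    obtain ⟨f1, hhf1, he1f⟩ := other_side hE he1 hE2 he1h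
    obtain ⟨w1, huw1, he1w⟩ := other_end hE he1 hE2 he1u
    -- second face
    obtain ⟨e2, he2', he2u, he2f1⟩ := second hE he1 hE2 he1u he1f
    obtain ⟨h21, he2⟩ := Finset.mem_erase.1 he2'
    obtain ⟨f2, hf12, he2f2⟩ := other_side hE he2 hE2 he2f1
    obtain ⟨w2, huw2, he2w⟩ := other_end hE he2 hE2 he2u
    have R1 := single_reg hE he1 huw1 hhf1 he1u he1w he1h he1f
    have R2 := single_reg hE he2 huw2 hf12 he2u he2w he2f1 he2f2
    have b1 : ∀ c, Q.bd {e1} u c = if c = h ∨ c = f1 then 1 else 0 := by
      intro c; rw [R1.bd]; simp [del]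
    have b2 : ∀ c, Q.bd {e2} u c = if c = f1 ∨ c = f2 then 1 else 0 := by
      intro c; rw [R2.bd]; simp [del]
    have two1 : (1 : ZMod 2) + 1 = 0 := by decide
    have h2g : e2 ≠ g := by
      intro h1
      subst h1
      have h3 : f2 = h := by
        rcases atB_two hf12 he2f1 he2f2 hgh with h4 | h4
        · exact absurd h4 hhf1
        · exact h4.symm
      have h4 : (nb Q E u).card ≤ ({h, f1} : Finset B).card := by
        apply nb_card_le (S := {e1, e2})
        · apply all_of_row hE (e := e1) _ (Finset.mem_insert_self _ _) he1u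
          · intro c
            have h5 : ({e1, e2} : Finset ι) = {e1} ∪ {e2} := rfl
            rw [h5, bd_union_disj (Finset.disjoint_singleton.2 h21.symm), b1, b2, h3]
            by_cases q1 : c = h
            · subst q1; simp [two1]
            · by_cases q2 : c = f1
              · subst q2; simp [two1]
              · simp [q1, q2]
          · intro i hi
            rcases Finset.mem_insert.1 hi with h5 | h5
            · rw [h5]; exact he1
            · rw [Finset.mem_singleton] at h5; rw [h5]; exact he2
        · intro i hi c hic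
          rcases Finset.mem_insert.1 hi with h5 | h5
          · rw [h5] at hic
            rcases atB_two hhf1 he1h he1f hic with h6 | h6 <;> simp [h6]
          · rw [Finset.mem_singleton] at h5
            rw [h5] at hic
            rcases atB_two hf12 he2f1 he2f2 hic with h6 | h6
            · simp [h6]
            · simp [h6, h3]
      have h5 : ({h, f1} : Finset B).card ≤ 2 := Finset.card_le_two
      omega
    have hf2h : f2 ≠ h := by
      intro h1
      rw [h1] at he2f2
      have h3 : Q.cnt {g, e1, e2} u h ≤ 2 := by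
        apply cnt_le_two hE
        intro i hi
        simp only [Finset.mem_insert, Finset.mem_singleton] at hi
        rcases hi with rfl | rfl | rfl <;> assumption
      have h4 : Q.cnt {g, e1, e2} u h = Q.inc g u h + (Q.inc e1 u h + Q.inc e2 u h) := by
        unfold QS.cnt
        rw [Finset.sum_insert (by simp [Ne.symm h1g, Ne.symm h2g]), Finset.sum_insert (by simp [Ne.symm h21]),
          Finset.sum_singleton]
      have h5 : Q.inc g u h ≠ 0 := fun h6 => (Q.inc_eq_zero _ _ _).1 h6 ⟨hgu, hgh⟩
      have h6 : Q.inc e1 u h ≠ 0 := fun h6 => (Q.inc_eq_zero _ _ _).1 h6 ⟨he1u, he1h⟩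
      have h7 : Q.inc e2 u h ≠ 0 := fun h6 => (Q.inc_eq_zero _ _ _).1 h6 ⟨he2u, he2f2⟩
      omega
    -- the segment
    have hD2 : ({e1, e2} : Finset ι).card = 2 := Finset.card_pair h21.symm
    have hDm : ∀ i, i ∈ ({e1, e2} : Finset ι) ↔ i = e1 ∨ i = e2 := by
      intro i; simp
    have hDbd : ∀ c, Q.bd {e1, e2} u c = if c = h ∨ c = f2 then 1 else 0 := by
      intro c
      have h5 : ({e1, e2} : Finset ι) = {e1} ∪ {e2} := rfl
      rw [h5, bd_union_disj (Finset.disjoint_singleton.2 h21.symm), b1, b2]
      by_cases q1 : c = h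
      · subst q1; simp [hhf1, Ne.symm hf2h]
      · by_cases q2 : c = f1
        · subst q2; simp [two1, q1, hf12]
        · by_cases q3 : c = f2
          · subst q3; simp [q1, q2]
          · simp [q1, q2, q3]
    have s : Seg Q E {e1, e2} u h f2 g :=
      { sph := hE
        sub := by
          intro i hi
          rcases (hDm i).1 hi with h1 | h1
          · rw [h1]; exact he1
          · rw [h1]; exact he2
        atu := by
          intro i hi
          rcases (hDm i).1 hi with h1 | h1
          · rw [h1]; exact he1u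
          · rw [h1]; exact he2u
        gE := hg, gu := hgu, gh := hgh
        gD := by
          intro h1
          rcases (hDm g).1 h1 with h3 | h3
          · exact h1g h3.symm
          · exact h2g h3.symm
        bd := hDbd
        hf := Ne.symm hf2h }
    have hDf1 : ∀ i ∈ ({e1, e2} : Finset ι), Q.atB i f1 := by
      intro i hi
      rcases (hDm i).1 hi with h1 | h1
      · rw [h1]; exact he1f
      · rw [h1]; exact he2f1
    -- the neighbours in the new systems
    have hnb : ∀ c, Adj (Q.ren f2 h) (E \ {e1, e2}) u c ↔ c ∈ ((nb Q E u).erase f1).erase f2 := by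
      intro c
      rw [nb_del s, Finset.mem_erase, Finset.mem_erase, mem_nb]
      constructor
      · rintro (h1 | ⟨h1, h2, h3, h4⟩)
        · rw [h1]; exact ⟨Ne.symm hf2h, hhf1, hs.adj⟩
        · refine ⟨h3, ?_, h1⟩
          rintro rfl
          exact cnt_pos_of_mem (i := e1) ((hDm e1).2 (Or.inl rfl)) he1u he1f h4
      · rintro ⟨h1, h2, h3⟩
        by_cases h4 : c = h
        · exact Or.inl h4
        · right
          refine ⟨h3, h4, h1, ?_⟩
          rw [Q.cnt_eq_zero]
          rintro i hi ⟨_, h6⟩
          rcases (hDm i).1 hi with h7 | h7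
          · rw [h7] at h6
            rcases atB_two hhf1 he1h he1f h6 with h8 | h8
            · exact h4 h8
            · exact h2 h8
          · rw [h7] at h6
            rcases atB_two hf12 he2f1 he2f2 h6 with h8 | h8
            · exact h2 h8
            · exact h1 h8
    have hnbc : (((nb Q E u).erase f1).erase f2).card = 2 * m := by
      have a1 : f1 ∈ nb Q E u := mem_nb.2 ⟨e1, he1, he1u, he1f⟩
      have a2 : f2 ∈ (nb Q E u).erase f1 :=
        Finset.mem_erase.2 ⟨Ne.symm hf12, mem_nb.2 ⟨e2, he2, he2u, he2f2⟩⟩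
      rw [Finset.card_erase_of_mem a2, Finset.card_erase_of_mem a1]
      omega
    -- no face at u with the sides h f2
    have hno : ¬ ∃ i ∈ E, Q.atA i u ∧ Q.atB i h ∧ Q.atB i f2 := by
      rintro ⟨i, hi, hiu, hih, hif⟩
      have n1 : i ≠ e1 := by
        rintro rfl
        rcases atB_two hhf1 he1h he1f hif with h8 | h8
        · exact hf2h h8
        · exact hf12 h8.symm
      have n2 : i ≠ e2 := by
        rintro rfl
        rcases atB_two hf12 he2f1 he2f2 hih with h8 | h8
        · exact hhf1 h8
        · exact hf2h h8.symm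
      have n3 : i = g := by
        by_contra h1
        have h3 : Q.cnt {i} u h = 0 := by
          apply s.at_uh
          · rw [Finset.singleton_subset_iff]; exact hi
          · rw [Finset.mem_singleton]; exact Ne.symm h1
          · rw [Finset.disjoint_singleton_left, hDm]
            rintro (h4 | h4)
            · exact n1 h4
            · exact n2 h4
        exact cnt_pos_of_mem (Finset.mem_singleton_self i) hiu hih h3
      subst n3
      obtain ⟨w, huw, hiw⟩ := other_end hE hi hE2 hiu
      have R3 := single_reg hE hi huw (Ne.symm hf2h) hiu hiw hih hif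
      have h4 : (nb Q E u).card ≤ ({h, f1, f2} : Finset B).card := by
        apply nb_card_le (S := {i} ∪ {e1, e2})
        · apply all_of_row hE (e := i) _ (Finset.mem_union_left _ (Finset.mem_singleton_self _)) hiu
          · intro c
            rw [bd_union_disj, R3.bd, hDbd]
            · by_cases q1 : c = h ∨ c = f2
              · simp [del, q1, two1]
              · simp [del, q1]
            · rw [Finset.disjoint_singleton_left]; exact s.gD
          · intro j hj
            rcases Finset.mem_union.1 hj with h5 | h5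
            · rw [Finset.mem_singleton] at h5; rw [h5]; exact hi
            · exact s.sub h5
        · intro j hj c hjc
          rcases Finset.mem_union.1 hj with h5 | h5
          · rw [Finset.mem_singleton] at h5
            rw [h5] at hjc
            rcases atB_two (Ne.symm hf2h) hih hif hjc with h6 | h6 <;> simp [h6]
          · rcases (hDm j).1 h5 with h7 | h7
            · rw [h7] at hjc
              rcases atB_two hhf1 he1h he1f hjc with h6 | h6 <;> simp [h6]
            · rw [h7] at hjc
              rcases atB_two hf12 he2f1 he2f2 hjc with h6 | h6 <;> simp [h6]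
      have h5 : ({h, f1, f2} : Finset B).card ≤ 3 := Finset.card_le_three
      omega
    have m1 : e1 ∈ ({e1, e2} : Finset ι) := (hDm e1).2 (Or.inl rfl)
    have m2 : e2 ∈ ({e1, e2} : Finset ι) := (hDm e2).2 (Or.inr rfl)
    by_cases hw : w1 = w2
    · -- delete both faces
      subst hw
      have RD : IsReg Q {e1, e2} u w1 h f2 := by
        refine ⟨huw1, Ne.symm hf2h, ?_⟩
        intro a c
        have h5 : ({e1, e2} : Finset ι) = {e1} ∪ {e2} := rfl
        rw [h5, bd_union_disj (Finset.disjoint_singleton.2 h21.symm), R1.bd, R2.bd]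
        unfold del
        by_cases q0 : a = u ∨ a = w1
        · by_cases q1 : c = h
          · subst q1; simp [q0, hhf1, Ne.symm hf2h]
          · by_cases q2 : c = f1
            · subst q2; simp [q0, two1, q1, hf12]
            · by_cases q3 : c = f2
              · subst q3; simp [q0, q1, q2]
              · simp [q1, q2, q3]
        · simp [q0]
      have hDw : ∀ i ∈ ({e1, e2} : Finset ι), Q.atA i w1 := by
        intro i hi
        rcases (hDm i).1 hi with h1 | h1
        · rw [h1]; exact he1w
        · rw [h1]; exact he2w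
      have hD2' : ∀ i ∈ ({e1, e2} : Finset ι), ∀ a, Q.atA i a → a = u ∨ a = w1 :=
        fun i hi a ha => atA_two huw1 (s.atu i hi) (hDw i hi) ha
      have hbl : ∀ a, a ≠ u → a ≠ w1 → Q.cnt (E \ {e1, e2}) a h = 0 ∨
          Q.cnt (E \ {e1, e2}) a f2 = 0 := by
        intro a ha1 ha2
        by_contra h1
        push Not at h1
        have h3 : Adj Q E a h := by
          rw [adj_iff]
          have := Q.cnt_mono (Finset.sdiff_subset : E \ {e1, e2} ⊆ E) a h
          omega
        have h4 : Adj Q E a f2 := by
          rw [adj_iff]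
          have := Q.cnt_mono (Finset.sdiff_subset : E \ {e1, e2} ⊆ E) a f2
          omega
        rcases s.common hcl ha1 h3 h4 with h5 | h5
        · exact hno h5
        · rcases hD2' e1 m1 a (h5 e1 m1) with h6 | h6
          · exact ha1 h6
          · exact ha2 h6
      have hs' := setg_del hs s RD hDw hD2' hbl
      have hcl' := clean_del s hcl
      have hwU : w1 ∉ U := by
        intro h1
        exact hf2h (hs.disj w1 h1 f2 ⟨e2, he2, he2w, he2f2⟩ ⟨e2, he2, he2u, he2f2⟩)
      have hcor : ∃ i ∈ E \ {e1, e2}, Q.atA i w1 ∧ Q.atB i h :=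
        reg_corner (compl_reg hE s.sub RD) (Or.inr rfl) (Or.inl rfl)
      have hG := ih A B (Q.ren f2 h) (E \ {e1, e2}) u h U (insert w1 M) g hs' hk
        (Finset.mem_sdiff.2 ⟨hg, s.gD⟩) hgu ((ren_atB_hub s.hf g).2 (Or.inl hgh)) hcl'
        (by
          intro a ha
          have hw1 : Adj (Q.ren f2 h) (E \ {e1, e2}) w1 h := by
            obtain ⟨i, hi, hia, hib⟩ := hcor
            exact ⟨i, hi, hia, (ren_atB_hub s.hf i).2 (Or.inl hib)⟩
          rcases Finset.mem_insert.1 ha with h1 | h1
          · rw [h1]; exact hw1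
          · obtain ⟨i, hi, hia, hib⟩ := hM a h1
            by_cases hiD : i ∈ ({e1, e2} : Finset ι)
            · rcases hD2' i hiD a hia with h3 | h3
              · rw [h3] at h1; exact absurd h1 huM
              · rw [h3]; exact hw1
            · exact ⟨i, Finset.mem_sdiff.2 ⟨hi, hiD⟩, hia, (ren_atB_hub s.hf i).2 (Or.inl hib)⟩)
        (by
          intro h1
          rcases Finset.mem_insert.1 h1 with h3 | h3
          · exact huw1 h3
          · exact huM h3)
        (by
          intro a ha
          rcases Finset.mem_insert.1 ha with h3 | h3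
          · rw [h3]; exact hwU
          · exact hMU a h3)
        (by
          rw [← hnbc]
          congr 1
          ext c
          rw [mem_nb]; exact hnb c)
      refine lift_del s hDw hG ?_
      rw [hD2]
      by_cases hwM : w1 ∈ M
      · rw [Finset.insert_eq_of_mem hwM]; omega
      · rw [Finset.card_insert_of_notMem hwM]; exact hT _
    · -- split
      have hnc : ∀ a, a ≠ u → Q.cnt E a h = 0 ∨ Q.cnt E a f2 = 0 := by
        intro a ha1
        by_contra h1
        push Not at h1
        rcases s.common hcl ha1 (adj_iff.2 h1.1) (adj_iff.2 h1.2) with h5 | h5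
        · exact hno h5
        · have q1 : a = w1 := by
            rcases atA_two huw1 he1u he1w (h5 e1 m1) with h6 | h6
            · exact absurd h6 ha1
            · exact h6
          have q2 : a = w2 := by
            rcases atA_two huw2 he2u he2w (h5 e2 m2) with h6 | h6
            · exact absurd h6 ha1
            · exact h6
          exact hw (q1.symm.trans q2)
      have hs' := setg_split hs s hnc
      have hcl' := clean_split s hcl
      have hG := ih (Option A) B (Q.split u {e1, e2} f2 h) E (some u) h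
        (U.map Function.Embedding.some) (M.map Function.Embedding.some) g hs'
        (by rw [Finset.card_map]; exact hk) hg ((split_atA_u g).2 ⟨s.gD, hgu⟩)
        ((ren_atB_hub s.hf g).2 (Or.inl hgh)) hcl'
        (by
          intro a' ha'
          obtain ⟨a, ha, rfl⟩ := Finset.mem_map.1 ha'
          simp only [Function.Embedding.some_apply]
          have hau : a ≠ u := by rintro rfl; exact huM ha
          obtain ⟨i, hi, hia, hib⟩ := hM a ha
          exact ⟨i, hi, (split_atA_other hau i).2 hia, (ren_atB_hub s.hf i).2 (Or.inl hib)⟩)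
        (by
          intro h1
          obtain ⟨a, ha, h3⟩ := Finset.mem_map.1 h1
          simp only [Function.Embedding.some_apply, Option.some.injEq] at h3
          rw [h3] at ha
          exact huM ha)
        (by
          intro a' ha' h1
          obtain ⟨a, ha, rfl⟩ := Finset.mem_map.1 ha'
          obtain ⟨v, hv, h3⟩ := Finset.mem_map.1 h1
          simp only [Function.Embedding.some_apply, Option.some.injEq] at h3
          rw [h3] at hv
          exact hMU a ha hv)
        (by
          rw [← hnbc]
          congr 1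
          ext c
          rw [mem_nb, adj_split_u]; exact hnb c)
      rw [Finset.card_map] at hG
      exact lift_split s hDf1 (Ne.symm hhf1) hG

end Helper83.PY
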