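import Pool.Agent.Helper83.PY.Defs3
import Pool.Agent.Helper83.PY.Tabs

/-!
PY piece P5A: reduction (A), identification of the two sides `b b'` of a side region.

`K` side region (ends u z, hubs b b', no face at h).  New sphere: `E \ K` with `b' -> b`, i.e.
`(Q.ren b' b)` on `E \ K`, by `block_sph` for the region `E \ K` (`compl_reg`; condition = hK.out).
* `E \ K` contains all faces at `h` (both faces at (u,h), so 2 <= |E \ K|; they are different since
  |E| >= 2, see `second`), and all faces at every `v ∈ U` (v <> z: z is adjacent to b, u is adjacent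
  to b, disj would give b = h, but b <> h because K has a face at b; row v of K is zero, linkA).
* NoTypeI for the new system: z' adj h, z' adj f, u adj f in the new system; f <> b (then f <> b'
  too): old adjacencies, old face, it is at h, so in E \ K, sides unchanged.  f = b: z' adj b or b' in
  the old one, u adj both; old face (u,z';h,b or b').
* disj: v adj f and u adj f in the new system; f = b would give v adj b or b' in the old one, so
  b = h or b' = h, impossible.
* LIFT of a cover (SA,SB) of the new system (b' ∉ SB wlog, erase it): if b ∈ SB: take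
  SB ∪ {b'} and the `vz` cover of the swapped table (both b b' in it, cost m+3 <= 3), intersection
  >= 2.  Otherwise take the `no` cover (cost m <= 0).  Erase h, u, U from the cover of K (no face of
  K is at h or at v ∈ U; the table covers avoid u and z anyway).
Note the tables are those of `Q.swap` (ends b b' : B, hubs u z : A).
-/

open Finset

set_option linter.unusedSectionVars false
set_option linter.unusedSimpArgs false
set_option linter.unusedVariables false

namespace Helper83.PY

variable {ι : Type} [DecidableEq ι]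

section
variable {A B : Type} [DecidableEq A] [DecidableEq B] [Fintype A] [Fintype B]
variable {Q : QS ι A B} {E K : Finset ι} {u z : A} {h b b' : B} {U : Finset A}

theorem side_adj (hK : Side Q E K u z b b' h) {a : A} {c : B} (ha : a = u ∨ a = z)
    (hc : c = b ∨ c = b') : Adj Q E a c := by
  obtain ⟨i, hi, h1, h2⟩ := reg_corner hK.reg ha hc
  exact ⟨i, hK.sub hi, h1, h2⟩

theorem side_ne (hK : Side Q E K u z b b' h) : b ≠ h ∧ b' ≠ h := by
  obtain ⟨i, hi, h1, h2⟩ := reg_corner hK.reg (Or.inl rfl : u = u ∨ u = z)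
    (Or.inl rfl : b = b ∨ b = b')
  obtain ⟨j, hj, h3, h4⟩ := reg_corner hK.reg (Or.inl rfl : u = u ∨ u = z)
    (Or.inr rfl : b' = b ∨ b' = b')
  exact ⟨fun e => hK.noh i hi (by rw [← e]; exact h2), fun e => hK.noh j hj (by rw [← e]; exact h4)⟩

/-- the faces at the hub are outside the side region -/
theorem side_out (hK : Side Q E K u z b b' h) {i : ι} (hi : i ∈ E) (hih : Q.atB i h) :
    i ∈ E \ K := Finset.mem_sdiff.2 ⟨hi, fun h1 => hK.noh i h1 hih⟩

/-- no face of a side region is at a forbidden outer vertex -/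
theorem side_noU (hs : Setg Q E u h U) (hK : Side Q E K u z b b' h) :
    ∀ v ∈ U, ∀ i ∈ K, ¬ Q.atA i v := by
  intro v hv
  have hvu : v ≠ u := fun e => hs.uU (by rw [← e]; exact hv)
  have hvz : v ≠ z := by
    intro e
    exact (side_ne hK).1 (hs.disj v hv b (side_adj hK (Or.inr e) (Or.inl rfl))
      (side_adj hK (Or.inl rfl) (Or.inl rfl)))
  rcases hs.sph.linkA v K hK.sub (fun c => by rw [hK.reg.bd]; exact del_A hvu hvz c) with h1 | h1
  · exfalso
    obtain ⟨i, hi, hiv, hih⟩ := hs.outer v hv
    exact hK.noh i (h1 i hi hiv) hih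
  · exact h1

/-- there are at least two faces -/
theorem side_two (hs : Setg Q E u h U) (hK : Side Q E K u z b b' h) : 2 ≤ (E \ K).card := by
  obtain ⟨i, hi, h1, h2⟩ := reg_corner hK.reg (Or.inl rfl : u = u ∨ u = z)
    (Or.inl rfl : b = b ∨ b = b')
  obtain ⟨e, he, heu, heh⟩ := hs.adj
  have hie : i ≠ e := fun h3 => hK.noh i hi (by rw [h3]; exact heh)
  have hE2 : 2 ≤ E.card := Finset.one_lt_card.2 ⟨i, hK.sub hi, e, he, hie⟩
  obtain ⟨j, hj, hju, hjh⟩ := second hs.sph he hE2 heu heh
  rw [Finset.mem_erase] at hj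
  exact Finset.one_lt_card.2 ⟨j, side_out hK hj.2 hjh, e, side_out hK he heh, hj.1⟩

theorem side_card (hK : Side Q E K u z b b' h) : (E \ K).card + K.card = E.card ∧ 1 ≤ K.card := by
  obtain ⟨i, hi, h1, h2⟩ := reg_corner hK.reg (Or.inl rfl : u = u ∨ u = z)
    (Or.inl rfl : b = b ∨ b = b')
  exact ⟨Finset.card_sdiff_add_card_eq_card hK.sub, Finset.card_pos.2 ⟨i, hi⟩⟩

/-- glue a cover of the outside and a cover of a side region -/
theorem side_glue {κ : ℕ} (hKE : K ⊆ E) (noh : ∀ i ∈ K, ¬ Q.atB i h)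
    (noU : ∀ v ∈ U, ∀ i ∈ K, ¬ Q.atA i v) {SA SA' : Finset A} {SB SB' : Finset B}
    (hu : u ∉ SA) (hu' : u ∉ SA') (hU : ∀ v ∈ U, v ∉ SA) (hh : h ∉ SB)
    (hit : Hit Q (E \ K) SA SB) (hit' : Hit Q K SA' SB')
    (hc : 3 * ((SA ∪ SA').card + (SB ∪ SB').card) ≤ E.card + κ) : GoodM Q E u h U ∅ κ := by
  refine ⟨SA ∪ SA'.filter (fun a => a ∉ U), SB ∪ SB'.erase h, Finset.empty_subset _, ?_, ?_, ?_,
    ?_, ?_⟩
  · rw [Finset.mem_union, Finset.mem_filter]
    rintro (h1 | h1)
    · exact hu h1
    · exact hu' h1.1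
  · intro v hv
    rw [Finset.mem_union, Finset.mem_filter]
    rintro (h1 | h1)
    · exact hU v hv h1
    · exact h1.2 hv
  · rw [Finset.mem_union, Finset.mem_erase]
    rintro (h1 | h1)
    · exact hh h1
    · exact h1.1 rfl
  · intro i hi
    by_cases hiK : i ∈ K
    · rcases hit' i hiK with h1 | h1 | h1 | h1
      · left
        exact Finset.mem_union_right _ (Finset.mem_filter.2
          ⟨h1, fun h2 => noU _ h2 i hiK (Or.inl rfl)⟩)
      · right; left
        exact Finset.mem_union_right _ (Finset.mem_filter.2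
          ⟨h1, fun h2 => noU _ h2 i hiK (Or.inr rfl)⟩)
      · right; right; left
        exact Finset.mem_union_right _ (Finset.mem_erase.2
          ⟨fun h2 => noh i hiK (Or.inl h2), h1⟩)
      · right; right; right
        exact Finset.mem_union_right _ (Finset.mem_erase.2
          ⟨fun h2 => noh i hiK (Or.inr h2), h1⟩)
    · exact hit.mono Finset.subset_union_left Finset.subset_union_left i
        (Finset.mem_sdiff.2 ⟨hi, hiK⟩)
  · have h1 : (SA ∪ SA'.filter (fun a => a ∉ U)).card ≤ (SA ∪ SA').card :=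
      Finset.card_le_card (Finset.union_subset_union_right (Finset.filter_subset _ _))
    have h2 : (SB ∪ SB'.erase h).card ≤ (SB ∪ SB').card :=
      Finset.card_le_card (Finset.union_subset_union_right (Finset.erase_subset _ _))
    omega

end

theorem redA {A B : Type} [DecidableEq A] [DecidableEq B] [Fintype A] [Fintype B]
    {Q : QS ι A B} {E K : Finset ι} {u z : A} {h b b' : B} {U : Finset A} {k κ : ℕ}
    (hs : Setg Q E u h U) (hk : U.card ≤ k) (hN : NoTypeI Q E u h)
    (hK : Side Q E K u z b b' h) {m : ℤ} (hm : m ≤ 0)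
    (ht : TE Q.swap K b b' u z m ∨ TO Q.swap K b b' u z m)
    (ih : ∀ n < E.card, FMn ι k κ n) : GoodM Q E u h U ∅ κ := by
  obtain ⟨hbh, hb'h⟩ := side_ne hK
  have hbb := hK.reg.hf
  have hub := side_adj hK (Or.inl rfl : u = u ∨ u = z) (Or.inl rfl : b = b ∨ b = b')
  have hub' := side_adj hK (Or.inl rfl : u = u ∨ u = z) (Or.inr rfl : b' = b ∨ b' = b')
  have hD : E \ K ⊆ E := Finset.sdiff_subset
  have hsph := block_sph hs.sph hD (compl_reg hs.sph hK.sub hK.reg) hK.out
  obtain ⟨hcd, hcK⟩ := side_card hK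
  -- adjacencies of the new system
  have new_h : ∀ a, Adj Q E a h → Adj (Q.ren b' b) (E \ K) a h := by
    rintro a ⟨i, hi, h1, h2⟩
    exact ⟨i, side_out hK hi h2, h1, (ren_atB_other (Ne.symm hbh) (Ne.symm hb'h) i).2 h2⟩
  have old : ∀ a c, c ≠ b → Adj (Q.ren b' b) (E \ K) a c → Adj Q E a c ∧ c ≠ b' := by
    rintro a c hc ⟨i, hi, h1, h2⟩
    have hc' : c ≠ b' := by
      intro e
      rw [e] at h2
      exact ren_atB_f hbb i h2
    exact ⟨⟨i, hD hi, h1, (ren_atB_other hc hc' i).1 h2⟩, hc'⟩
  have oldb : ∀ a, Adj (Q.ren b' b) (E \ K) a b → Adj Q E a b ∨ Adj Q E a b' := by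
    rintro a ⟨i, hi, h1, h2⟩
    rcases (ren_atB_hub hbb i).1 h2 with h3 | h3
    · exact Or.inl ⟨i, hD hi, h1, h3⟩
    · exact Or.inr ⟨i, hD hi, h1, h3⟩
  have hN' : NoTypeI (Q.ren b' b) (E \ K) u h := by
    intro z' f hz' hf a1 a2 a3
    obtain ⟨c1, -⟩ := old z' h (Ne.symm hbh) a1
    by_cases hfb : f = b
    · subst hfb
      rcases oldb z' a2 with h1 | h1
      · obtain ⟨i, hi, i1, i2, i3, i4⟩ := hN z' f hz' hf c1 h1 hub
        exact ⟨i, side_out hK hi i3, i1, i2,
          (ren_atB_other (Ne.symm hbh) (Ne.symm hb'h) i).2 i3, (ren_atB_hub hbb i).2 (Or.inl i4)⟩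
      · obtain ⟨i, hi, i1, i2, i3, i4⟩ := hN z' b' hz' hb'h c1 h1 hub'
        exact ⟨i, side_out hK hi i3, i1, i2,
          (ren_atB_other (Ne.symm hbh) (Ne.symm hb'h) i).2 i3, (ren_atB_hub hbb i).2 (Or.inr i4)⟩
    · obtain ⟨c2, hfb'⟩ := old z' f hfb a2
      obtain ⟨c3, -⟩ := old u f hfb a3
      obtain ⟨i, hi, i1, i2, i3, i4⟩ := hN z' f hz' hf c1 c2 c3
      exact ⟨i, side_out hK hi i3, i1, i2,
        (ren_atB_other (Ne.symm hbh) (Ne.symm hb'h) i).2 i3, (ren_atB_other hfb hfb' i).2 i4⟩
  have hs' : Setg (Q.ren b' b) (E \ K) u h U := by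
    refine ⟨hsph, new_h u hs.adj, hs.uU, fun v hv => new_h v (hs.outer v hv), ?_⟩
    intro v hv c a1 a2
    by_cases hcb : c = b
    · exfalso
      subst hcb
      rcases oldb v a1 with h1 | h1
      · exact hbh (hs.disj v hv c h1 hub)
      · exact hb'h (hs.disj v hv b' h1 hub')
    · exact hs.disj v hv c (old v c hcb a1).1 (old u c hcb a2).1
  obtain ⟨SA, SB, -, g1, g2, g3, g4, g5⟩ := ih (E \ K).card (by omega) A B (Q.ren b' b) (E \ K)
    u h U hs' hk hN' (side_two hs hK) rfl
  have noU := side_noU hs hK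
  by_cases hbS : b ∈ SB
  · -- both sides in the cover
    have hvz : ∃ (SB' : Finset B) (SA' : Finset A), b ∈ SB' ∧ b' ∈ SB' ∧ u ∉ SA' ∧ z ∉ SA' ∧
        Hit Q.swap K SB' SA' ∧ 3 * ((SB'.card + SA'.card : ℕ) : ℤ) ≤ K.card + (m + 3) := by
      rcases ht with t | t
      · exact t.vz
      · exact t.vz
    obtain ⟨SB', SA', k1, k2, k3, k4, k5, k6⟩ := hvz
    have hitK : Hit Q K SA' SB' := by
      intro i hi
      rcases k5 i hi with h1 | h1 | h1 | h1
      · exact Or.inr (Or.inr (Or.inl h1))
      · exact Or.inr (Or.inr (Or.inr h1))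
      · exact Or.inl h1
      · exact Or.inr (Or.inl h1)
    have hitD : Hit Q (E \ K) SA (insert b' (SB.erase b')) := by
      have key : ∀ c : B, (if c = b' then b else c) ∈ SB → c ∈ insert b' (SB.erase b') := by
        intro c hc
        by_cases h1 : c = b'
        · rw [h1]; exact Finset.mem_insert_self _ _
        · rw [if_neg h1] at hc
          exact Finset.mem_insert_of_mem (Finset.mem_erase.2 ⟨h1, hc⟩)
      intro i hi
      rcases g4 i hi with h1 | h1 | h1 | h1
      · exact Or.inl h1
      · exact Or.inr (Or.inl h1)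
      · exact Or.inr (Or.inr (Or.inl (key _ h1)))
      · exact Or.inr (Or.inr (Or.inr (key _ h1)))
    apply side_glue hK.sub hK.noh noU g1 k3 g2 (SB := insert b' (SB.erase b')) (SB' := SB') ?_
      hitD hitK ?_
    · rw [Finset.mem_insert, Finset.mem_erase, not_or]
      exact ⟨Ne.symm hb'h, fun h1 => g3 h1.2⟩
    · have e1 : insert b' (SB.erase b') ∪ SB' = SB.erase b' ∪ SB' := by
        ext c
        simp only [Finset.mem_union, Finset.mem_insert]
        constructor
        · rintro ((h1 | h1) | h1)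
          · right; rw [h1]; exact k2
          · exact Or.inl h1
          · exact Or.inr h1
        · rintro (h1 | h1)
          · exact Or.inl (Or.inr h1)
          · exact Or.inr h1
      rw [e1]
      have e2 := card_union_lt' (S := SB.erase b') (T := SB') (Finset.mem_erase.2 ⟨hbb, hbS⟩) k1
      have e3 := Finset.card_erase_le (a := b') (s := SB)
      have e4 := Finset.card_union_le SA SA'
      push_cast at k6
      omega
  · have hno : ∃ (SB' : Finset B) (SA' : Finset A), u ∉ SA' ∧ z ∉ SA' ∧
        Hit Q.swap K SB' SA' ∧ 3 * ((SB'.card + SA'.card : ℕ) : ℤ) ≤ K.card + m := by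
      rcases ht with t | t
      · exact t.no
      · exact t.no
    obtain ⟨SB', SA', k3, k4, k5, k6⟩ := hno
    have hitK : Hit Q K SA' SB' := by
      intro i hi
      rcases k5 i hi with h1 | h1 | h1 | h1
      · exact Or.inr (Or.inr (Or.inl h1))
      · exact Or.inr (Or.inr (Or.inr h1))
      · exact Or.inl h1
      · exact Or.inr (Or.inl h1)
    have hitD : Hit Q (E \ K) SA (SB.erase b') := hit_ren hbS g4
    apply side_glue hK.sub hK.noh noU g1 k3 g2 (SB := SB.erase b') (SB' := SB') ?_
      hitD hitK ?_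
    · exact fun h1 => g3 (Finset.mem_of_mem_erase h1)
    · have e2 := Finset.card_union_le (SB.erase b') SB'
      have e3 := Finset.card_erase_le (a := b') (s := SB)
      have e4 := Finset.card_union_le SA SA'
      push_cast at k6
      omega

end Helper83.PY
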