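import Pool.Agent.Helper83.PY.Defs3
import Pool.Agent.Helper83.PY.Tabs
import Pool.Agent.Helper83.PY.St.P1
import Pool.Agent.Helper83.PY.St.P2

/-!
PY pieces P5B and P5C: a side block `K` (ends u z, hubs b b', no face at h, `u z` have no common
neighbour inside).

(B) `|K| = 1 mod 3`, `|K| > 1`: new sphere = closure of K (`closure_sph`): `Q.setFace e0 u z b b'` on
`insert e0 (E \ K)`, e0 ∈ K; |E'| = |E| - |K| + 1.  Table `TO Q.swap K b b' u z 2`
(`block_tabx` for `hs.sph.swap`, `swap_reg`): no 2, one end 2, both 5, ff (z) 2.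
Lift: the face e0 = (u,z;b,b') is hit by z, b or b'; take the table cover containing the same
vertex (cost |K| + 2, one vertex shared).

(C) `|K| = 2 mod 3`, `|K| > 2`: new sphere with a new vertex `t = none : Option A`:
`((Q.setFace e0 u z b b').swap.dbl e0 e1).swap` on `insert e1 (insert e0 (E \ K))`, e0 <> e1 in K;
faces e0 = (b,u,b',t), e1 = (b,t,b',z) (in swapped reading: sides u..none, none..z).
|E'| = |E| - |K| + 2.  Table `TO Q.swap K b b' u z 1`: no 1, one end 1, both 4, ff 4.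
Lift (SA : Finset (Option A)): drop `none`; if b ∈ SB: table cover with b (cost |K| + 1, shared);
if b' ∈ SB: the same; otherwise e0 is hit by none (u is forbidden): the cover without `none` costs
3 less, add the `no` table cover (|K| + 1).

In both cases: Setg, NoTypeI are preserved (all faces at h and at v ∈ U are in E \ K; every new
adjacency between old vertices is an old adjacency; a common neighbour of h and f in (C) is not
`none`, whose neighbours are b b' only); 2 <= |E'| : the two faces at (u,h) are in E \ K.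
-/

open Finset

set_option linter.unusedSectionVars false
set_option linter.unusedSimpArgs false
set_option linter.unusedVariables false

namespace Helper83.PY

variable {ι : Type} [DecidableEq ι]

theorem hit_swap' {A B : Type} [DecidableEq A] [DecidableEq B] {Q : QS ι A B} {S : Finset ι}
    {SA : Finset A} {SB : Finset B} (h : Hit Q.swap S SB SA) : Hit Q S SA SB := by
  intro i hi
  rcases h i hi with h1 | h1 | h1 | h1
  · exact Or.inr (Or.inr (Or.inl h1))
  · exact Or.inr (Or.inr (Or.inr h1))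
  · exact Or.inl h1
  · exact Or.inr (Or.inl h1)

section
variable {A B : Type} [DecidableEq A] [DecidableEq B] [Fintype A] [Fintype B]
variable {Q : QS ι A B} {E K : Finset ι} {u z : A} {h b b' : B} {U : Finset A} {κ : ℕ}

theorem sd_adj (hK : Side Q E K u z b b' h) {a : A} {c : B} (ha : a = u ∨ a = z)
    (hc : c = b ∨ c = b') : Adj Q E a c := by
  obtain ⟨i, hi, h1, h2⟩ := reg_corner hK.reg ha hc
  exact ⟨i, hK.sub hi, h1, h2⟩

theorem sd_bh (hK : Side Q E K u z b b' h) : b ≠ h ∧ b' ≠ h := by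
  constructor
  · rintro rfl
    obtain ⟨i, hi, _, h2⟩ := reg_corner hK.reg (Or.inl rfl : u = u ∨ u = z)
      (Or.inl rfl : b = b ∨ b = b')
    exact hK.noh i hi h2
  · rintro rfl
    obtain ⟨i, hi, _, h2⟩ := reg_corner hK.reg (Or.inl rfl : u = u ∨ u = z)
      (Or.inr rfl : b' = b ∨ b' = b')
    exact hK.noh i hi h2

theorem sd_zU (hs : Setg Q E u h U) (hK : Side Q E K u z b b' h) : z ∉ U := by
  intro hz
  exact (sd_bh hK).1 (hs.disj z hz b (sd_adj hK (Or.inr rfl) (Or.inl rfl))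
    (sd_adj hK (Or.inl rfl) (Or.inl rfl)))

theorem sd_noU (hs : Setg Q E u h U) (hK : Side Q E K u z b b' h) {v : A} (hv : v ∈ U) :
    ∀ i ∈ K, ¬ Q.atA i v := by
  have h1 : v ≠ u := by rintro rfl; exact hs.uU hv
  have h2 : v ≠ z := by rintro rfl; exact sd_zU hs hK hv
  rcases hs.sph.linkA v K hK.sub (fun c => by rw [hK.reg.bd]; exact del_A h1 h2 c) with h3 | h3
  · exfalso
    obtain ⟨i, hi, hiv, hih⟩ := hs.outer v hv
    exact hK.noh i (h3 i hi hiv) hih
  · exact h3

/-- a face at `h` is outside the region -/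
theorem sd_out (hK : Side Q E K u z b b' h) {i : ι} (hi : i ∈ E) (hih : Q.atB i h) :
    i ∈ E \ K :=
  Finset.mem_sdiff.2 ⟨hi, fun h1 => hK.noh i h1 hih⟩

/-- glueing a cover of the outside and a cover of the side region -/
theorem sd_glue (hs : Setg Q E u h U) (hK : Side Q E K u z b b' h) {SA TA : Finset A}
    {SB TB : Finset B} (h1 : u ∉ SA) (h2 : ∀ v ∈ U, v ∉ SA) (h3 : h ∉ SB)
    (h4 : Hit Q (E \ K) SA SB) (g1 : u ∉ TA) (g2 : Hit Q K TA TB)
    (hc : 3 * ((SA ∪ (TA \ U)).card + (SB ∪ TB.erase h).card) ≤ E.card + κ) :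
    GoodM Q E u h U ∅ κ := by
  refine ⟨SA ∪ (TA \ U), SB ∪ TB.erase h, Finset.empty_subset _, ?_, ?_, ?_, ?_, hc⟩
  · exact notMem_union' h1 (fun h5 => g1 (Finset.mem_sdiff.1 h5).1)
  · intro v hv
    exact notMem_union' (h2 v hv) (fun h5 => (Finset.mem_sdiff.1 h5).2 hv)
  · exact notMem_union' h3 (Finset.notMem_erase _ _)
  · have g3 : Hit Q K (TA \ U) (TB.erase h) := by
      intro i hi
      have n1 : ∀ v, Q.atA i v → v ∉ U := fun v hv hvU => sd_noU hs hK hvU i hi hv
      have n2 : ∀ c, Q.atB i c → c ≠ h := by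
        intro c h6 h7
        rw [h7] at h6
        exact hK.noh i hi h6
      rcases g2 i hi with h5 | h5 | h5 | h5
      · exact Or.inl (Finset.mem_sdiff.2 ⟨h5, n1 _ (Or.inl rfl)⟩)
      · exact Or.inr (Or.inl (Finset.mem_sdiff.2 ⟨h5, n1 _ (Or.inr rfl)⟩))
      · exact Or.inr (Or.inr (Or.inl (Finset.mem_erase.2 ⟨n2 _ (Or.inl rfl), h5⟩)))
      · exact Or.inr (Or.inr (Or.inr (Finset.mem_erase.2 ⟨n2 _ (Or.inr rfl), h5⟩)))
    have h5 := h4.union g3
    have h6 : (E \ K) ∪ K = E := by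
      rw [Finset.union_comm]; exact Finset.union_sdiff_of_subset hK.sub
    rwa [h6] at h5

theorem sd_glue0 (hs : Setg Q E u h U) (hK : Side Q E K u z b b' h) {SA TA : Finset A}
    {SB TB : Finset B} (h1 : u ∉ SA) (h2 : ∀ v ∈ U, v ∉ SA) (h3 : h ∉ SB)
    (h4 : Hit Q (E \ K) SA SB) (g1 : u ∉ TA) (g2 : Hit Q K TA TB)
    (hc : 3 * (SA.card + SB.card) + 3 * (TA.card + TB.card) ≤ E.card + κ) :
    GoodM Q E u h U ∅ κ := by
  refine sd_glue hs hK h1 h2 h3 h4 g1 g2 ?_
  have := Finset.card_union_le SA (TA \ U)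
  have := Finset.card_union_le SB (TB.erase h)
  have : (TA \ U).card ≤ TA.card := Finset.card_le_card Finset.sdiff_subset
  have : (TB.erase h).card ≤ TB.card := Finset.card_erase_le
  omega

theorem sd_glueA (hs : Setg Q E u h U) (hK : Side Q E K u z b b' h) {SA TA : Finset A}
    {SB TB : Finset B} (h1 : u ∉ SA) (h2 : ∀ v ∈ U, v ∉ SA) (h3 : h ∉ SB)
    (h4 : Hit Q (E \ K) SA SB) (g1 : u ∉ TA) (g2 : Hit Q K TA TB) {a : A} (ha : a ∈ SA)
    (ha' : a ∈ TA) (hc : 3 * (SA.card + SB.card) + 3 * (TA.card + TB.card) ≤ E.card + κ + 3) :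
    GoodM Q E u h U ∅ κ := by
  refine sd_glue hs hK h1 h2 h3 h4 g1 g2 ?_
  have := card_union_lt' ha (Finset.mem_sdiff.2 ⟨ha', fun h5 => h2 a h5 ha⟩)
  have := Finset.card_union_le SB (TB.erase h)
  have : (TA \ U).card ≤ TA.card := Finset.card_le_card Finset.sdiff_subset
  have : (TB.erase h).card ≤ TB.card := Finset.card_erase_le
  omega

theorem sd_glueB (hs : Setg Q E u h U) (hK : Side Q E K u z b b' h) {SA TA : Finset A}
    {SB TB : Finset B} (h1 : u ∉ SA) (h2 : ∀ v ∈ U, v ∉ SA) (h3 : h ∉ SB)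
    (h4 : Hit Q (E \ K) SA SB) (g1 : u ∉ TA) (g2 : Hit Q K TA TB) {c : B} (hcS : c ∈ SB)
    (hcT : c ∈ TB) (hc : 3 * (SA.card + SB.card) + 3 * (TA.card + TB.card) ≤ E.card + κ + 3) :
    GoodM Q E u h U ∅ κ := by
  refine sd_glue hs hK h1 h2 h3 h4 g1 g2 ?_
  have := Finset.card_union_le SA (TA \ U)
  have hch : c ≠ h := by
    intro h5
    rw [h5] at hcS
    exact h3 hcS
  have := card_union_lt' hcS (Finset.mem_erase.2 ⟨hch, hcT⟩)
  have : (TA \ U).card ≤ TA.card := Finset.card_le_card Finset.sdiff_subset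
  have : (TB.erase h).card ≤ TB.card := Finset.card_erase_le
  omega

/-- the table of the side block, in the swapped reading -/
theorem sd_tab (hs : Setg Q E u h U) (hK : Side Q E K u z b b' h) (hbl : Blk Q K u z b b') :
    (K.card % 3 = 0 → TE Q.swap K b b' u z 0) ∧ (K.card % 3 = 1 → TO Q.swap K b b' u z 2) ∧
      (K.card % 3 = 2 → TO Q.swap K b b' u z 1) := by
  refine block_tabx hs.sph.swap hK.sub (swap_reg hK.reg) ?_
  intro c hc1 hc2
  rw [QS.swap_cnt, QS.swap_cnt]
  exact hbl c hc1 hc2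

/-- adjacency after closing the region -/
theorem sf_adj (hK : Side Q E K u z b b' h) {e0 : ι} (he0 : e0 ∈ K) {a : A} {c : B}
    (h1 : Adj (Q.setFace e0 u z b b') (insert e0 (E \ K)) a c) : Adj Q E a c := by
  obtain ⟨i, hi, h2, h3⟩ := h1
  by_cases hie : i = e0
  · subst hie
    rw [setFace_atA_self] at h2
    rw [setFace_atB_self] at h3
    exact sd_adj hK h2 h3
  · rw [setFace_atA_ne hie] at h2
    rw [setFace_atB_ne hie] at h3
    rcases Finset.mem_insert.1 hi with h4 | h4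
    · exact absurd h4 hie
    · exact ⟨i, (Finset.mem_sdiff.1 h4).1, h2, h3⟩

end

theorem redB {A B : Type} [DecidableEq A] [DecidableEq B] [Fintype A] [Fintype B]
    {Q : QS ι A B} {E K : Finset ι} {u z : A} {h b b' : B} {U : Finset A} {k κ : ℕ}
    (hs : Setg Q E u h U) (hk : U.card ≤ k) (hN : NoTypeI Q E u h)
    (hK : Side Q E K u z b b' h) (hbl : Blk Q K u z b b') (hm : K.card % 3 = 1)
    (h1 : 1 < K.card) (ih : ∀ n < E.card, FMn ι k κ n) : GoodM Q E u h U ∅ κ := by
  obtain ⟨e0, he0⟩ := Finset.card_pos.1 (show 0 < K.card by omega)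
  have hnot : e0 ∉ E \ K := fun h2 => (Finset.mem_sdiff.1 h2).2 he0
  have hout : ∀ i ∈ E \ K, i ≠ e0 := fun i hi h2 => hnot (h2 ▸ hi)
  have hcE : (insert e0 (E \ K)).card = E.card - K.card + 1 := by
    rw [Finset.card_insert_of_notMem hnot, Finset.card_sdiff_of_subset hK.sub]
  have hle := Finset.card_le_card hK.sub
  have hup : ∀ a, Adj Q E a h → Adj (Q.setFace e0 u z b b') (insert e0 (E \ K)) a h := by
    rintro a ⟨i, hi, h2, h3⟩
    have h4 := sd_out hK hi h3
    exact ⟨i, Finset.mem_insert_of_mem h4, (setFace_atA_ne (hout i h4) a).2 h2,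
      (setFace_atB_ne (hout i h4) h).2 h3⟩
  have hs' : Setg (Q.setFace e0 u z b b') (insert e0 (E \ K)) u h U :=
    ⟨closure_sph hs.sph hK.sub hK.reg he0, hup u hs.adj, hs.uU, fun v hv => hup v (hs.outer v hv),
      fun v hv c h2 h3 => hs.disj v hv c (sf_adj hK he0 h2) (sf_adj hK he0 h3)⟩
  have hN' : NoTypeI (Q.setFace e0 u z b b') (insert e0 (E \ K)) u h := by
    intro z' f hz' hf h2 h3 h4
    obtain ⟨i, hi, k1, k2, k3, k4⟩ := hN z' f hz' hf (sf_adj hK he0 h2) (sf_adj hK he0 h3)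
      (sf_adj hK he0 h4)
    have h5 := sd_out hK hi k3
    have h6 := hout i h5
    exact ⟨i, Finset.mem_insert_of_mem h5, (setFace_atA_ne h6 _).2 k1,
      (setFace_atA_ne h6 _).2 k2, (setFace_atB_ne h6 _).2 k3, (setFace_atB_ne h6 _).2 k4⟩
  have hc2 : 2 ≤ (insert e0 (E \ K)).card := by
    rw [Finset.card_insert_of_notMem hnot]
    obtain ⟨i, hi, _, h3⟩ := hs.adj
    have : 0 < (E \ K).card := Finset.card_pos.2 ⟨i, sd_out hK hi h3⟩
    omega
  obtain ⟨SA, SB, _, s1, s2, s3, s4, s5⟩ := ih (insert e0 (E \ K)).card (by omega) A B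
    (Q.setFace e0 u z b b') (insert e0 (E \ K)) u h U hs' hk hN' hc2 rfl
  have hit : Hit Q (E \ K) SA SB := by
    intro i hi
    have h2 := s4 i (Finset.mem_insert_of_mem hi)
    simp only [QS.setFace, Function.update_of_ne (hout i hi)] at h2
    exact h2
  have h0 := s4 e0 (Finset.mem_insert_self _ _)
  simp only [QS.setFace, Function.update_self] at h0
  have T := (sd_tab hs hK hbl).2.1 hm
  rcases h0 with h0 | h0 | h0 | h0
  · exact absurd h0 s1
  · obtain ⟨TB, TA, t1, t2, t3, t4⟩ := T.ff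
    refine sd_glueA hs hK s1 s2 s3 hit t1 (hit_swap' t3) h0 t2 ?_
    push_cast at t4
    omega
  · obtain ⟨TB, TA, t0, t1, t2, t3, t4⟩ := T.hv
    refine sd_glueB hs hK s1 s2 s3 hit t1 (hit_swap' t3) h0 t0 ?_
    push_cast at t4
    omega
  · obtain ⟨TB, TA, t0, t1, t2, t3, t4⟩ := T.hz
    refine sd_glueB hs hK s1 s2 s3 hit t1 (hit_swap' t3) h0 t0 ?_
    push_cast at t4
    omega

theorem redC {A B : Type} [DecidableEq A] [DecidableEq B] [Fintype A] [Fintype B]
    {Q : QS ι A B} {E K : Finset ι} {u z : A} {h b b' : B} {U : Finset A} {k κ : ℕ}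
    (hs : Setg Q E u h U) (hk : U.card ≤ k) (hN : NoTypeI Q E u h)
    (hK : Side Q E K u z b b' h) (hbl : Blk Q K u z b b') (hm : K.card % 3 = 2)
    (h1 : 2 < K.card) (ih : ∀ n < E.card, FMn ι k κ n) : GoodM Q E u h U ∅ κ := by
  obtain ⟨e0, e1, he0, he1, hne⟩ := Finset.one_lt_card.1 (show 1 < K.card by omega) |>
    fun ⟨e0, he0, e1, he1, hne⟩ => (⟨e0, e1, he0, he1, hne⟩ : ∃ e0 e1, e0 ∈ K ∧ e1 ∈ K ∧ e0 ≠ e1)
  have hnot : e0 ∉ E \ K := fun h2 => (Finset.mem_sdiff.1 h2).2 he0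
  have hnot1 : e1 ∉ E \ K := fun h2 => (Finset.mem_sdiff.1 h2).2 he1
  have hout : ∀ i ∈ E \ K, i ≠ e0 := fun i hi h2 => hnot (h2 ▸ hi)
  have hout1 : ∀ i ∈ E \ K, i ≠ e1 := fun i hi h2 => hnot1 (h2 ▸ hi)
  have hn1 : e1 ∉ insert e0 (E \ K) := by
    rw [Finset.mem_insert]
    rintro (h2 | h2)
    · exact hne h2.symm
    · exact hnot1 h2
  have hcE : (insert e1 (insert e0 (E \ K))).card = E.card - K.card + 2 := by
    rw [Finset.card_insert_of_notMem hn1, Finset.card_insert_of_notMem hnot,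
      Finset.card_sdiff_of_subset hK.sub]
  have hle := Finset.card_le_card hK.sub
  obtain ⟨Q2, hQ2⟩ : ∃ Q2 : QS ι (Option A) B,
    Q2 = ((Q.setFace e0 u z b b').swap.dbl e0 e1).swap := ⟨_, rfl⟩
  obtain ⟨E2, hE2⟩ : ∃ E2 : Finset ι, E2 = insert e1 (insert e0 (E \ K)) := ⟨_, rfl⟩
  have hsph : IsSph Q2 E2 := by
    rw [hQ2, hE2]
    refine (dbl_sph (closure_sph hs.sph hK.sub hK.reg he0).swap (Finset.mem_insert_self _ _) hn1
      ?_ ?_).swap
    · show Function.update Q.x e0 b e0 ≠ Function.update Q.y e0 b' e0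
      rw [Function.update_self, Function.update_self]
      exact hK.reg.hf
    · show Function.update Q.p e0 u e0 ≠ Function.update Q.q e0 z e0
      rw [Function.update_self, Function.update_self]
      exact hK.reg.vz
  -- the faces
  have fA : ∀ i ∈ E \ K, Q2.p i = some (Q.p i) ∧ Q2.q i = some (Q.q i) ∧ Q2.x i = Q.x i ∧
      Q2.y i = Q.y i := by
    intro i hi
    have n0 := hout i hi
    have n1 := hout1 i hi
    rw [hQ2]
    simp [QS.setFace, QS.dbl, QS.swap, Function.update_of_ne n0, n0, n1]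
  have f0 : Q2.p e0 = some u ∧ Q2.q e0 = none ∧ Q2.x e0 = b ∧ Q2.y e0 = b' := by
    rw [hQ2]
    simp [QS.setFace, QS.dbl, QS.swap, hne]
  have f1 : Q2.p e1 = none ∧ Q2.q e1 = some z ∧ Q2.x e1 = b ∧ Q2.y e1 = b' := by
    rw [hQ2]
    simp [QS.setFace, QS.dbl, QS.swap]
  have outA : ∀ i ∈ E \ K, ∀ a, Q2.atA i (some a) ↔ Q.atA i a := by
    intro i hi a
    obtain ⟨g1, g2, g3, g4⟩ := fA i hi
    unfold QS.atA
    rw [g1, g2, Option.some.injEq, Option.some.injEq]
  have outN : ∀ i ∈ E \ K, ¬ Q2.atA i none := by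
    intro i hi h2
    obtain ⟨g1, g2, g3, g4⟩ := fA i hi
    unfold QS.atA at h2
    rw [g1, g2] at h2
    rcases h2 with h2 | h2 <;> exact absurd h2 (by simp)
  have outB : ∀ i ∈ E \ K, ∀ c, Q2.atB i c ↔ Q.atB i c := by
    intro i hi c
    obtain ⟨g1, g2, g3, g4⟩ := fA i hi
    unfold QS.atB
    rw [g3, g4]
  have inE2 : ∀ i ∈ E2, i = e1 ∨ i = e0 ∨ i ∈ E \ K := by
    intro i hi
    rw [hE2, Finset.mem_insert, Finset.mem_insert] at hi
    exact hi
  have hadj : ∀ a c, Adj Q2 E2 (some a) c → Adj Q E a c := by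
    rintro a c ⟨i, hi, h2, h3⟩
    rcases inE2 i hi with rfl | rfl | h4
    · obtain ⟨g1, g2, g3, g4⟩ := f1
      unfold QS.atA at h2
      unfold QS.atB at h3
      rw [g1, g2] at h2
      rw [g3, g4] at h3
      rcases h2 with h2 | h2
      · exact absurd h2 (by simp)
      · rw [Option.some.injEq] at h2
        exact sd_adj hK (Or.inr h2.symm) (h3.imp Eq.symm Eq.symm)
    · obtain ⟨g1, g2, g3, g4⟩ := f0
      unfold QS.atA at h2
      unfold QS.atB at h3
      rw [g1, g2] at h2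
      rw [g3, g4] at h3
      rcases h2 with h2 | h2
      · rw [Option.some.injEq] at h2
        exact sd_adj hK (Or.inl h2.symm) (h3.imp Eq.symm Eq.symm)
      · exact absurd h2 (by simp)
    · exact ⟨i, (Finset.mem_sdiff.1 h4).1, (outA i h4 a).1 h2, (outB i h4 c).1 h3⟩
  have hnone : ∀ c, Adj Q2 E2 none c → c = b ∨ c = b' := by
    rintro c ⟨i, hi, h2, h3⟩
    rcases inE2 i hi with rfl | rfl | h4
    · obtain ⟨g1, g2, g3, g4⟩ := f1
      unfold QS.atB at h3
      rw [g3, g4] at h3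
      exact h3.imp Eq.symm Eq.symm
    · obtain ⟨g1, g2, g3, g4⟩ := f0
      unfold QS.atB at h3
      rw [g3, g4] at h3
      exact h3.imp Eq.symm Eq.symm
    · exact absurd h2 (outN i h4)
  have hsubE2 : ∀ i ∈ E \ K, i ∈ E2 := by
    intro i hi
    rw [hE2]
    exact Finset.mem_insert_of_mem (Finset.mem_insert_of_mem hi)
  have hup : ∀ a, Adj Q E a h → Adj Q2 E2 (some a) h := by
    rintro a ⟨i, hi, h2, h3⟩
    have h4 := sd_out hK hi h3
    exact ⟨i, hsubE2 i h4, (outA i h4 a).2 h2, (outB i h4 h).2 h3⟩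
  have hinj : Function.Injective (some : A → Option A) := Option.some_injective A
  have hs' : Setg Q2 E2 (some u) h (U.image some) := by
    refine ⟨hsph, hup u hs.adj, ?_, ?_, ?_⟩
    · intro h2
      obtain ⟨v, hv, hv2⟩ := Finset.mem_image.1 h2
      exact hs.uU (hinj hv2 ▸ hv)
    · intro v hv
      obtain ⟨w, hw, rfl⟩ := Finset.mem_image.1 hv
      exact hup w (hs.outer w hw)
    · intro v hv c h2 h3
      obtain ⟨w, hw, rfl⟩ := Finset.mem_image.1 hv
      exact hs.disj w hw c (hadj _ _ h2) (hadj _ _ h3)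
  have hN' : NoTypeI Q2 E2 (some u) h := by
    intro z' f hz' hf h2 h3 h4
    rcases z' with _ | a
    · exfalso
      rcases hnone h h2 with h5 | h5
      · exact (sd_bh hK).1 h5.symm
      · exact (sd_bh hK).2 h5.symm
    · obtain ⟨i, hi, k1, k2, k3, k4⟩ := hN a f (fun h5 => hz' (h5 ▸ rfl)) hf (hadj _ _ h2)
        (hadj _ _ h3) (hadj _ _ h4)
      have h5 := sd_out hK hi k3
      exact ⟨i, hsubE2 i h5, (outA i h5 _).2 k1, (outA i h5 _).2 k2, (outB i h5 _).2 k3,
        (outB i h5 _).2 k4⟩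
  have hcE2 : E2.card = E.card - K.card + 2 := by rw [hE2, hcE]
  obtain ⟨SA2, SB, _, s1, s2, s3, s4, s5⟩ := ih E2.card (by omega) (Option A) B Q2 E2 (some u) h
    (U.image some) hs' (by rw [Finset.card_image_of_injective _ hinj]; exact hk) hN' (by omega) rfl
  obtain ⟨SA, hSA⟩ : ∃ SA : Finset A, SA = Finset.univ.filter (fun a => some a ∈ SA2) := ⟨_, rfl⟩
  have memSA : ∀ a, a ∈ SA ↔ some a ∈ SA2 := by intro a; rw [hSA]; simp
  have hcard : SA.card + (if none ∈ SA2 then 1 else 0) ≤ SA2.card := by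
    have h2 : (SA.image some).card = SA.card := Finset.card_image_of_injective _ hinj
    by_cases h3 : none ∈ SA2
    · rw [if_pos h3, ← h2, ← Finset.card_insert_of_notMem (a := none) (s := SA.image some)
        (by simp)]
      apply Finset.card_le_card
      intro x hx
      rcases Finset.mem_insert.1 hx with rfl | hx
      · exact h3
      · obtain ⟨a, ha, rfl⟩ := Finset.mem_image.1 hx
        exact (memSA a).1 ha
    · rw [if_neg h3, add_zero, ← h2]
      apply Finset.card_le_card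
      intro x hx
      obtain ⟨a, ha, rfl⟩ := Finset.mem_image.1 hx
      exact (memSA a).1 ha
  have s1' : u ∉ SA := fun h2 => s1 ((memSA u).1 h2)
  have s2' : ∀ v ∈ U, v ∉ SA := fun v hv h2 =>
    s2 (some v) (Finset.mem_image_of_mem _ hv) ((memSA v).1 h2)
  have hit : Hit Q (E \ K) SA SB := by
    intro i hi
    have h2 := s4 i (hsubE2 i hi)
    obtain ⟨g1, g2, g3, g4⟩ := fA i hi
    rw [g1, g2, g3, g4] at h2
    rw [memSA, memSA]
    exact h2
  have h0 := s4 e0 (by rw [hE2]; exact Finset.mem_insert_of_mem (Finset.mem_insert_self _ _))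
  obtain ⟨g1, g2, g3, g4⟩ := f0
  rw [g1, g2, g3, g4] at h0
  have T := (sd_tab hs hK hbl).2.2 hm
  rcases h0 with h0 | h0 | h0 | h0
  · exact absurd h0 s1
  · obtain ⟨TB, TA, t1, t2, t3, t4⟩ := T.no
    refine sd_glue0 hs hK s1' s2' s3 hit t1 (hit_swap' t3) ?_
    rw [if_pos h0] at hcard
    push_cast at t4
    omega
  · obtain ⟨TB, TA, t0, t1, t2, t3, t4⟩ := T.hv
    refine sd_glueB hs hK s1' s2' s3 hit t1 (hit_swap' t3) h0 t0 ?_
    push_cast at t4
    omega
  · obtain ⟨TB, TA, t0, t1, t2, t3, t4⟩ := T.hz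
    refine sd_glueB hs hK s1' s2' s3 hit t1 (hit_swap' t3) h0 t0 ?_
    push_cast at t4
    omega

end Helper83.PY
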