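import Pool.Agent.Helper83.PY.Defs3
import Pool.Agent.Helper83.PY.Tabs

/-!
PY piece P5D: an irreducible sphere without type I cycles is clean.

Pair b <> b' of neighbours of u with common neighbour z <> u.  If h ∈ {b,b'}: NoTypeI.  Otherwise the
4-cycle bounds a region without faces at h; take a side region K for the pair (b,b') (some apex y)
with K.card maximal; a further common neighbour outside would give a larger one (reg_split of
E \ K), so `Side`.  Induction on K.card over all side regions: K is (1) one face, (2) a block with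
two faces, or (3) all its faces have the ends u, y: if K is not a block, split it at a common
neighbour c of u,y (swapped reg_split): K1 (b,c), K2 (c,b'), both are again `Side` (c is interior);
(2)+(2), (2)+(1), (1)+(2) are impossible by the tables (comp_OO: TE (-1), TE 0) and (2)+(3): take the
first spoke off K2.
-/

open Finset

set_option linter.unusedSectionVars false
set_option linter.unusedSimpArgs false
set_option linter.unusedVariables false

namespace Helper83.PY

variable {ι : Type} [DecidableEq ι]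

section P5D

variable {A B : Type} [DecidableEq A] [DecidableEq B] [Fintype A] [Fintype B]
    {Q : QS ι A B} {E : Finset ι} {u : A} {h : B}

theorem hubs_comm {K : Finset ι} {v z : A} {b b' : B} (R : IsReg Q K v z b b') :
    IsReg Q K v z b' b :=
  ⟨R.vz, Ne.symm R.hf, fun a c => by rw [R.bd]; exact del_comm_hub _ _ _ _ _ _⟩

/-- adding the boundaries of two regions with a common hub -/
theorem del_add_hub {v z : A} {b c b' : B} (h1 : b ≠ c) (h2 : c ≠ b') (h3 : b ≠ b') (a : A)
    (d : B) : del v z b c a d + del v z c b' a d = del v z b b' a d := by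
  unfold del
  by_cases ha : a = v ∨ a = z
  · simp only [ha, true_and]
    by_cases e1 : d = b
    · subst e1; simp [h1, h3]
    · by_cases e2 : d = c
      · subst e2
        have : (1 : ZMod 2) + 1 = 0 := by decide
        simp [e1, h2, this]
      · by_cases e3 : d = b'
        · subst e3; simp [e1, e2]
        · simp [e1, e2, e3]
  · simp [ha]

theorem Side.comm {K : Finset ι} {y : A} {b b' : B} (S : Side Q E K u y b b' h) :
    Side Q E K u y b' b h :=
  ⟨S.sub, hubs_comm S.reg, S.noh, fun a h1 h2 => (S.out a h1 h2).symm⟩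

/-- the complement inside a region -/
theorem reg_rest {K K1 : Finset ι} {v z : A} {b c b' : B} (R : IsReg Q K v z b b') (hK1 : K1 ⊆ K)
    (R1 : IsReg Q K1 v z b c) (hc : c ≠ b') : IsReg Q (K \ K1) v z c b' := by
  refine ⟨R.vz, hc, fun a d => ?_⟩
  rw [Q.bd_sdiff hK1, R.bd, R1.bd, ← del_add_hub R1.hf hc R.hf a d]
  have : (2 : ZMod 2) = 0 := by decide
  linear_combination (del v z b c a d) * this

/-- a sub-region of a side region at an interior hub is a side region -/
theorem Side.left (hE : IsSph Q E) {K K1 : Finset ι} {y : A} {b b' c : B}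
    (S : Side Q E K u y b b' h) (hK1 : K1 ⊆ K) (R1 : IsReg Q K1 u y b c) (hc : c ≠ b') :
    Side Q E K1 u y b c h := by
  have R2 := reg_rest S.reg hK1 R1 hc
  have hKE := S.sub
  refine ⟨hK1.trans hKE, R1, fun i hi => S.noh i (hK1 hi), ?_⟩
  intro a hau hay
  by_contra hcon
  push Not at hcon
  obtain ⟨c1, c2⟩ := hcon
  obtain ⟨i, hi, hia, hib⟩ := (Q.cnt_ne_zero _ _ _).1 c1
  obtain ⟨j, hj, hja, hjc⟩ := (Q.cnt_ne_zero _ _ _).1 c2
  rw [Finset.mem_sdiff] at hi hj
  -- all faces at `c` are in `K`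
  have hcK : ∀ k ∈ E, Q.atB k c → k ∈ K := by
    rcases hE.linkB c K hKE (fun a' => by
      rw [S.reg.bd]; exact del_B (Ne.symm R1.hf) hc a') with h1 | h1
    · exact h1
    · exfalso
      obtain ⟨k, hk, _, hkc⟩ := reg_corner R1 (Or.inl rfl : u = u ∨ u = y)
        (Or.inr rfl : c = b ∨ c = c)
      exact h1 k (hK1 hk) hkc
  have hjK := hcK j hj.1 hjc
  -- `K \ K1` has no face at `b`
  have hbK2 : ∀ k ∈ K \ K1, ¬ Q.atB k b := by
    rcases hE.linkB b (K \ K1) (Finset.sdiff_subset.trans hKE) (fun a' => by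
      rw [R2.bd]; exact del_B R1.hf S.reg.hf a') with h1 | h1
    · exfalso
      obtain ⟨k, hk, _, hkc⟩ := reg_corner R1 (Or.inl rfl : u = u ∨ u = y)
        (Or.inl rfl : b = b ∨ b = c)
      exact (Finset.mem_sdiff.1 (h1 k (hKE (hK1 hk)) hkc)).2 hk
    · exact h1
  have hiK : i ∉ K := fun h1 => hbK2 i (Finset.mem_sdiff.2 ⟨h1, hi.2⟩) hib
  rcases hE.linkA a K hKE (fun b'' => by rw [S.reg.bd]; exact del_A hau hay b'') with h1 | h1
  · exact hiK (h1 i hi.1 hia)
  · exact h1 j hjK hja

theorem Side.right (hE : IsSph Q E) {K K1 : Finset ι} {y : A} {b b' c : B}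
    (S : Side Q E K u y b b' h) (hK1 : K1 ⊆ K) (R1 : IsReg Q K1 u y c b') (hc : c ≠ b) :
    Side Q E K1 u y c b' h :=
  (Side.left hE S.comm hK1 (hubs_comm R1) hc).comm

/-- a two-face block followed by spokes is reducible -/
theorem no_mix (hE : IsSph Q E) (hA : ∀ (K : Finset ι) (z : A) (b b' : B) (m : ℤ),
      Side Q E K u z b b' h → m ≤ 0 →
      ¬ (TE Q.swap K b b' u z m ∨ TO Q.swap K b b' u z m))
    {K K1 : Finset ι} {y : A} {b b' c : B} (S : Side Q E K u y b b' h) (hK1 : K1 ⊆ K)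
    (R1 : IsReg Q K1 u y b c) (hc : c ≠ b') (t1 : TO Q.swap K1 b c u y 1)
    (hsp : ∀ i ∈ K \ K1, Q.atA i u ∧ Q.atA i y) : False := by
  have R2 := reg_rest S.reg hK1 R1 hc
  have hKE := S.sub
  have huy := S.reg.vz
  obtain ⟨j, hj, hju, hjc⟩ := reg_corner R2 (Or.inl rfl : u = u ∨ u = y)
    (Or.inl rfl : c = c ∨ c = b')
  have hjy := (hsp j hj).2
  have hjK := Finset.mem_sdiff.1 hj
  have h2 : 2 ≤ E.card := by
    obtain ⟨k, hk, _⟩ := reg_corner R1 (Or.inl rfl : u = u ∨ u = y)
      (Or.inl rfl : b = b ∨ b = c)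
    have hkj : k ≠ j := fun h1 => hjK.2 (h1 ▸ hk)
    have h3 : ({k, j} : Finset ι) ⊆ E := by
      intro i hi
      rw [Finset.mem_insert, Finset.mem_singleton] at hi
      rcases hi with rfl | rfl
      · exact hKE (hK1 hk)
      · exact hKE hjK.1
    have h4 := Finset.card_le_card h3
    rw [Finset.card_pair hkj] at h4
    exact h4
  obtain ⟨c2, hcc2, hjc2⟩ := other_side hE (hKE hjK.1) h2 hjc
  -- the single face is a region
  have Rj : IsReg Q {j} u y c c2 := by
    refine ⟨huy, hcc2, fun a d => ?_⟩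
    have e1 := (erase_reg hE (hKE hjK.1) huy hcc2 hju hjy hjc hjc2).bd a d
    have e2 := Q.bd_sdiff (Finset.singleton_subset_iff.2 (hKE hjK.1)) a d
    rw [Finset.sdiff_singleton_eq_erase, hE.bd_all, zero_add] at e2
    rw [← e2]; exact e1
  -- `b ≠ c2`
  have hbK2 : ∀ k ∈ K \ K1, ¬ Q.atB k b := by
    rcases hE.linkB b (K \ K1) (Finset.sdiff_subset.trans hKE) (fun a' => by
      rw [R2.bd]; exact del_B R1.hf S.reg.hf a') with h1 | h1
    · exfalso
      obtain ⟨k, hk, _, hkc⟩ := reg_corner R1 (Or.inl rfl : u = u ∨ u = y)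
        (Or.inl rfl : b = b ∨ b = c)
      exact (Finset.mem_sdiff.1 (h1 k (hKE (hK1 hk)) hkc)).2 hk
    · exact h1
  have hbc2 : b ≠ c2 := by
    rintro rfl
    exact hbK2 j hj hjc2
  have hd : Disjoint K1 {j} := by
    rw [Finset.disjoint_singleton_right]; exact hjK.2
  have hKjK : K1 ∪ {j} ⊆ K := by
    intro i hi
    rcases Finset.mem_union.1 hi with h1 | h1
    · exact hK1 h1
    · rw [Finset.mem_singleton] at h1; rw [h1]; exact hjK.1
  have RK : IsReg Q (K1 ∪ {j}) u y b c2 := by
    refine ⟨huy, hbc2, fun a d => ?_⟩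
    rw [bd_union_disj hd, R1.bd, Rj.bd]
    exact del_add_hub R1.hf hcc2 hbc2 a d
  have hS' : Side Q E (K1 ∪ {j}) u y b c2 h := by
    by_cases h3 : c2 = b'
    · subst h3
      have : K1 ∪ {j} = K := reg_sub_full hE hKE S.reg hKjK (fun a d => RK.bd a d)
      rw [this]; exact S
    · exact Side.left hE S hKjK RK h3
  -- table of the single face
  have tj : TO Q.swap {j} c c2 u y 2 := by
    refine (block_tabx hE.swap (Finset.singleton_subset_iff.2 (hKE hjK.1)) (swap_reg Rj) ?_).2.1
      (by simp)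
    intro d hd1 hd2
    left
    rw [QS.swap_cnt, Q.cnt_eq_zero]
    intro i hi hcon
    rw [Finset.mem_singleton] at hi
    subst hi
    rcases atB_two hcc2 hjc hjc2 hcon.2 with h4 | h4
    · exact hd1 h4
    · exact hd2 h4
  have hK2' : ({j} : Finset ι) = (K1 ∪ {j}) \ K1 := by
    rw [Finset.union_sdiff_cancel_left hd]
  have tt := comp_OO (Q := Q.swap) (K := K1 ∪ {j}) (Finset.subset_union_left) hK2' t1 tj
  exact hA _ y b c2 _ hS' (by norm_num) (Or.inl tt)

/-- the structure of side regions in an irreducible sphere -/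
theorem side_struct (hE : IsSph Q E) (hA : ∀ (K : Finset ι) (z : A) (b b' : B) (m : ℤ),
      Side Q E K u z b b' h → m ≤ 0 →
      ¬ (TE Q.swap K b b' u z m ∨ TO Q.swap K b b' u z m))
    (hB : ∀ (K : Finset ι) (z : A) (b b' : B), Side Q E K u z b b' h → Blk Q K u z b b' →
      K.card % 3 = 1 → K.card ≤ 1)
    (hC : ∀ (K : Finset ι) (z : A) (b b' : B), Side Q E K u z b b' h → Blk Q K u z b b' →
      K.card % 3 = 2 → K.card ≤ 2) :
    ∀ (n : ℕ) (K : Finset ι) (y : A) (b b' : B), K.card = n → Side Q E K u y b b' h →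
      (∀ i ∈ K, Q.atA i u ∧ Q.atA i y) ∨
      (Blk Q K u y b b' ∧ K.card = 2 ∧ TO Q.swap K b b' u y 1) := by
  intro n
  induction n using Nat.strong_induction_on with
  | _ n ih =>
    intro K y b b' hn S
    have hKE := S.sub
    have R' := swap_reg S.reg
    by_cases hbl : Blk Q K u y b b'
    · have tt := block_tabx hE.swap hKE R' (fun c h1 h2 => by
        rw [QS.swap_cnt, QS.swap_cnt]; exact hbl c h1 h2)
      have hmod : K.card % 3 = 0 ∨ K.card % 3 = 1 ∨ K.card % 3 = 2 := by omega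
      rcases hmod with hm | hm | hm
      · exact absurd (Or.inl (tt.1 hm)) (hA K y b b' 0 S le_rfl)
      · left
        have h1 := hB K y b b' S hbl hm
        have h2 : K.card = 1 := by omega
        obtain ⟨e, he⟩ := Finset.card_eq_one.1 h2
        intro i hi
        obtain ⟨k, hk, hku, _⟩ := reg_corner S.reg (Or.inl rfl : u = u ∨ u = y)
          (Or.inl rfl : b = b ∨ b = b')
        obtain ⟨l, hl, hly, _⟩ := reg_corner S.reg (Or.inr rfl : y = u ∨ y = y)
          (Or.inl rfl : b = b ∨ b = b')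
        rw [he, Finset.mem_singleton] at hi hk hl
        subst hi; subst hk; subst hl
        exact ⟨hku, hly⟩
      · right
        have h1 := hC K y b b' S hbl hm
        exact ⟨hbl, by omega, tt.2.2 hm⟩
    · unfold Blk at hbl
      push Not at hbl
      obtain ⟨c, hcb, hcb', hc1, hc2⟩ := hbl
      obtain ⟨K1, hK1, R1', R2'⟩ := reg_split hE.swap hKE R' hcb hcb'
        (by rw [QS.swap_cnt]; exact hc1) (by rw [QS.swap_cnt]; exact hc2)
      have R1 : IsReg Q K1 u y b c := swap_reg R1'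
      have R2 : IsReg Q (K \ K1) u y c b' := swap_reg R2'
      have S1 := Side.left hE S hK1 R1 hcb'
      have S2 := Side.right hE S Finset.sdiff_subset R2 hcb
      have p1 : 0 < K1.card := Finset.card_pos.2 (Finset.nonempty_iff_ne_empty.2 (reg_ne_empty R1))
      have p2 : 0 < (K \ K1).card :=
        Finset.card_pos.2 (Finset.nonempty_iff_ne_empty.2 (reg_ne_empty R2))
      have p3 := Finset.card_sdiff_of_subset hK1
      have p4 := Finset.card_le_card hK1
      have hKK : K \ (K \ K1) = K1 := Finset.sdiff_sdiff_eq_self hK1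
      rcases ih K1.card (by omega) K1 y b c rfl S1 with h1 | ⟨b1, n1, t1⟩ <;>
        rcases ih (K \ K1).card (by omega) (K \ K1) y c b' rfl S2 with h2 | ⟨b2, n2, t2⟩
      · left
        intro i hi
        by_cases h3 : i ∈ K1
        · exact h1 i h3
        · exact h2 i (Finset.mem_sdiff.2 ⟨hi, h3⟩)
      · exfalso
        have t2' : TO Q.swap (K \ K1) b' c u y 1 := by
          have hs := block_tabx hE.swap (Finset.sdiff_subset.trans hKE)
            (swap_reg (hubs_comm R2)) (fun d h1 h2 => by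
              rw [QS.swap_cnt, QS.swap_cnt]; exact b2 d h2 h1)
          exact hs.2.2 (by omega)
        refine no_mix hE hA S.comm (Finset.sdiff_subset : K \ K1 ⊆ K) (hubs_comm R2) hcb t2' ?_
        intro i hi
        rw [hKK] at hi
        exact h1 i hi
      · exfalso
        exact no_mix hE hA S hK1 R1 hcb' t1 h2
      · exfalso
        have tt := comp_OO (Q := Q.swap) hK1 rfl t1 t2
        exact hA K y b b' _ S (by norm_num) (Or.inl tt)

/-- a candidate region -/
theorem side_exists (hE : IsSph Q E) (hadj : Adj Q E u h) {b b' : B} (hbb : b ≠ b') (hbh : b ≠ h)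
    (hbh' : b' ≠ h) {z : A} (hzu : z ≠ u) (h1 : Adj Q E u b) (h2 : Adj Q E u b')
    (h3 : Adj Q E z b) (h4 : Adj Q E z b') : ∃ K y, Side Q E K u y b b' h := by
  classical
  let P : Finset ι → Prop := fun K => (∃ y, IsReg Q K u y b b') ∧ ∀ i ∈ K, ¬ Q.atB i h
  have hPex : ∃ K ∈ E.powerset, P K := by
    have cn : ∀ a d, Adj Q E a d → Q.cnt E a d ≠ 0 := fun a d hh => (Q.cnt_ne_zero _ _ _).2 hh
    obtain ⟨X, hX, hbX⟩ := hE.ml (del u z b b')
      (fun a d h5 => by
        by_contra h6
        have h7 : del u z b b' a d = 1 := by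
          rcases zmod2_cases (del u z b b' a d) with h8 | h8
          · exact absurd h8 h6
          · exact h8
        rcases del_eq_one h7 with ⟨rfl | rfl, rfl | rfl⟩
        · exact cn _ _ h1 h5
        · exact cn _ _ h2 h5
        · exact cn _ _ h3 h5
        · exact cn _ _ h4 h5)
      (fun a => sum_del_row hbb a) (fun d => sum_del_col (Ne.symm hzu) d)
    have RX : IsReg Q X u z b b' := ⟨Ne.symm hzu, hbb, hbX⟩
    rcases hE.linkB h X hX (fun a => by
      rw [hbX]; exact del_B (Ne.symm hbh) (Ne.symm hbh') a) with h5 | h5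
    · refine ⟨E \ X, Finset.mem_powerset.2 Finset.sdiff_subset, ⟨z, compl_reg hE hX RX⟩, ?_⟩
      intro i hi h6
      rw [Finset.mem_sdiff] at hi
      exact hi.2 (h5 i hi.1 h6)
    · exact ⟨X, Finset.mem_powerset.2 hX, ⟨z, RX⟩, h5⟩
  obtain ⟨K0, hK0, hPK0⟩ := hPex
  obtain ⟨K, hKm, hmax⟩ := Finset.exists_max_image (E.powerset.filter P) Finset.card
    ⟨K0, Finset.mem_filter.2 ⟨hK0, hPK0⟩⟩
  rw [Finset.mem_filter, Finset.mem_powerset] at hKm
  obtain ⟨hKE, ⟨y, R⟩, hnoh⟩ := hKm
  refine ⟨K, y, hKE, R, hnoh, ?_⟩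
  intro w hwu hwy
  by_contra hcon
  push Not at hcon
  obtain ⟨c1, c2⟩ := hcon
  have RC := compl_reg hE hKE R
  have hCE : E \ K ⊆ E := Finset.sdiff_subset
  obtain ⟨K1, hK1, R1, R2⟩ := reg_split hE hCE RC hwu hwy c1 c2
  obtain ⟨i0, hi0, hi0u, hi0h⟩ := hadj
  have hi0K : i0 ∉ K := fun h5 => hnoh i0 h5 hi0h
  have hi01 : i0 ∈ K1 := by
    rcases hE.linkA u ((E \ K) \ K1) (Finset.sdiff_subset.trans hCE) (fun d => by
      rw [R2.bd]; exact del_A (Ne.symm hwu) R.vz d) with h5 | h5
    · exfalso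
      obtain ⟨k, hk, hku, _⟩ := reg_corner R1 (Or.inl rfl : u = u ∨ u = w)
        (Or.inl rfl : b = b ∨ b = b')
      exact (Finset.mem_sdiff.1 (h5 k (hCE (hK1 hk)) hku)).2 hk
    · by_contra h6
      exact h5 i0 (Finset.mem_sdiff.2 ⟨Finset.mem_sdiff.2 ⟨hi0, hi0K⟩, h6⟩) hi0u
  have hK1E := hK1.trans hCE
  have hall : ∀ i ∈ E, Q.atB i h → i ∈ K1 := by
    rcases hE.linkB h K1 hK1E (fun a => by
      rw [R1.bd]; exact del_B (Ne.symm hbh) (Ne.symm hbh') a) with h5 | h5
    · exact h5
    · exact absurd hi0h (h5 i0 hi01)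
  have hP : P (E \ K1) := by
    refine ⟨⟨w, compl_reg hE hK1E R1⟩, ?_⟩
    intro i hi h5
    rw [Finset.mem_sdiff] at hi
    exact hi.2 (hall i hi.1 h5)
  have hle := hmax (E \ K1) (Finset.mem_filter.2 ⟨Finset.mem_powerset.2 Finset.sdiff_subset, hP⟩)
  have hlt : K.card < (E \ K1).card := by
    apply Finset.card_lt_card
    rw [Finset.ssubset_iff_of_subset]
    · obtain ⟨k, hk, _⟩ := reg_corner R2 (Or.inl rfl : w = w ∨ w = y)
        (Or.inl rfl : b = b ∨ b = b')
      rw [Finset.mem_sdiff, Finset.mem_sdiff] at hk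
      exact ⟨k, Finset.mem_sdiff.2 ⟨hk.1.1, hk.2⟩, hk.1.2⟩
    · intro i hi
      exact Finset.mem_sdiff.2 ⟨hKE hi, fun h5 => (Finset.mem_sdiff.1 (hK1 h5)).2 hi⟩
  omega

end P5D

theorem clean_of_irred {A B : Type} [DecidableEq A] [DecidableEq B] [Fintype A] [Fintype B]
    {Q : QS ι A B} {E : Finset ι} {u : A} {h : B} {U : Finset A}
    (hs : Setg Q E u h U) (hN : NoTypeI Q E u h) {g : ι} (hg : g ∈ E) (hgh : Q.atB g h)
    (hA : ∀ (K : Finset ι) (z : A) (b b' : B) (m : ℤ), Side Q E K u z b b' h → m ≤ 0 →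
      ¬ (TE Q.swap K b b' u z m ∨ TO Q.swap K b b' u z m))
    (hB : ∀ (K : Finset ι) (z : A) (b b' : B), Side Q E K u z b b' h → Blk Q K u z b b' →
      K.card % 3 = 1 → K.card ≤ 1)
    (hC : ∀ (K : Finset ι) (z : A) (b b' : B), Side Q E K u z b b' h → Blk Q K u z b b' →
      K.card % 3 = 2 → K.card ≤ 2) :
    Clean Q E u g := by
  intro z b b' hzu hbb h1 h2 h3 h4
  have hE := hs.sph
  by_cases hbh : b = h
  · subst hbh
    left
    obtain ⟨i, hi, e1, e2, e3, e4⟩ := hN z b' hzu (Ne.symm hbb) h3 h4 h2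
    exact ⟨i, hi, e1, e3, e4⟩
  by_cases hbh' : b' = h
  · subst hbh'
    left
    obtain ⟨i, hi, e1, e2, e3, e4⟩ := hN z b hzu hbb h4 h3 h1
    exact ⟨i, hi, e1, e4, e3⟩
  obtain ⟨K, y, S⟩ := side_exists hE hs.adj hbb hbh hbh' hzu h1 h2 h3 h4
  rcases side_struct hE hA hB hC K.card K y b b' rfl S with h5 | ⟨hbl, hcard, _⟩
  · right
    have hzy : z = y := by
      by_contra hzy
      have hz0 : ∀ c, Adj Q E z c → Q.cnt (E \ K) z c ≠ 0 := by
        rintro c ⟨i, hi, hiz, hic⟩
        refine (Q.cnt_ne_zero _ _ _).2 ⟨i, Finset.mem_sdiff.2 ⟨hi, fun h6 => ?_⟩, hiz, hic⟩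
        rcases atA_two S.reg.vz (h5 i h6).1 (h5 i h6).2 hiz with h7 | h7
        · exact hzu h7
        · exact hzy h7
      rcases S.out z hzu hzy with h6 | h6
      · exact hz0 b h3 h6
      · exact hz0 b' h4 h6
    subst hzy
    refine ⟨K, S.sub, fun h6 => S.noh g h6 hgh, h5, fun c => ?_⟩
    rw [S.reg.bd]
    unfold del
    simp
  · left
    by_contra hno
    push Not at hno
    have hKE := S.sub
    have h2E : 2 ≤ E.card := by
      rw [← hcard]; exact Finset.card_le_card hKE
    obtain ⟨i1, hi1, hi1u, hi1b⟩ := reg_corner S.reg (Or.inl rfl : u = u ∨ u = y)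
      (Or.inl rfl : b = b ∨ b = b')
    obtain ⟨i3, hi3, hi3y, hi3b⟩ := reg_corner S.reg (Or.inr rfl : y = u ∨ y = y)
      (Or.inl rfl : b = b ∨ b = b')
    obtain ⟨i2, hi2, hi2u, hi2b⟩ := reg_corner S.reg (Or.inl rfl : u = u ∨ u = y)
      (Or.inr rfl : b' = b ∨ b' = b')
    obtain ⟨c1, hbc1, hi1c⟩ := other_side hE (hKE hi1) h2E hi1b
    have hc1b' : c1 ≠ b' := by
      rintro rfl
      exact hno i1 (hKE hi1) hi1u hi1b hi1c
    by_cases h13 : i3 = i1
    · subst h13
      rcases hbl c1 (Ne.symm hbc1) hc1b' with h6 | h6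
      · exact (Q.cnt_ne_zero _ _ _).2 ⟨i3, hi1, hi1u, hi1c⟩ h6
      · exact (Q.cnt_ne_zero _ _ _).2 ⟨i3, hi1, hi3y, hi1c⟩ h6
    · have hK : K = {i1, i3} := by
        symm
        apply Finset.eq_of_subset_of_card_le
        · intro i hi
          rw [Finset.mem_insert, Finset.mem_singleton] at hi
          rcases hi with rfl | rfl
          · exact hi1
          · exact hi3
        · rw [hcard, Finset.card_pair (Ne.symm h13)]
      rw [hK, Finset.mem_insert, Finset.mem_singleton] at hi2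
      rcases hi2 with h6 | h6
      · subst h6
        exact hno i2 (hKE hi1) hi1u hi1b hi2b
      · subst h6
        exact hno i2 (hKE hi3) hi2u hi3b hi2b

end Helper83.PY
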