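import Pool.Agent.Helper83.PY.Defs3
import Pool.Agent.Helper83.PY.St.P4
import Pool.Agent.Helper83.PY.St.P5A
import Pool.Agent.Helper83.PY.St.P5B
import Pool.Agent.Helper83.PY.St.P5D

/-!
PY piece P6: spheres without type I cycles at `u h`.

Strong induction on `n`.  If some side region is reducible: redA / redB / redC.  Otherwise Clean
(clean_of_irred) for a face `g` at (u,h).  `|nb u|` even: Lemma Z with M = ∅.  `|nb u|` odd: e1 = the
face at (u,h) different from g, ends u w1, sides h phi1: delete it: block_sph for E.erase e1, rename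
phi1 -> h (NoTypeI: a common neighbour z <> u of h, phi1 gives a face at (u,h) with the side phi1:
e1, so z = w1, or g, then nb u = {h,phi1} is even).  M = {w1}; Clean survives (segment lemma with
D = {e1}); |nb u| - 1 is even.

Base: `baseT_zero` from Theorem A, `baseT_one` from BStarM (P8).
-/

open Finset

set_option linter.unusedSectionVars false
set_option linter.unusedSimpArgs false
set_option linter.unusedVariables false

namespace Helper83.PY

variable {ι : Type} [DecidableEq ι]

section
variable {A B : Type} [DecidableEq A] [DecidableEq B] [Fintype A] [Fintype B]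
variable {Q : QS ι A B} {E : Finset ι} {u : A} {h : B} {U : Finset A}

/-- the two faces at a pair -/
theorem two_faces (hE : IsSph Q E) {e g : ι} (he : e ∈ E) (hg : g ∈ E) (hge : g ≠ e)
    (hea : Q.atA e u) (heb : Q.atB e h) (hga : Q.atA g u) (hgb : Q.atB g h) {i : ι} (hi : i ∈ E)
    (hia : Q.atA i u) (hib : Q.atB i h) : i = e ∨ i = g := by
  by_contra hcon
  push Not at hcon
  have h1 : ({i, e, g} : Finset ι) ⊆ E := by
    intro j hj
    simp only [Finset.mem_insert, Finset.mem_singleton] at hj
    rcases hj with rfl | rfl | rfl <;> assumption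
  have h2 := Q.cnt_mono h1 u h
  have h3 : Q.cnt {i, e, g} u h = Q.inc i u h + (Q.inc e u h + Q.inc g u h) := by
    unfold QS.cnt
    rw [Finset.sum_insert (by simp [hcon.1, hcon.2]), Finset.sum_insert (by simp [Ne.symm hge]),
      Finset.sum_singleton]
  have p1 : Q.inc i u h ≠ 0 := fun h4 => (Q.inc_eq_zero i u h).1 h4 ⟨hia, hib⟩
  have p2 : Q.inc e u h ≠ 0 := fun h4 => (Q.inc_eq_zero e u h).1 h4 ⟨hea, heb⟩
  have p3 : Q.inc g u h ≠ 0 := fun h4 => (Q.inc_eq_zero g u h).1 h4 ⟨hga, hgb⟩
  rcases hE.two u h with h5 | h5 <;> omega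

end

theorem fm_step {A B : Type} [DecidableEq A] [DecidableEq B] [Fintype A] [Fintype B]
    {Q : QS ι A B} {E : Finset ι} {u : A} {h : B} {U : Finset A} {k κ : ℕ} {T : ℕ → ℕ}
    (hb : BaseT ι k T) (hT : ∀ j, T (j + 1) ≤ T j + 2)
    (h0 : T 0 ≤ κ) (h1 : T 1 ≤ κ + 1)
    (hs : Setg Q E u h U) (hk : U.card ≤ k) (hN : NoTypeI Q E u h) (h2 : 2 ≤ E.card)
    (hcl : ∀ g ∈ E, Q.atB g h → Clean Q E u g) : GoodM Q E u h U ∅ κ := by
  obtain ⟨e, he, heu, heh⟩ := hs.adj
  obtain ⟨g, hg, hgu, hgh⟩ := second hs.sph he h2 heu heh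
  rw [Finset.mem_erase] at hg
  rcases Nat.even_or_odd' (nb Q E u).card with ⟨m, hm | hm⟩
  · -- even
    obtain ⟨SA, SB, g0, g1, g2, g3, g4, g5⟩ := lemmaZ hb hT m A B Q E u h U ∅ g hs hk hg.2 hgu hgh
      (hcl g hg.2 hgh) (fun a ha => absurd ha (Finset.notMem_empty a)) (Finset.notMem_empty u)
      (fun a ha => absurd ha (Finset.notMem_empty a)) hm
    refine ⟨SA, SB, g0, g1, g2, g3, g4, ?_⟩
    rw [Finset.card_empty] at g5
    omega
  · -- odd: delete the face `e`
    obtain ⟨w, huw, hew⟩ := other_end hs.sph he h2 heu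
    obtain ⟨f, hhf, hef⟩ := other_side hs.sph he h2 heh
    have R := erase_reg hs.sph he huw hhf heu hew heh hef
    have hKE : E.erase e ⊆ E := Finset.erase_subset e E
    have huf : Adj Q E u f := ⟨e, he, heu, hef⟩
    have twof := fun {i : ι} => two_faces hs.sph he hg.2 hg.1 heu heh hgu hgh (i := i)
    -- `g` has not the side `f`
    have hgf : ¬ Q.atB g f := by
      intro hgf
      have hx : Q.x g ≠ Q.y g := sides_ne hs.sph hg.2 h2
      have hp : Q.p g ≠ Q.q g := ends_ne hs.sph hg.2 h2
      have hxe : Q.x e ≠ Q.y e := sides_ne hs.sph he h2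
      have hpe : Q.p e ≠ Q.q e := ends_ne hs.sph he h2
      obtain ⟨w', huw', hgw'⟩ := other_end hs.sph hg.2 h2 hgu
      have hbd : ∀ c, Q.bd {g, e} u c = 0 := by
        intro c
        have e1 : Q.bd {g, e} u c = Q.bd {g} u c + Q.bd {e} u c := by
          have : ({g} : Finset ι) ⊆ {g, e} := by
            intro j hj
            rw [Finset.mem_singleton] at hj
            rw [hj]; exact Finset.mem_insert_self _ _
          have h3 := Q.bd_sdiff this u c
          have h4 : ({g, e} : Finset ι) \ {g} = {e} := by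
            ext j
            simp only [Finset.mem_sdiff, Finset.mem_insert, Finset.mem_singleton]
            constructor
            · rintro ⟨h5 | h5, h6⟩
              · exact absurd h5 h6
              · exact h5
            · intro h5
              exact ⟨Or.inr h5, fun h6 => hg.1 (h6.symm.trans h5)⟩
          rw [h4] at h3
          have : (2 : ZMod 2) = 0 := by decide
          rw [h3]
          linear_combination (-(Q.bd {g} u c)) * this
        have key : ∀ {j : ι} {w : A}, Q.p j ≠ Q.q j → Q.x j ≠ Q.y j → Q.atA j u → Q.atB j h →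
            Q.atB j f → Q.bd {j} u c = if c = h ∨ c = f then 1 else 0 := by
          intro j w a1 a2 a3 a4 a5
          rw [bd_single a1 a2]
          unfold del
          have b1 : u = Q.p j ∨ u = Q.q j := by
            rcases a3 with a3 | a3
            · exact Or.inl a3.symm
            · exact Or.inr a3.symm
          have b2 : (c = Q.x j ∨ c = Q.y j) ↔ (c = h ∨ c = f) := by
            rcases a4 with a4 | a4 <;> rcases a5 with a5 | a5
            · exact absurd (a4.symm.trans a5) hhf
            · rw [a4, a5]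
            · rw [a4, a5, or_comm]
            · exact absurd (a4.symm.trans a5) hhf
          simp only [b1, true_and, b2]
        rw [e1, key (w := w') hp hx hgu hgh hgf, key (w := w) hpe hxe heu heh hef]
        exact CharTwo.add_self_eq_zero _
      have hsub : ({g, e} : Finset ι) ⊆ E := by
        intro j hj
        simp only [Finset.mem_insert, Finset.mem_singleton] at hj
        rcases hj with rfl | rfl
        · exact hg.2
        · exact he
      rcases hs.sph.linkA u {g, e} hsub hbd with h3 | h3
      · have h4 : nb Q E u = {h, f} := by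
          ext c
          rw [mem_nb, Finset.mem_insert, Finset.mem_singleton]
          constructor
          · rintro ⟨j, hj, hju, hjc⟩
            have h5 := h3 j hj hju
            simp only [Finset.mem_insert, Finset.mem_singleton] at h5
            rcases h5 with rfl | rfl
            · exact atB_two hhf hgh hgf hjc
            · exact atB_two hhf heh hef hjc
          · rintro (rfl | rfl)
            · exact hs.adj
            · exact huf
        rw [h4, Finset.card_pair hhf] at hm
        omega
      · exact h3 g (Finset.mem_insert_self _ _) hgu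
    have hbl : ∀ a, a ≠ u → a ≠ w → Q.cnt (E.erase e) a h = 0 ∨ Q.cnt (E.erase e) a f = 0 := by
      intro a hau haw
      by_contra hcon
      push Not at hcon
      obtain ⟨c1, c2⟩ := hcon
      obtain ⟨i, hi, i1, i2⟩ := (Q.cnt_ne_zero _ _ _).1 c1
      obtain ⟨j, hj, j1, j2⟩ := (Q.cnt_ne_zero _ _ _).1 c2
      obtain ⟨l, hl, l1, l2, l3, l4⟩ := hN a f hau (Ne.symm hhf) ⟨i, hKE hi, i1, i2⟩
        ⟨j, hKE hj, j1, j2⟩ huf
      rcases twof hl l1 l3 with rfl | rfl
      · rcases atA_two huw heu hew l2 with h3 | h3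
        · exact hau h3
        · exact haw h3
      · exact hgf l4
    have hsph := block_sph hs.sph hKE R hbl
    have hgK : g ∈ E.erase e := Finset.mem_erase.2 hg
    -- adjacencies
    have new_h : ∀ a, Adj Q E a h → Adj (Q.ren f h) (E.erase e) a h := by
      rintro a ⟨i, hi, h3, h4⟩
      by_cases hie : i = e
      · subst hie
        obtain ⟨j, hj, j1, j2⟩ := second hs.sph hi h2 h3 h4
        exact ⟨j, hj, j1, (ren_atB_hub hhf j).2 (Or.inl j2)⟩
      · exact ⟨i, Finset.mem_erase.2 ⟨hie, hi⟩, h3, (ren_atB_hub hhf i).2 (Or.inl h4)⟩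
    have old : ∀ a c, c ≠ h → Adj (Q.ren f h) (E.erase e) a c → Adj Q E a c ∧ c ≠ f := by
      rintro a c hc ⟨i, hi, h3, h4⟩
      have hc' : c ≠ f := by
        intro e1
        rw [e1] at h4
        exact ren_atB_f hhf i h4
      exact ⟨⟨i, hKE hi, h3, (ren_atB_other hc hc' i).1 h4⟩, hc'⟩
    have oldh : ∀ a, Adj (Q.ren f h) (E.erase e) a h → Adj Q E a h ∨ Adj Q E a f := by
      rintro a ⟨i, hi, h3, h4⟩
      rcases (ren_atB_hub hhf i).1 h4 with h5 | h5
      · exact Or.inl ⟨i, hKE hi, h3, h5⟩
      · exact Or.inr ⟨i, hKE hi, h3, h5⟩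
    have hs' : Setg (Q.ren f h) (E.erase e) u h U := by
      refine ⟨hsph, new_h u hs.adj, hs.uU, fun v hv => new_h v (hs.outer v hv), ?_⟩
      intro v hv c a1 a2
      by_contra hch
      exact hch (hs.disj v hv c (old v c hch a1).1 (old u c hch a2).1)
    -- faces with a side different from `h f` are kept
    have keep : ∀ {i : ι} {c : B}, i ∈ E → c ≠ h → c ≠ f → Q.atB i c → i ∈ E.erase e := by
      intro i c hi hch hcf hic
      refine Finset.mem_erase.2 ⟨?_, hi⟩
      rintro rfl
      rcases atB_two hhf heh hef hic with h3 | h3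
      · exact hch h3
      · exact hcf h3
    -- `e` is not in a segment
    have seg : ∀ X ⊆ E, g ∉ X → Q.bd X u h = 0 → X ⊆ E.erase e := by
      intro X hX hgX hbd i hi
      refine Finset.mem_erase.2 ⟨?_, hX hi⟩
      rintro rfl
      have h3 : Q.cnt X u h = Q.inc i u h := by
        unfold QS.cnt
        apply Finset.sum_eq_single_of_mem i hi
        intro j hj hji
        rw [QS.inc_eq_zero]
        rintro ⟨h4, h5⟩
        rcases twof (hX hj) h4 h5 with h6 | h6
        · exact hji h6
        · exact hgX (by rw [← h6]; exact hj)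
      have h4 : Q.inc i u h = 1 := by
        have p2 : Q.inc i u h ≠ 0 := fun h4 => (Q.inc_eq_zero i u h).1 h4 ⟨heu, heh⟩
        have p3 : Q.inc g u h ≠ 0 := fun h4 => (Q.inc_eq_zero g u h).1 h4 ⟨hgu, hgh⟩
        have hsub : ({i, g} : Finset ι) ⊆ E := by
          intro j hj
          simp only [Finset.mem_insert, Finset.mem_singleton] at hj
          rcases hj with rfl | rfl
          · exact he
          · exact hg.2
        have h5 := Q.cnt_mono hsub u h
        have h6 : Q.cnt {i, g} u h = Q.inc i u h + Q.inc g u h := by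
          unfold QS.cnt
          rw [Finset.sum_insert (by simp [Ne.symm hg.1]), Finset.sum_singleton]
        rcases hs.sph.two u h with h7 | h7 <;> omega
      unfold QS.bd at hbd
      rw [h3, h4] at hbd
      exact absurd hbd (by decide)
    have hcl0 := hcl g hg.2 hgh
    have main : ∀ (z : A) (b b' : B), z ≠ u → b ≠ b' → b' ≠ h →
        Adj (Q.ren f h) (E.erase e) u b → Adj (Q.ren f h) (E.erase e) u b' →
        Adj (Q.ren f h) (E.erase e) z b → Adj (Q.ren f h) (E.erase e) z b' →
        (∃ i ∈ E.erase e, (Q.ren f h).atA i u ∧ (Q.ren f h).atB i b ∧ (Q.ren f h).atB i b') ∨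
        (∃ X ⊆ E.erase e, g ∉ X ∧ (∀ i ∈ X, (Q.ren f h).atA i u ∧ (Q.ren f h).atA i z) ∧
          (∀ c, (Q.ren f h).bd X u c = if c = b ∨ c = b' then 1 else 0)) := by
      intro z b b' hzu hbb hb'h a1 a2 a3 a4
      obtain ⟨c2, hb'f⟩ := old u b' hb'h a2
      obtain ⟨c4, -⟩ := old z b' hb'h a4
      by_cases hbh : b = h
      · subst hbh
        rcases oldh z a3 with c3 | c3
        · left
          obtain ⟨i, hi, i1, i2, i3, i4⟩ := hN z b' hzu hb'h c3 c4 c2
          exact ⟨i, keep hi hb'h hb'f i4, i1, (ren_atB_hub hhf i).2 (Or.inl i3),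
            (ren_atB_other hb'h hb'f i).2 i4⟩
        · rcases hcl0 z f b' hzu (Ne.symm hb'f) huf c2 c3 c4 with ⟨i, hi, i1, i2, i3⟩ |
            ⟨X, hX, hgX, hX1, hX2⟩
          · left
            exact ⟨i, keep hi hb'h hb'f i3, i1, (ren_atB_hub hhf i).2 (Or.inr i2),
              (ren_atB_other hb'h hb'f i).2 i3⟩
          · right
            have hXh : Q.bd X u b = 0 := by
              rw [hX2, if_neg]
              rintro (h3 | h3)
              · exact hhf h3
              · exact hbb h3
            refine ⟨X, seg X hX hgX hXh, hgX, hX1, ?_⟩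
            intro c
            by_cases hch : c = b
            · subst hch
              rw [ren_bd_hub hhf, hXh, hX2, if_pos (Or.inl rfl), if_pos (Or.inl rfl), zero_add]
            · by_cases hcf : c = f
              · subst hcf
                rw [QS.bd, ren_cnt_f hhf, if_neg]
                · simp
                · rintro (h3 | h3)
                  · exact hch h3
                  · exact hb'f h3.symm
              · rw [ren_bd_other hch hcf, hX2]
                simp only [hch, hcf, false_or]
      · obtain ⟨c1, hbf⟩ := old u b hbh a1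
        obtain ⟨c3, -⟩ := old z b hbh a3
        rcases hcl0 z b b' hzu hbb c1 c2 c3 c4 with ⟨i, hi, i1, i2, i3⟩ |
          ⟨X, hX, hgX, hX1, hX2⟩
        · left
          exact ⟨i, keep hi hb'h hb'f i3, i1, (ren_atB_other hbh hbf i).2 i2,
            (ren_atB_other hb'h hb'f i).2 i3⟩
        · right
          have hXh : Q.bd X u h = 0 := by
            rw [hX2, if_neg]
            rintro (h3 | h3)
            · exact hbh h3.symm
            · exact hb'h h3.symm
          have hXf : Q.bd X u f = 0 := by
            rw [hX2, if_neg]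
            rintro (h3 | h3)
            · exact hbf h3.symm
            · exact hb'f h3.symm
          refine ⟨X, seg X hX hgX hXh, hgX, hX1, ?_⟩
          intro c
          by_cases hch : c = h
          · subst hch
            rw [ren_bd_hub hhf, hXh, hXf, if_neg, zero_add]
            rintro (h3 | h3)
            · exact hbh h3.symm
            · exact hb'h h3.symm
          · by_cases hcf : c = f
            · subst hcf
              rw [QS.bd, ren_cnt_f hhf, if_neg]
              · simp
              · rintro (h3 | h3)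
                · exact hbf h3.symm
                · exact hb'f h3.symm
            · rw [ren_bd_other hch hcf, hX2]
    have hcl' : Clean (Q.ren f h) (E.erase e) u g := by
      intro z b b' hzu hbb a1 a2 a3 a4
      by_cases hb'h : b' = h
      · have hbh : b ≠ h := fun h3 => hbb (h3.trans hb'h.symm)
        rcases main z b' b hzu (Ne.symm hbb) hbh a2 a1 a4 a3 with ⟨i, hi, i1, i2, i3⟩ |
          ⟨X, hX, hgX, hX1, hX2⟩
        · exact Or.inl ⟨i, hi, i1, i3, i2⟩
        · refine Or.inr ⟨X, hX, hgX, hX1, fun c => ?_⟩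
          rw [hX2]
          simp only [or_comm]
      · exact main z b b' hzu hbb hb'h a1 a2 a3 a4
    have hwU : w ∉ U := fun h3 => hhf (hs.disj w h3 f ⟨e, he, hew, hef⟩ huf).symm
    have hnb : nb (Q.ren f h) (E.erase e) u = (nb Q E u).erase f := by
      ext c
      rw [Finset.mem_erase, mem_nb, mem_nb]
      constructor
      · intro h3
        by_cases hch : c = h
        · subst hch
          exact ⟨hhf, hs.adj⟩
        · exact ⟨(old u c hch h3).2, (old u c hch h3).1⟩
      · rintro ⟨hcf, h3⟩
        by_cases hch : c = h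
        · subst hch
          exact new_h u hs.adj
        · obtain ⟨i, hi, i1, i2⟩ := h3
          exact ⟨i, keep hi hch hcf i2, i1, (ren_atB_other hch hcf i).2 i2⟩
    have hcard : (nb (Q.ren f h) (E.erase e) u).card = 2 * m := by
      rw [hnb, Finset.card_erase_of_mem (mem_nb.2 huf), hm]
      omega
    obtain ⟨SA, SB, g0, g1, g2, g3, g4, g5⟩ := lemmaZ hb hT m A B (Q.ren f h) (E.erase e) u h U
      {w} g hs' hk hgK hgu ((ren_atB_hub hhf g).2 (Or.inl hgh)) hcl'
      (fun a ha => by
        rw [Finset.mem_singleton] at ha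
        subst ha
        exact new_h a ⟨e, he, hew, heh⟩)
      (by rw [Finset.mem_singleton]; exact huw)
      (fun a ha => by
        rw [Finset.mem_singleton] at ha
        subst ha
        exact hwU) hcard
    refine ⟨SA, SB.erase f, Finset.empty_subset _, g1, g2,
      fun h3 => g3 (Finset.mem_of_mem_erase h3),
      hit_erase (hit_ren g3 g4) (Hit.of_atA hew (g0 (Finset.mem_singleton_self w))), ?_⟩
    have e1 := Finset.card_erase_le (a := f) (s := SB)
    have e2 := Finset.card_erase_of_mem he
    rw [Finset.card_singleton] at g5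
    omega

theorem fm_all {k κ : ℕ} {T : ℕ → ℕ} (hb : BaseT ι k T) (hT : ∀ j, T (j + 1) ≤ T j + 2)
    (h0 : T 0 ≤ κ) (h1 : T 1 ≤ κ + 1) : ∀ n, FMn ι k κ n := by
  intro n
  induction n using Nat.strong_induction_on with
  | _ n ih =>
  intro A B _ _ _ _ Q E u h U hs hk hN h2 hc
  subst hc
  by_cases hA : ∃ (K : Finset ι) (z : A) (b b' : B) (m : ℤ), Side Q E K u z b b' h ∧ m ≤ 0 ∧
      (TE Q.swap K b b' u z m ∨ TO Q.swap K b b' u z m)
  · obtain ⟨K, z, b, b', m, a1, a2, a3⟩ := hA
    exact redA hs hk hN a1 a2 a3 ih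
  by_cases hB : ∃ (K : Finset ι) (z : A) (b b' : B), Side Q E K u z b b' h ∧ Blk Q K u z b b' ∧
      K.card % 3 = 1 ∧ 1 < K.card
  · obtain ⟨K, z, b, b', a1, a2, a3, a4⟩ := hB
    exact redB hs hk hN a1 a2 a3 a4 ih
  by_cases hC : ∃ (K : Finset ι) (z : A) (b b' : B), Side Q E K u z b b' h ∧ Blk Q K u z b b' ∧
      K.card % 3 = 2 ∧ 2 < K.card
  · obtain ⟨K, z, b, b', a1, a2, a3, a4⟩ := hC
    exact redC hs hk hN a1 a2 a3 a4 ih
  apply fm_step hb hT h0 h1 hs hk hN h2
  intro g hg hgh
  apply clean_of_irred hs hN hg hgh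
  · intro K z b b' m a1 a2 a3
    exact hA ⟨K, z, b, b', m, a1, a2, a3⟩
  · intro K z b b' a1 a2 a3
    by_contra hcon
    exact hB ⟨K, z, b, b', a1, a2, a3, by omega⟩
  · intro K z b b' a1 a2 a3
    by_contra hcon
    exact hC ⟨K, z, b, b', a1, a2, a3, by omega⟩

theorem base_empty {A B : Type} [DecidableEq A] [DecidableEq B] [Fintype A] [Fintype B]
    (Q : QS ι A B) (E : Finset ι) (h : B) (M : Finset A) (hE : IsSph Q E)
    (hh : ∃ a, Adj Q E a h) (hM : ∀ a ∈ M, Adj Q E a h) :
    ∃ (SA : Finset A) (SB : Finset B), M ⊆ SA ∧ h ∉ SB ∧ Hit Q E SA SB ∧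
      3 * (SA.card + SB.card) ≤ E.card + (if M.card = 0 then 2 else 1 + 2 * M.card) := by
  rcases Finset.eq_empty_or_nonempty M with hM0 | hM0
  · obtain ⟨a, i, hi, -, hib⟩ := hh
    obtain ⟨SA, SB, h1, h2, h3⟩ := theoremA Q E h hE ⟨i, hi, hib⟩
    refine ⟨SA, SB, by rw [hM0]; exact Finset.empty_subset _, h1, h2, ?_⟩
    rw [hM0, Finset.card_empty, if_pos rfl]
    exact h3
  · obtain ⟨SA, SB, h1, h2, h3, h4⟩ := (claims_all ι A B E.card).A1 Q E h M hE rfl hM0 hM
    refine ⟨SA, SB, h1, h2, h3, ?_⟩
    have := Finset.card_pos.2 hM0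
    rw [if_neg (by omega)]
    omega

/-- no forbidden outer vertex -/
theorem baseT_zero : BaseT ι 0 (fun j => if j = 0 then 2 else 1 + 2 * j) := by
  intro A B _ _ _ _ Q E h U M hE hh hU hUc hM hMU
  have hU0 : U = ∅ := Finset.card_eq_zero.1 (by omega)
  obtain ⟨SA, SB, h1, h2, h3, h4⟩ := base_empty Q E h M hE hh hM
  refine ⟨SA, SB, h1, ?_, h2, h3, h4⟩
  intro v hv
  rw [hU0] at hv
  exact absurd hv (Finset.notMem_empty v)

/-- one forbidden outer vertex -/
theorem baseT_one (h : BStarM ι) : BaseT ι 1 (fun j => 2 + 2 * j) := by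
  intro A B _ _ _ _ Q E b U M hE hh hU hUc hM hMU
  rcases Finset.eq_empty_or_nonempty U with hU0 | ⟨u, hu⟩
  · obtain ⟨SA, SB, h1, h2, h3, h4⟩ := base_empty Q E b M hE hh hM
    refine ⟨SA, SB, h1, ?_, h2, h3, ?_⟩
    · intro v hv
      rw [hU0] at hv
      exact absurd hv (Finset.notMem_empty v)
    · show 3 * (SA.card + SB.card) ≤ E.card + (2 + 2 * M.card)
      split_ifs at h4 <;> omega
  · have hU1 : U = {u} := by
      rw [Finset.eq_singleton_iff_unique_mem]
      exact ⟨hu, fun v hv => Finset.card_le_one.1 hUc v hv u hu⟩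
    obtain ⟨SA, SB, h1, h2, h3, h4, h5⟩ := h A B Q E u b M hE (hU u hu)
      (fun h6 => hMU u h6 hu) hM
    refine ⟨SA, SB, h1, ?_, h3, h4, ?_⟩
    · intro v hv
      rw [hU1, Finset.mem_singleton] at hv
      rw [hv]; exact h2
    · show 3 * (SA.card + SB.card) ≤ E.card + (2 + 2 * M.card)
      omega

theorem nm_all : NM ι := by
  intro A B _ _ _ _ Q E u h hE hadj hN
  rcases Nat.lt_or_ge E.card 2 with hc | hc
  · -- one face
    obtain ⟨e, he, heu, heh⟩ := hadj
    have hE1 : E = {e} := by
      obtain ⟨e', he'⟩ := Finset.card_eq_one.1 (show E.card = 1 by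
        have := Finset.card_pos.2 ⟨e, he⟩
        omega)
      rw [he', Finset.mem_singleton] at he
      rw [he', he]
    have hc1 : E.card = 1 := by rw [hE1, Finset.card_singleton]
    by_cases hp : Q.p e = Q.q e
    · have hx : Q.x e ≠ Q.y e := by
        intro hx
        have h1 := hE.two (Q.p e) (Q.x e)
        rw [hE1] at h1
        unfold QS.cnt QS.inc at h1
        rw [Finset.sum_singleton, ← hp, ← hx] at h1
        simp at h1
      obtain ⟨f, hhf, hef⟩ : ∃ f, f ≠ h ∧ Q.atB e f := by
        rcases heh with h1 | h1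
        · exact ⟨Q.y e, fun h2 => hx (h1.trans h2.symm), Or.inr rfl⟩
        · exact ⟨Q.x e, fun h2 => hx (h2.trans h1.symm), Or.inl rfl⟩
      refine ⟨∅, {f}, Finset.notMem_empty _, ?_, ?_, ?_⟩
      · rw [Finset.mem_singleton]; exact Ne.symm hhf
      · intro i hi
        rw [hE1, Finset.mem_singleton] at hi
        subst hi
        exact Hit.of_atB hef (Finset.mem_singleton_self f)
      · rw [hc1, Finset.card_singleton, Finset.card_empty]
    · obtain ⟨w, huw, hew⟩ : ∃ w, w ≠ u ∧ Q.atA e w := by
        rcases heu with h1 | h1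
        · exact ⟨Q.q e, fun h2 => hp (h1.trans h2.symm), Or.inr rfl⟩
        · exact ⟨Q.p e, fun h2 => hp (h2.trans h1.symm), Or.inl rfl⟩
      refine ⟨{w}, ∅, ?_, Finset.notMem_empty _, ?_, ?_⟩
      · rw [Finset.mem_singleton]; exact Ne.symm huw
      · intro i hi
        rw [hE1, Finset.mem_singleton] at hi
        subst hi
        exact Hit.of_atA hew (Finset.mem_singleton_self w)
      · rw [hc1, Finset.card_singleton, Finset.card_empty]
  · have hs : Setg Q E u h ∅ := ⟨hE, hadj, Finset.notMem_empty u,
      fun v hv => absurd hv (Finset.notMem_empty v),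
      fun v hv => absurd hv (Finset.notMem_empty v)⟩
    have hfm : FMn ι 0 2 E.card := fm_all (T := fun j => if j = 0 then 2 else 1 + 2 * j)
      baseT_zero (by intro j; by_cases hj : j = 0 <;> simp [hj]; omega) (by simp) (by simp) _
    obtain ⟨SA, SB, -, g1, -, g3, g4, g5⟩ := hfm A B Q E u h ∅ hs (by simp) hN hc rfl
    exact ⟨SA, SB, g1, g3, g4, g5⟩

end Helper83.PY
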