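import Pool.Agent.Helper83.PY.Defs2
import Pool.Agent.Helper83.PY.St.P1

/-!
PY piece P7: B* from the case without type I cycles.

All in Lean language: a region `La` is a set `K ⊆ E` with `IsReg Q K u z h f` (ends `u z`, hubs
`h f`, i.e. boundary 4-cycle `h,u,f,z`), covers avoid `u` and `h`.  Let `B(n)` = B* for all spheres
with `n` faces (all types).  Strong induction on `n`.

Lemma PR (planarity inside a region): `IsReg Q K v z h f` in a sphere `E`; there are not both
`w ≠ v,z` with `cnt K w h ≠ 0`, `cnt K w f ≠ 0` and `y ≠ h,f` with `cnt K v y ≠ 0`, `cnt K z y ≠ 0`.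
(Proof as `planar`: `reg_split` at `w` into K1 (v,w), K2 (w,z); rows: K2 has no face at `v`
(linkA: zero row, and the face at `(v,h)` outside `K`), K1 has no face at `z`; column `y` of `K1` is
zero, so linkB at `y`: all or none; contradiction.)

(La0) `K.card % 3 = 0`: cover with 3c <= K.card.  By PR either `block_sph` (rename f -> h) applies:
  B(K.card) gives 3c <= K.card + 2, hence <= K.card; or the swapped `block_sph` (rename z -> u on
  ends): the same.
(La2) `K.card % 3 = 2`: cover containing `z` or `f` with 3c <= K.card + 1.  `closure_sph` for the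
  region `E \ K` (its boundary is the same), `e0 ∈ E \ K`: sphere on `insert e0 K`
  (`E \ (E \ K) = K`), B(K.card + 1): 3c <= K.card + 3 and `K.card + 1 = 0 mod 3`, so
  3c <= K.card + 1; the face `e0 = (u,z;h,f)` is hit by `z` or `f`.
(La1) `K.card % 3 = 1`: cover containing `z` with 3c <= K.card + 2; and (by symmetry, `swap`,
  exchanging u,h and z,f) cover containing `f` with 3c <= K.card + 2.  For `z`:
  * K.card = 1: {z}.
  * `u,z` have no common neighbour in `K` except `h,f`: rename z -> u (swapped block_sph): sphere on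
    `K` with 1 mod 3 faces; `e0 ∈ K` at the pair `(z,h)`; `K.erase e0` is a region (`erase_reg`) at
    the pair `(u,h)` of the new sphere, La0 for it: 3c <= K.card - 1; add `z` (hits `e0`).
  * otherwise choose a common neighbour `y` of `u,z` in `K` (swapped `reg_split`):
    `K = Ka ∪ Kb`, Ka with hubs `h,y`, Kb with hubs `y,f` (ends u,z), such that `Kb` has no further
    common neighbour of `u,z` (minimal `Kb.card`; sub-regions of Kb enlarge Ka).  For Kb use
    `block_tab` of the SWAPPED system (ends y,f; hubs u,z): its proof shows: card 0 mod 3: TE 0;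
    1: TO 2; 2: TO 1 (please state this explicit version).  Residues of (Ka, Kb):
    (0,1): La0(Ka) + {z} + hub-table of Kb (cost Kb+2 with z, shared z): total K.card + 2.
    (1,0): La1(Ka) with z + hub-table (Kb+3), shared z: K.card + 2.
    (2,2): La2(Ka): if it contains z: hub-table (Kb+4), shared z: Ka+1+Kb+4-3 = K.card+2.
           If it contains y: end-table of Kb with end y (Kb+1), shared y, plus {z}: K.card + 2.
(B(n)) n % 3 = 1: n = 1 direct; otherwise a face `e = (u,z;h,f)` at the pair (u,h), La0 for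
  `E.erase e`, add `z`.  n % 3 = 2: La1 (z) for `E.erase e`.  n % 3 = 0: NoTypeI: hypothesis NM.
  Otherwise z, f with 4-cycle `del u z h f` supported on pairs: `hE.ml` gives X with
  `IsReg Q X u z h f`, also `E \ X`; both have at least 2 faces (one face would be the face of
  NoTypeI, its ends/sides are determined by its boundary).  Residues (0,0): La0+La0.  (1,2), (2,1):
  La2 of the second contains z or f, La1 of the first with the same vertex, shared: K+2+K'+1-3 = n.
  (La2 needs B(|K'|+1), |K'|+1 < n since |K| >= 2.)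
Cover sets may contain useless vertices: erase `u`, `h`, or the renamed vertex when needed.
-/

open Finset

set_option linter.unusedSectionVars false
set_option linter.unusedSimpArgs false
set_option linter.unusedVariables false

namespace Helper83.PY

variable {ι : Type} [DecidableEq ι]

variable (ι) in
/-- B* for spheres with `n` faces (all types) -/
def BSn (n : ℕ) : Prop :=
  ∀ (A B : Type) [DecidableEq A] [DecidableEq B] [Fintype A] [Fintype B]
    (Q : QS ι A B) (E : Finset ι) (u : A) (h : B),
    IsSph Q E → E.card = n → Adj Q E u h → Good Q E u h 2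

section
variable {A B : Type} [DecidableEq A] [DecidableEq B] [Fintype A] [Fintype B]

theorem hit_swap {Q : QS ι A B} {S : Finset ι} {SA : Finset A} {SB : Finset B}
    (h : Hit Q.swap S SB SA) : Hit Q S SA SB := by
  intro i hi
  rcases h i hi with h1 | h1 | h1 | h1
  · exact Or.inr (Or.inr (Or.inl h1))
  · exact Or.inr (Or.inr (Or.inr h1))
  · exact Or.inl h1
  · exact Or.inr (Or.inl h1)

/-- No face of a sub-region at a corner vertex which is not a corner of the sub-region (hubs). -/
theorem no_face_hub {Q : QS ι A B} {E K K2 : Finset ι} {v z a1 a2 : A} {h f y1 y2 b : B}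
    (hE : IsSph Q E) (hK : K ⊆ E) (R : IsReg Q K v z h f) (hK2 : K2 ⊆ K)
    (R2 : IsReg Q K2 a1 a2 y1 y2) (hb : b = h ∨ b = f) (hb1 : b ≠ y1) (hb2 : b ≠ y2) :
    ∀ i ∈ K2, ¬ Q.atB i b := by
  refine reg_link_hub hE hK R hK2 hb (fun a => ?_)
  rw [R2.bd]
  exact del_B hb1 hb2 a

theorem no_face_end {Q : QS ι A B} {E K K2 : Finset ι} {v z a1 a2 a : A} {h f y1 y2 : B}
    (hE : IsSph Q E) (hK : K ⊆ E) (R : IsReg Q K v z h f) (hK2 : K2 ⊆ K)
    (R2 : IsReg Q K2 a1 a2 y1 y2) (ha : a = v ∨ a = z) (ha1 : a ≠ a1) (ha2 : a ≠ a2) :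
    ∀ i ∈ K2, ¬ Q.atA i a := by
  refine reg_link_end hE hK R hK2 ha (fun b => ?_)
  rw [R2.bd]
  exact del_A ha1 ha2 b

/-- planarity inside a region -/
theorem planar_reg {Q : QS ι A B} {E K : Finset ι} {v z : A} {h f : B}
    (hE : IsSph Q E) (hK : K ⊆ E) (R : IsReg Q K v z h f) {w : A} {y : B}
    (hwv : w ≠ v) (hwz : w ≠ z) (hyh : y ≠ h) (hyf : y ≠ f)
    (w1 : Q.cnt K w h ≠ 0) (w2 : Q.cnt K w f ≠ 0) (y1 : Q.cnt K v y ≠ 0)
    (y2 : Q.cnt K z y ≠ 0) : False := by
  obtain ⟨K1, hK1, R1, R2⟩ := reg_split hE hK R hwv hwz w1 w2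
  have n2 : ∀ i ∈ K \ K1, ¬ Q.atA i v :=
    no_face_end hE hK R Finset.sdiff_subset R2 (Or.inl rfl) (Ne.symm hwv) R.vz
  have n1 : ∀ i ∈ K1, ¬ Q.atA i z :=
    no_face_end hE hK R hK1 R1 (Or.inr rfl) (Ne.symm R.vz) (Ne.symm hwz)
  obtain ⟨i, hi, hi1, hi2⟩ := (Q.cnt_ne_zero _ _ _).1 y1
  obtain ⟨j, hj, hj1, hj2⟩ := (Q.cnt_ne_zero _ _ _).1 y2
  have iK : i ∈ K1 := by
    by_contra h1
    exact n2 i (Finset.mem_sdiff.2 ⟨hi, h1⟩) hi1
  rcases hE.linkB y K1 (hK1.trans hK) (fun a => by rw [R1.bd]; exact del_B hyh hyf a) with h3 | h3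
  · exact n1 j (h3 j (hK hj) hj2) hj1
  · exact h3 i iK hi2

/-- block region: cover avoiding `u` and both hubs -/
theorem blk_good {Q : QS ι A B} {E K : Finset ι} {u z : A} {h f : B}
    (hb : BSn ι K.card) (hE : IsSph Q E) (hK : K ⊆ E) (R : IsReg Q K u z h f)
    (hbl : ∀ a, a ≠ u → a ≠ z → Q.cnt K a h = 0 ∨ Q.cnt K a f = 0) :
    ∃ (SA : Finset A) (SB : Finset B), u ∉ SA ∧ h ∉ SB ∧ Hit Q K SA SB ∧
      3 * (SA.card + SB.card) ≤ K.card + 2 := by
  have hs := block_sph hE hK R hbl
  obtain ⟨i1, hi1, hi1a, hi1b⟩ := reg_corner R (Or.inl rfl : u = u ∨ u = z)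
    (Or.inl rfl : h = h ∨ h = f)
  obtain ⟨SA, SB, g1, g2, g3, g4⟩ := hb A B (Q.ren f h) K u h hs rfl
    ⟨i1, hi1, hi1a, (ren_atB_hub R.hf i1).2 (Or.inl hi1b)⟩
  refine ⟨SA, SB.erase f, g1, fun h1 => g2 (Finset.mem_of_mem_erase h1), hit_ren g2 g3, ?_⟩
  have := Finset.card_erase_le (a := f) (s := SB)
  omega

/-- (La0) -/
theorem la0 {n : ℕ} (ih : ∀ j < n, BSn ι j) {Q : QS ι A B} {E K : Finset ι} {u z : A} {h f : B}
    (hE : IsSph Q E) (hK : K ⊆ E) (R : IsReg Q K u z h f) (hn : K.card < n)
    (hm : K.card % 3 = 0) :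
    ∃ (SA : Finset A) (SB : Finset B), u ∉ SA ∧ h ∉ SB ∧ Hit Q K SA SB ∧
      3 * (SA.card + SB.card) ≤ K.card := by
  by_cases hbl : ∀ a, a ≠ u → a ≠ z → Q.cnt K a h = 0 ∨ Q.cnt K a f = 0
  · obtain ⟨SA, SB, g1, g2, g3, g4⟩ := blk_good (ih _ hn) hE hK R hbl
    exact ⟨SA, SB, g1, g2, g3, by omega⟩
  · push Not at hbl
    obtain ⟨w, hwv, hwz, w1, w2⟩ := hbl
    have hbl' : ∀ b, b ≠ h → b ≠ f → Q.swap.cnt K b u = 0 ∨ Q.swap.cnt K b z = 0 := by
      intro b hb1 hb2
      by_contra hcon
      push Not at hcon
      obtain ⟨c1, c2⟩ := hcon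
      rw [QS.swap_cnt] at c1 c2
      exact planar_reg hE hK R hwv hwz hb1 hb2 w1 w2 c1 c2
    obtain ⟨SB, SA, g1, g2, g3, g4⟩ := blk_good (ih _ hn) hE.swap hK (swap_reg R) hbl'
    exact ⟨SA, SB, g2, g1, hit_swap g3, by omega⟩

/-- (La2) -/
theorem la2 {n : ℕ} (ih : ∀ j < n, BSn ι j) {Q : QS ι A B} {E K : Finset ι} {u z : A} {h f : B}
    (hE : IsSph Q E) (hK : K ⊆ E) (R : IsReg Q K u z h f) (hn : K.card + 1 < n)
    (hm : K.card % 3 = 2) :
    ∃ (SA : Finset A) (SB : Finset B), (z ∈ SA ∨ f ∈ SB) ∧ u ∉ SA ∧ h ∉ SB ∧ Hit Q K SA SB ∧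
      3 * (SA.card + SB.card) ≤ K.card + 1 := by
  have R' := compl_reg hE hK R
  obtain ⟨e0, he0, _, _⟩ := reg_corner R' (Or.inl rfl : u = u ∨ u = z)
    (Or.inl rfl : h = h ∨ h = f)
  have he0K : e0 ∉ K := (Finset.mem_sdiff.1 he0).2
  have hs := closure_sph hE (Finset.sdiff_subset : E \ K ⊆ E) R' he0
  rw [Finset.sdiff_sdiff_eq_self hK] at hs
  have hc : (insert e0 K).card = K.card + 1 := Finset.card_insert_of_notMem he0K
  obtain ⟨SA, SB, g1, g2, g3, g4⟩ := ih (K.card + 1) hn A B _ (insert e0 K) u h hs hc
    ⟨e0, Finset.mem_insert_self _ _, setFace_atA_self u |>.2 (Or.inl rfl),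
      setFace_atB_self h |>.2 (Or.inl rfl)⟩
  have hzf : z ∈ SA ∨ f ∈ SB := by
    have h1 := g3 e0 (Finset.mem_insert_self _ _)
    have e1 : (Q.setFace e0 u z h f).p e0 = u := by simp [QS.setFace]
    have e2 : (Q.setFace e0 u z h f).q e0 = z := by simp [QS.setFace]
    have e3 : (Q.setFace e0 u z h f).x e0 = h := by simp [QS.setFace]
    have e4 : (Q.setFace e0 u z h f).y e0 = f := by simp [QS.setFace]
    rw [e1, e2, e3, e4] at h1
    rcases h1 with h1 | h1 | h1 | h1
    · exact absurd h1 g1
    · exact Or.inl h1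
    · exact absurd h1 g2
    · exact Or.inr h1
  refine ⟨SA, SB, hzf, g1, g2, ?_, by omega⟩
  intro i hi
  have hie : i ≠ e0 := by rintro rfl; exact he0K hi
  have h1 := g3 i (Finset.mem_insert_of_mem hi)
  have e1 : (Q.setFace e0 u z h f).p i = Q.p i := by simp [QS.setFace, hie]
  have e2 : (Q.setFace e0 u z h f).q i = Q.q i := by simp [QS.setFace, hie]
  have e3 : (Q.setFace e0 u z h f).x i = Q.x i := by simp [QS.setFace, hie]
  have e4 : (Q.setFace e0 u z h f).y i = Q.y i := by simp [QS.setFace, hie]
  rw [e1, e2, e3, e4] at h1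
  exact h1

/-- block region with hubs `h f`: cover with the hub `f`, without `h` -/
theorem blk_hub {Q : QS ι A B} {E K : Finset ι} {v z : A} {h f : B}
    (hE : IsSph Q E) (hK : K ⊆ E) (R : IsReg Q K v z h f)
    (hbl : ∀ a, a ≠ v → a ≠ z → Q.cnt K a h = 0 ∨ Q.cnt K a f = 0) :
    ∃ (SA : Finset A) (SB : Finset B), f ∈ SB ∧ h ∉ SB ∧ Hit Q K SA SB ∧
      3 * (SA.card + SB.card) ≤ K.card + 4 := by
  have hs := block_sph hE hK R hbl
  have hhf := R.hf
  obtain ⟨i3, hi3, hi3a, hi3b⟩ := reg_corner R (Or.inl rfl : v = v ∨ v = z)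
    (Or.inr rfl : f = h ∨ f = f)
  obtain ⟨SAf, SBf, f1, f2, f3⟩ := (claims_all ι A B K.card).Af _ K h i3 hs rfl hi3
    ((ren_atB_hub hhf i3).2 (Or.inr hi3b))
  refine ⟨SAf, insert f (SBf.erase f), Finset.mem_insert_self _ _, ?_, ?_, ?_⟩
  · intro h1
    rcases Finset.mem_insert.1 h1 with h2 | h2
    · exact hhf h2
    · exact f1 (Finset.mem_of_mem_erase h2)
  · intro i hi
    by_cases hif : i = i3
    · subst hif; exact Hit.of_atB hi3b (Finset.mem_insert_self _ _)
    · exact (hit_ren f1 f2).mono (Finset.Subset.refl _) (Finset.subset_insert _ _) i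
        (Finset.mem_erase.2 ⟨hif, hi⟩)
  · have c1 := Finset.card_insert_le f (SBf.erase f)
    have c2 := Finset.card_erase_le (a := f) (s := SBf)
    omega

/-- block region with hubs `h f`: cover with the end `v`, without `h` and `f` -/
theorem blk_end {Q : QS ι A B} {E K : Finset ι} {v z : A} {h f : B}
    (hE : IsSph Q E) (hK : K ⊆ E) (R : IsReg Q K v z h f)
    (hbl : ∀ a, a ≠ v → a ≠ z → Q.cnt K a h = 0 ∨ Q.cnt K a f = 0) :
    ∃ (SA : Finset A) (SB : Finset B), v ∈ SA ∧ h ∉ SB ∧ f ∉ SB ∧ Hit Q K SA SB ∧
      3 * (SA.card + SB.card) ≤ K.card + 3 := by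
  have hs := block_sph hE hK R hbl
  have hhf := R.hf
  obtain ⟨i1, hi1, hi1a, hi1b⟩ := reg_corner R (Or.inl rfl : v = v ∨ v = z)
    (Or.inl rfl : h = h ∨ h = f)
  obtain ⟨SAv, SBv, b0, b1, b2, b3⟩ := (claims_all ι A B K.card).A1 _ K h {v} hs rfl
    (Finset.singleton_nonempty v)
    (fun a ha => by
      rw [Finset.mem_singleton] at ha; subst ha
      exact ⟨i1, hi1, hi1a, (ren_atB_hub hhf i1).2 (Or.inl hi1b)⟩)
  rw [Finset.card_singleton] at b3
  refine ⟨SAv, SBv.erase f, b0 (Finset.mem_singleton_self v),
    fun h1 => b1 (Finset.mem_of_mem_erase h1), Finset.notMem_erase f _, hit_ren b1 b2, ?_⟩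
  have := Finset.card_erase_le (a := f) (s := SBv)
  omega

/-- union of two adjacent regions -/
theorem reg_join {Q : QS ι A B} {K1 K2 : Finset ι} {v w z : A} {h f : B}
    (hd : Disjoint K1 K2) (R1 : IsReg Q K1 v w h f) (R2 : IsReg Q K2 w z h f) (hvz : v ≠ z) :
    IsReg Q (K1 ∪ K2) v z h f := by
  refine ⟨hvz, R1.hf, fun a b => ?_⟩
  rw [bd_union_disj hd, R1.bd, R2.bd]
  have hvw := R1.vz
  have hwz := R2.vz
  have e3 : (1 : ZMod 2) + 1 = 0 := by decide
  unfold del
  by_cases hb : b = h ∨ b = f
  · simp only [hb, and_true]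
    by_cases e1 : a = v
    · subst e1
      simp [hvw, hvz]
    · by_cases e2 : a = w
      · subst e2; simp [e1, hwz, e3]
      · by_cases e4 : a = z
        · subst e4; simp [e1, e2]
        · simp [e1, e2, e4]
  · simp [hb]

/-- If a region is not a block then it can be cut such that the second part is a block. -/
theorem last_block {Q : QS ι A B} {E : Finset ι} (hE : IsSph Q E) : ∀ (m : ℕ) (K : Finset ι)
    (v z : A) (h f : B), K.card = m → K ⊆ E → IsReg Q K v z h f →
    ¬ (∀ a, a ≠ v → a ≠ z → Q.cnt K a h = 0 ∨ Q.cnt K a f = 0) →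
    ∃ w, ∃ K1 ⊆ K, w ≠ v ∧ w ≠ z ∧ IsReg Q K1 v w h f ∧ IsReg Q (K \ K1) w z h f ∧
      (∀ a, a ≠ w → a ≠ z → Q.cnt (K \ K1) a h = 0 ∨ Q.cnt (K \ K1) a f = 0) := by
  intro m
  induction m using Nat.strong_induction_on with
  | _ m ih =>
    intro K v z h f hc hK R hnb
    push Not at hnb
    obtain ⟨w, hwv, hwz, h1, h2⟩ := hnb
    obtain ⟨K1, hK1, R1, R2⟩ := reg_split hE hK R hwv hwz h1 h2
    by_cases hbl : ∀ a, a ≠ w → a ≠ z → Q.cnt (K \ K1) a h = 0 ∨ Q.cnt (K \ K1) a f = 0
    · exact ⟨w, K1, hK1, hwv, hwz, R1, R2, hbl⟩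
    · have p1 : 0 < K1.card := Finset.card_pos.2 (Finset.nonempty_iff_ne_empty.2 (reg_ne_empty R1))
      have p3 := Finset.card_sdiff_of_subset hK1
      have p4 := Finset.card_le_card hK1
      obtain ⟨w', K1', hK1', hw1, hw2, R1', R2', hbl'⟩ := ih (K \ K1).card (by omega) (K \ K1) w z h f
        rfl (Finset.sdiff_subset.trans hK) R2 hbl
      have hd : Disjoint K1 K1' := by
        rw [Finset.disjoint_left]
        intro i hi hi'
        exact (Finset.mem_sdiff.1 (hK1' hi')).2 hi
      -- `w' ≠ v`
      have hw3 : w' ≠ v := by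
        rintro rfl
        obtain ⟨i, hi, hi1, _⟩ := reg_corner R1' (Or.inr rfl : w' = w ∨ w' = w')
          (Or.inl rfl : h = h ∨ h = f)
        exact no_face_end hE hK R Finset.sdiff_subset R2 (Or.inl rfl) (Ne.symm hwv) R.vz i
          (hK1' hi) hi1
      have hset : K \ (K1 ∪ K1') = (K \ K1) \ K1' := by
        rw [Finset.sdiff_union_distrib]
        ext i
        simp only [Finset.mem_inter, Finset.mem_sdiff]
        tauto
      refine ⟨w', K1 ∪ K1', Finset.union_subset hK1 (hK1'.trans Finset.sdiff_subset), hw3, hw2,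
        reg_join hd R1 R1' (Ne.symm hw3), ?_, ?_⟩
      · rw [hset]; exact R2'
      · rw [hset]; exact hbl'

theorem card_union_lt'' {α : Type*} [DecidableEq α] {S T : Finset α} {a : α} (h1 : a ∈ S)
    (h2 : a ∈ T) : (S ∪ T).card + 1 ≤ S.card + T.card := card_union_lt' h1 h2

end

/-- (La1), cover with `z` -/
theorem la1 {n : ℕ} (ih : ∀ j < n, BSn ι j) : ∀ (m : ℕ) {A B : Type} [DecidableEq A]
    [DecidableEq B] [Fintype A] [Fintype B] {Q : QS ι A B} {E K : Finset ι} {u z : A} {h f : B}
    (hE : IsSph Q E) (hK : K ⊆ E) (R : IsReg Q K u z h f) (hm' : K.card = m) (hn : K.card < n)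
    (hm : K.card % 3 = 1),
    ∃ (SA : Finset A) (SB : Finset B), z ∈ SA ∧ u ∉ SA ∧ h ∉ SB ∧ Hit Q K SA SB ∧
      3 * (SA.card + SB.card) ≤ K.card + 2 := by
  intro m
  induction m using Nat.strong_induction_on with
  | _ m ihm =>
    intro A B _ _ _ _ Q E K u z h f hE hK R hm' hn hm
    have huz := R.vz
    have hhf := R.hf
    obtain ⟨e0, he0, he0a, he0b⟩ := reg_corner R (Or.inr rfl : z = u ∨ z = z)
      (Or.inl rfl : h = h ∨ h = f)
    by_cases hK1 : K.card = 1
    · obtain ⟨e, he⟩ := Finset.card_eq_one.1 hK1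
      refine ⟨{z}, ∅, Finset.mem_singleton_self z, ?_, Finset.notMem_empty h, ?_, ?_⟩
      · rw [Finset.mem_singleton]; exact huz
      · intro i hi
        have hie : i = e0 := by
          rw [he, Finset.mem_singleton] at hi he0
          rw [hi, he0]
        subst hie
        exact Hit.of_atA he0a (Finset.mem_singleton_self z)
      · simp [hK1]
    · by_cases hbl : ∀ b, b ≠ h → b ≠ f → Q.swap.cnt K b u = 0 ∨ Q.swap.cnt K b z = 0
      · -- identify `z` with `u`
        have hs := (block_sph hE.swap hK (swap_reg R) hbl).swap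
        set Q2 : QS ι A B := (Q.swap.ren z u).swap with hQ2
        have q2u : Q2.atA e0 u := (ren_atB_hub (Q := Q.swap) huz e0).2 (Or.inr he0a)
        have q2h : Q2.atB e0 h := he0b
        obtain ⟨w, hw1, hw2⟩ := other_end hs he0 (by omega) q2u
        obtain ⟨g, hg1, hg2⟩ := other_side hs he0 (by omega) q2h
        have Re := erase_reg hs he0 hw1 hg1 q2u hw2 q2h hg2
        have hce : (K.erase e0).card = K.card - 1 := Finset.card_erase_of_mem he0
        obtain ⟨SA, SB, g1, g2, g3, g4⟩ := la0 ih hs (Finset.erase_subset e0 K) Re (by omega)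
          (by omega)
        have g3' : Hit Q (K.erase e0) (SA.erase z) SB := by
          have h1 : Hit (Q.swap.ren z u) (K.erase e0) SB SA := by
            intro i hi
            rcases g3 i hi with h2 | h2 | h2 | h2
            · exact Or.inr (Or.inr (Or.inl h2))
            · exact Or.inr (Or.inr (Or.inr h2))
            · exact Or.inl h2
            · exact Or.inr (Or.inl h2)
          exact hit_swap (hit_ren g1 h1)
        refine ⟨insert z (SA.erase z), SB, Finset.mem_insert_self _ _, ?_, g2, ?_, ?_⟩
        · intro h1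
          rcases Finset.mem_insert.1 h1 with h2 | h2
          · exact huz h2
          · exact g1 (Finset.mem_of_mem_erase h2)
        · exact hit_erase (g3'.mono (Finset.subset_insert _ _) (Finset.Subset.refl _))
            (Hit.of_atA he0a (Finset.mem_insert_self _ _))
        · have c1 := Finset.card_insert_le z (SA.erase z)
          have c2 := Finset.card_erase_le (a := z) (s := SA)
          omega
      · -- cut at a common neighbour of `u` and `z`
        obtain ⟨y, Ka, hKa, hyh, hyf, Ra, Rb, hblb⟩ :=
          last_block hE.swap K.card K h f u z rfl hK (swap_reg R) hbl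
        have Ra' : IsReg Q Ka u z h y := swap_reg Ra
        have Rb' : IsReg Q (K \ Ka) u z y f := swap_reg Rb
        have hU : Ka ∪ (K \ Ka) = K := Finset.union_sdiff_of_subset hKa
        have hc : Ka.card + (K \ Ka).card = K.card := by
          rw [Finset.card_sdiff_of_subset hKa]
          have := Finset.card_le_card hKa
          omega
        have pb : 0 < (K \ Ka).card :=
          Finset.card_pos.2 (Finset.nonempty_iff_ne_empty.2 (reg_ne_empty Rb))
        have hKaE := hKa.trans hK
        have hKbE : K \ Ka ⊆ E := Finset.sdiff_subset.trans hK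
        -- no face of the block at `h`
        have hnoh : ∀ i ∈ K \ Ka, ¬ Q.atB i h :=
          no_face_hub hE hK R Finset.sdiff_subset Rb' (Or.inl rfl) (Ne.symm hyh) hhf
        have herase : ∀ {SA : Finset A} {SB : Finset B}, Hit Q (K \ Ka) SA SB →
            Hit Q (K \ Ka) SA (SB.erase h) := by
          intro SA SB hh i hi
          have h1 := hnoh i hi
          rcases hh i hi with h2 | h2 | h2 | h2
          · exact Or.inl h2
          · exact Or.inr (Or.inl h2)
          · exact Or.inr (Or.inr (Or.inl (Finset.mem_erase.2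
              ⟨fun h3 => h1 (Or.inl h3), h2⟩)))
          · exact Or.inr (Or.inr (Or.inr (Finset.mem_erase.2
              ⟨fun h3 => h1 (Or.inr h3), h2⟩)))
        -- the two tables of the block
        obtain ⟨SBh, SAh, t1, t2, t3, t4⟩ := blk_hub hE.swap hKbE Rb hblb
        obtain ⟨SBe, SAe, s1, s2, s3, s4, s5⟩ := blk_end hE.swap hKbE Rb hblb
        have t3' := herase (hit_swap t3)
        have s4' := herase (hit_swap s4)
        have ct := Finset.card_erase_le (a := h) (s := SBh)
        have cs := Finset.card_erase_le (a := h) (s := SBe)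
        have hmod : Ka.card % 3 = 0 ∧ (K \ Ka).card % 3 = 1 ∨
            Ka.card % 3 = 1 ∧ (K \ Ka).card % 3 = 0 ∨
            Ka.card % 3 = 2 ∧ (K \ Ka).card % 3 = 2 := by omega
        rcases hmod with ⟨ma, mb⟩ | ⟨ma, mb⟩ | ⟨ma, mb⟩
        · obtain ⟨SA, SB, g1, g2, g3, g4⟩ := la0 ih hE hKaE Ra' (by omega) ma
          refine ⟨SA ∪ SAh, SB ∪ SBh.erase h, Finset.mem_union_right _ t1,
            notMem_union' g1 t2, notMem_union' g2 (Finset.notMem_erase h _), ?_, ?_⟩
          · rw [← hU]; exact g3.union t3'
          · have c1 := Finset.card_union_le SA SAh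
            have c2 := Finset.card_union_le SB (SBh.erase h)
            omega
        · obtain ⟨SA, SB, g0, g1, g2, g3, g4⟩ := ihm Ka.card (by omega) hE hKaE Ra' rfl (by omega) ma
          refine ⟨SA ∪ SAh, SB ∪ SBh.erase h, Finset.mem_union_right _ t1,
            notMem_union' g1 t2, notMem_union' g2 (Finset.notMem_erase h _), ?_, ?_⟩
          · rw [← hU]; exact g3.union t3'
          · have c1 := card_union_lt'' g0 t1
            have c2 := Finset.card_union_le SB (SBh.erase h)
            omega
        · obtain ⟨SA, SB, g0, g1, g2, g3, g4⟩ := la2 ih hE hKaE Ra' (by omega) ma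
          rcases g0 with g0 | g0
          · refine ⟨SA ∪ SAh, SB ∪ SBh.erase h, Finset.mem_union_right _ t1,
              notMem_union' g1 t2, notMem_union' g2 (Finset.notMem_erase h _), ?_, ?_⟩
            · rw [← hU]; exact g3.union t3'
            · have c1 := card_union_lt'' g0 t1
              have c2 := Finset.card_union_le SB (SBh.erase h)
              omega
          · have hyS : y ∈ SBe.erase h := Finset.mem_erase.2 ⟨hyh, s1⟩
            refine ⟨insert z (SA ∪ SAe), SB ∪ SBe.erase h, Finset.mem_insert_self _ _, ?_,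
              notMem_union' g2 (Finset.notMem_erase h _), ?_, ?_⟩
            · intro h1
              rcases Finset.mem_insert.1 h1 with h2 | h2
              · exact huz h2
              · exact notMem_union' g1 s2 h2
            · have hh : Hit Q K (SA ∪ SAe) (SB ∪ SBe.erase h) := by
                rw [← hU]; exact g3.union s4'
              exact hh.mono (Finset.subset_insert _ _) (Finset.Subset.refl _)
            · have c0 := Finset.card_insert_le z (SA ∪ SAe)
              have c1 := Finset.card_union_le SA SAe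
              have c2 := card_union_lt'' g0 hyS
              omega

theorem bstar_of_nm (hNM : NM ι) : BStar ι := by
  have main : ∀ n, BSn ι n := by
    intro n
    induction n using Nat.strong_induction_on with
    | _ n ih =>
      intro A B _ _ _ _ Q E u h hE hc hadj
      obtain ⟨e, he, heu, heh⟩ := hadj
      have hpos : 0 < E.card := Finset.card_pos.2 ⟨e, he⟩
      by_cases h1 : E.card = 1
      · -- a single face
        obtain ⟨e', he'⟩ := Finset.card_eq_one.1 h1
        have hee : ∀ i ∈ E, i = e := by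
          intro i hi
          rw [he', Finset.mem_singleton] at hi he
          rw [hi, he]
        by_cases hpq : Q.p e = Q.q e
        · by_cases hxy : Q.x e = Q.y e
          · exfalso
            have h2 := hE.two (Q.p e) (Q.x e)
            have h3 : Q.cnt E (Q.p e) (Q.x e) = 4 := by
              have hEe : E = {e} := by
                ext i
                rw [Finset.mem_singleton]
                exact ⟨hee i, fun h4 => by rw [h4]; exact he⟩
              unfold QS.cnt QS.inc
              rw [hEe, Finset.sum_singleton]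
              simp [← hpq, ← hxy]
            omega
          · have hb : ∃ f, f ≠ h ∧ Q.atB e f := by
              rcases heh with h2 | h2
              · exact ⟨Q.y e, fun h3 => hxy (h2.trans h3.symm), Or.inr rfl⟩
              · exact ⟨Q.x e, fun h3 => hxy (h3.trans h2.symm), Or.inl rfl⟩
            obtain ⟨f, hf1, hf2⟩ := hb
            refine ⟨∅, {f}, Finset.notMem_empty u, ?_, ?_, ?_⟩
            · rw [Finset.mem_singleton]; exact Ne.symm hf1
            · intro i hi
              rw [hee i hi]
              exact Hit.of_atB hf2 (Finset.mem_singleton_self f)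
            · simp [h1]
        · have ha : ∃ z, z ≠ u ∧ Q.atA e z := by
            rcases heu with h2 | h2
            · exact ⟨Q.q e, fun h3 => hpq (h2.trans h3.symm), Or.inr rfl⟩
            · exact ⟨Q.p e, fun h3 => hpq (h3.trans h2.symm), Or.inl rfl⟩
          obtain ⟨z, hz1, hz2⟩ := ha
          refine ⟨{z}, ∅, ?_, Finset.notMem_empty h, ?_, ?_⟩
          · rw [Finset.mem_singleton]; exact Ne.symm hz1
          · intro i hi
            rw [hee i hi]
            exact Hit.of_atA hz2 (Finset.mem_singleton_self z)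
          · simp [h1]
      · have h2 : 2 ≤ E.card := by omega
        obtain ⟨z, huz, hez⟩ := other_end hE he h2 heu
        obtain ⟨f, hhf, hef⟩ := other_side hE he h2 heh
        have R := erase_reg hE he huz hhf heu hez heh hef
        have hKE : E.erase e ⊆ E := Finset.erase_subset e E
        have hKc : (E.erase e).card = E.card - 1 := Finset.card_erase_of_mem he
        have hmod : E.card % 3 = 1 ∨ E.card % 3 = 2 ∨ E.card % 3 = 0 := by omega
        rcases hmod with hm | hm | hm
        · obtain ⟨SA, SB, g1, g2, g3, g4⟩ := la0 ih hE hKE R (by omega) (by omega)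
          refine ⟨insert z SA, SB, ?_, g2, ?_, ?_⟩
          · intro h3
            rcases Finset.mem_insert.1 h3 with h4 | h4
            · exact huz h4
            · exact g1 h4
          · exact hit_erase (g3.mono (Finset.subset_insert _ _) (Finset.Subset.refl _))
              (Hit.of_atA hez (Finset.mem_insert_self _ _))
          · have := Finset.card_insert_le z SA
            omega
        · obtain ⟨SA, SB, g0, g1, g2, g3, g4⟩ := la1 ih _ hE hKE R rfl (by omega) (by omega)
          refine ⟨SA, SB, g1, g2, hit_erase g3 (Hit.of_atA hez g0), by omega⟩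
        · by_cases hNT : NoTypeI Q E u h
          · exact hNM A B Q E u h hE ⟨e, he, heu, heh⟩ hNT
          · unfold NoTypeI at hNT
            push Not at hNT
            obtain ⟨z, f, hz, hf, a1, a2, a3, hno⟩ := hNT
            have hcnt : ∀ a b, Q.cnt E a b = 0 → del u z h f a b = 0 := by
              intro a b h3
              rw [Q.cnt_eq_zero] at h3
              by_contra h4
              have h5 : del u z h f a b = 1 := by
                rcases zmod2_cases (del u z h f a b) with h6 | h6
                · exact absurd h6 h4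
                · exact h6
              rcases del_eq_one h5 with ⟨rfl | rfl, rfl | rfl⟩
              · exact h3 e he ⟨heu, heh⟩
              · obtain ⟨i, hi, hi'⟩ := a3; exact h3 i hi hi'
              · obtain ⟨i, hi, hi'⟩ := a1; exact h3 i hi hi'
              · obtain ⟨i, hi, hi'⟩ := a2; exact h3 i hi hi'
            obtain ⟨X, hX, hbX⟩ := hE.ml (del u z h f) hcnt (fun a => sum_del_row (Ne.symm hf) a)
              (fun b => sum_del_col (Ne.symm hz) b)
            have RX : IsReg Q X u z h f := ⟨Ne.symm hz, Ne.symm hf, hbX⟩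
            have RY := compl_reg hE hX RX
            have hYE : E \ X ⊆ E := Finset.sdiff_subset
            have two_le : ∀ K : Finset ι, K ⊆ E → IsReg Q K u z h f → 2 ≤ K.card := by
              intro K hK RK
              by_contra hlt
              have hK1 : K.card = 1 := by
                have := Finset.card_pos.2 (Finset.nonempty_iff_ne_empty.2 (reg_ne_empty RK))
                omega
              obtain ⟨i, hi⟩ := Finset.card_eq_one.1 hK1
              obtain ⟨j1, hj1, k1, k2⟩ := reg_corner RK (Or.inl rfl : u = u ∨ u = z)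
                (Or.inl rfl : h = h ∨ h = f)
              obtain ⟨j2, hj2, k3, k4⟩ := reg_corner RK (Or.inr rfl : z = u ∨ z = z)
                (Or.inr rfl : f = h ∨ f = f)
              rw [hi, Finset.mem_singleton] at hj1 hj2
              subst hj1; subst hj2
              exact hno _ (hK (by rw [hi]; exact Finset.mem_singleton_self _)) k1 k3 k2 k4
            have x2 := two_le X hX RX
            have y2 := two_le _ hYE RY
            have hU : X ∪ (E \ X) = E := Finset.union_sdiff_of_subset hX
            have hcc : X.card + (E \ X).card = E.card := by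
              rw [Finset.card_sdiff_of_subset hX]
              have := Finset.card_le_card hX
              omega
            -- the composition of types 1 and 2
            have comp12 : ∀ K K' : Finset ι, K ⊆ E → K' ⊆ E → IsReg Q K u z h f →
                IsReg Q K' u z h f → K ∪ K' = E → K.card + K'.card = E.card → 2 ≤ K.card →
                K.card % 3 = 1 → K'.card % 3 = 2 → 2 ≤ K'.card → Good Q E u h 2 := by
              intro K K' hK hK' RK RK' hUU hcs hk2 m1 m2 hk2'
              obtain ⟨SA', SB', g0', g1', g2', g3', g4'⟩ := la2 ih hE hK' RK' (by omega) m2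
              rcases g0' with g0' | g0'
              · obtain ⟨SA, SB, g0, g1, g2, g3, g4⟩ := la1 ih _ hE hK RK rfl (by omega) m1
                refine ⟨SA ∪ SA', SB ∪ SB', notMem_union' g1 g1', notMem_union' g2 g2', ?_, ?_⟩
                · rw [← hUU]; exact g3.union g3'
                · have c1 := card_union_lt'' g0 g0'
                  have c2 := Finset.card_union_le SB SB'
                  omega
              · obtain ⟨SB, SA, g0, g1, g2, g3, g4⟩ :=
                  la1 ih _ hE.swap hK (swap_reg RK) rfl (by omega) m1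
                refine ⟨SA ∪ SA', SB ∪ SB', notMem_union' g2 g1', notMem_union' g1 g2', ?_, ?_⟩
                · rw [← hUU]; exact (hit_swap g3).union g3'
                · have c1 := card_union_lt'' g0 g0'
                  have c2 := Finset.card_union_le SA SA'
                  omega
            have hmod2 : X.card % 3 = 0 ∧ (E \ X).card % 3 = 0 ∨
                X.card % 3 = 1 ∧ (E \ X).card % 3 = 2 ∨
                X.card % 3 = 2 ∧ (E \ X).card % 3 = 1 := by omega
            rcases hmod2 with ⟨m1, m2⟩ | ⟨m1, m2⟩ | ⟨m1, m2⟩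
            · obtain ⟨SA, SB, g1, g2, g3, g4⟩ := la0 ih hE hX RX (by omega) m1
              obtain ⟨SA', SB', g1', g2', g3', g4'⟩ := la0 ih hE hYE RY (by omega) m2
              refine ⟨SA ∪ SA', SB ∪ SB', notMem_union' g1 g1', notMem_union' g2 g2', ?_, ?_⟩
              · rw [← hU]; exact g3.union g3'
              · have c1 := Finset.card_union_le SA SA'
                have c2 := Finset.card_union_le SB SB'
                omega
            · exact comp12 X (E \ X) hX hYE RX RY hU hcc x2 m1 m2 y2
            · exact comp12 (E \ X) X hYE hX RY RX (by rw [Finset.union_comm]; exact hU)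
                (by omega) y2 m2 m1 x2
  intro A B _ _ _ _ Q E u h hE hadj
  exact main E.card A B Q E u h hE rfl hadj

end Helper83.PY
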