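import Pool.Agent.Helper83.PY.Defs2

/-!
PY piece P8: B* with forced outer vertices.  Proof: strong induction on `E.card`, as `step_A1` in
ThmA.lean with one more forbidden vertex `u`.
`M = ∅`: BStar.  `v ∈ M`, `e` a face at `(v,h)`, ends `v,w`, sides `h,f`.
* `E.card = 1`: `w = u`, cover `{v}` (M = {v}).
* `h,f` have no other common neighbour: delete `e` (block_sph, rename f -> h), same `M`, `u` still
  adjacent to the hub (`second`), induction; `e` is hit by `v ∈ M`.
* otherwise contract `w` to `v` (planar, swapped block_sph, as in step_A1), `v` is taken.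
  - `w = u`: the merged vertex `v` is the forbidden one; `M' = M.erase v` (`w = u ∉ M`).
  - `w ≠ u`: `u` stays forbidden, `M' = (M.erase v).image (w -> v)`.
  cost 3 + (n-1) + 2 + 2(|M|-1) = n + 2 + 2|M|.
-/

open Finset

set_option linter.unusedSectionVars false
set_option linter.unusedSimpArgs false
set_option linter.unusedVariables false

namespace Helper83.PY

variable {ι : Type} [DecidableEq ι]

theorem P8_step {A B : Type} [DecidableEq A] [DecidableEq B] [Fintype A] [Fintype B]
    (hB : ∀ (Q : QS ι A B) (E : Finset ι) (u : A) (h : B),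
      IsSph Q E → Adj Q E u h → Good Q E u h 2) (n : ℕ) :
    ∀ (Q : QS ι A B) (E : Finset ι) (u : A) (h : B) (M : Finset A), E.card = n →
    IsSph Q E → Adj Q E u h → u ∉ M → (∀ a ∈ M, Adj Q E a h) →
    ∃ (SA : Finset A) (SB : Finset B), M ⊆ SA ∧ u ∉ SA ∧ h ∉ SB ∧ Hit Q E SA SB ∧
      3 * (SA.card + SB.card) ≤ n + 2 + 2 * M.card := by
  induction n using Nat.strong_induction_on with
  | _ n ih =>
  intro Q E u h M hc hE huh huM hMo
  rcases Finset.eq_empty_or_nonempty M with hM0 | ⟨v, hvM⟩
  · obtain ⟨SA, SB, h1, h2, h3, h4⟩ := hB Q E u h hE huh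
    refine ⟨SA, SB, by rw [hM0]; exact Finset.empty_subset _, h1, h2, h3, by omega⟩
  obtain ⟨e, he, hev, heh⟩ := hMo v hvM
  have hn0 : 1 ≤ n := by
    have := Finset.card_pos.2 ⟨e, he⟩
    omega
  rcases Nat.lt_or_ge n 2 with hn | hn
  · -- one face
    obtain ⟨e', he'⟩ := Finset.card_eq_one.1 (show E.card = 1 by omega)
    have hsub : M ⊆ {Q.p e', Q.q e'} := by
      intro a ha
      obtain ⟨i, hi, h1, _⟩ := hMo a ha
      rw [he', Finset.mem_singleton] at hi
      subst hi
      rw [Finset.mem_insert, Finset.mem_singleton]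
      rcases h1 with h1 | h1
      · left; exact h1.symm
      · right; exact h1.symm
    have hcard : M.card ≤ 2 := (Finset.card_le_card hsub).trans Finset.card_le_two
    refine ⟨M, ∅, Finset.Subset.refl _, huM, Finset.notMem_empty h, ?_, ?_⟩
    · intro i hi
      rw [he', Finset.mem_singleton] at hi he
      subst hi; subst he
      exact Hit.of_atA hev hvM
    · rw [Finset.card_empty]; omega
  obtain ⟨w, hvw, hew⟩ := other_end hE he (by omega) hev
  obtain ⟨f, hhf, hef⟩ := other_side hE he (by omega) heh
  have R := erase_reg hE he hvw hhf hev hew heh hef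
  have hKE : E.erase e ⊆ E := Finset.erase_subset e E
  have hKc : (E.erase e).card = n - 1 := by rw [Finset.card_erase_of_mem he, hc]
  have huv : u ≠ v := fun h1 => huM (by rw [h1]; exact hvM)
  have hsec : ∀ a, Adj Q E a h → ∃ i ∈ E.erase e, Q.atA i a ∧ Q.atB i h := by
    rintro a ⟨i, hi, hia, hib⟩
    by_cases hie : i = e
    · subst hie
      exact second hE he (by omega) hia hib
    · exact ⟨i, Finset.mem_erase.2 ⟨hie, hi⟩, hia, hib⟩
  by_cases hbl : ∀ a, a ≠ v → a ≠ w → Q.cnt (E.erase e) a h = 0 ∨ Q.cnt (E.erase e) a f = 0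
  · -- deletion
    have hs := block_sph hE hKE R hbl
    have hadj : ∀ a, Adj Q E a h → Adj (Q.ren f h) (E.erase e) a h := by
      intro a ha
      obtain ⟨j, hj, hja, hjb⟩ := hsec a ha
      exact ⟨j, hj, hja, (ren_atB_hub hhf j).2 (Or.inl hjb)⟩
    obtain ⟨SA, SB, g0, gu, g1, g2, g3⟩ := ih (n - 1) (by omega) (Q.ren f h) (E.erase e) u h M
      hKc hs (hadj u huh) huM (fun a ha => hadj a (hMo a ha))
    refine ⟨SA, SB.erase f, g0, gu, fun h1 => g1 (Finset.mem_of_mem_erase h1),
      hit_erase (hit_ren g1 g2) (Hit.of_atA hev (g0 hvM)), ?_⟩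
    have := Finset.card_erase_le (a := f) (s := SB)
    omega
  · -- contraction
    push Not at hbl
    obtain ⟨z, hzv, hzw, hz1, hz2⟩ := hbl
    have z1 : ∃ i ∈ E, Q.atA i z ∧ Q.atB i h := by
      obtain ⟨i, hi, h1⟩ := (Q.cnt_ne_zero _ _ _).1 hz1
      exact ⟨i, hKE hi, h1⟩
    have z2 : ∃ i ∈ E, Q.atA i z ∧ Q.atB i f := by
      obtain ⟨i, hi, h1⟩ := (Q.cnt_ne_zero _ _ _).1 hz2
      exact ⟨i, hKE hi, h1⟩
    have hE' := hE.swap
    have R' : IsReg Q.swap (E.erase e) h f v w :=
      erase_reg hE' he hhf hvw heh hef hev hew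
    have hbl' : ∀ b, b ≠ h → b ≠ f →
        Q.swap.cnt (E.erase e) b v = 0 ∨ Q.swap.cnt (E.erase e) b w = 0 := by
      intro b hb1 hb2
      by_contra hcon
      push Not at hcon
      obtain ⟨c1, c2⟩ := hcon
      rw [QS.swap_cnt] at c1 c2
      obtain ⟨i, hi, h1⟩ := (Q.cnt_ne_zero _ _ _).1 c1
      obtain ⟨j, hj, h2⟩ := (Q.cnt_ne_zero _ _ _).1 c2
      exact planar hE he hvw hhf hev hew heh hef hzv hzw hb1 hb2 z1 z2
        ⟨i, hKE hi, h1⟩ ⟨j, hKE hj, h2⟩
    have hs := (block_sph hE' hKE R' hbl').swap
    -- Q2 = contraction: w renamed to v on ends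
    set Q2 : QS ι A B := (Q.swap.ren w v).swap with hQ2
    have q2B : ∀ i b, Q2.atB i b ↔ Q.atB i b := fun i b => Iff.rfl
    have q2v : ∀ i, Q2.atA i v ↔ Q.atA i v ∨ Q.atA i w := fun i =>
      ren_atB_hub (Q := Q.swap) hvw i
    have q2o : ∀ i a, a ≠ v → a ≠ w → (Q2.atA i a ↔ Q.atA i a) := fun i a h1 h2 =>
      ren_atB_other (Q := Q.swap) h1 h2 i
    let r : A → A := fun a => if a = w then v else a
    have hadj : ∀ a, a ≠ v → Adj Q E a h → Adj Q2 (E.erase e) (r a) h := by
      intro a hav ha
      obtain ⟨i, hi, hia, hib⟩ := hsec a ha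
      refine ⟨i, hi, ?_, hib⟩
      by_cases haw : a = w
      · simp only [r, if_pos haw]
        rw [q2v]; right; rw [← haw]; exact hia
      · simp only [r, if_neg haw]
        rw [q2o i a hav haw]; exact hia
    have hcM := Finset.card_image_le (s := M.erase v) (f := r)
    have hcM2 := Finset.card_erase_of_mem hvM
    have hcM3 := Finset.card_pos.2 ⟨v, hvM⟩
    by_cases huw : w = u
    · -- the merged vertex is the forbidden one
      have hru : r u = v := by simp [r, huw]
      have hvM' : v ∉ (M.erase v).image r := by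
        intro h1
        rw [Finset.mem_image] at h1
        obtain ⟨a, ha, har⟩ := h1
        rw [Finset.mem_erase] at ha
        have haw : a ≠ w := fun h2 => huM (by rw [← huw, ← h2]; exact ha.2)
        simp only [r, if_neg haw] at har
        exact ha.1 har
      obtain ⟨SA, SB, g0, gu, g1, g2, g3⟩ := ih (n - 1) (by omega) Q2 (E.erase e) v h
        ((M.erase v).image r) hKc hs (by
          have := hadj u huv huh
          rwa [hru] at this) hvM' (by
          intro a ha
          rw [Finset.mem_image] at ha
          obtain ⟨a', ha', rfl⟩ := ha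
          rw [Finset.mem_erase] at ha'
          exact hadj a' ha'.1 (hMo a' ha'.2))
      have hxx : ∀ a : A, (if a = w then v else a) ∈ SA → a ∈ insert v (SA.erase w) := by
        intro a h1
        by_cases h2 : a = w
        · rw [if_pos h2] at h1
          exact absurd h1 gu
        · rw [if_neg h2] at h1
          exact Finset.mem_insert_of_mem (Finset.mem_erase.2 ⟨h2, h1⟩)
      refine ⟨insert v (SA.erase w), SB, ?_, ?_, g1, hit_erase ?_
        (Hit.of_atA hev (Finset.mem_insert_self _ _)), ?_⟩
      · intro a ha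
        by_cases h1 : a = v
        · rw [h1]; exact Finset.mem_insert_self _ _
        · apply hxx
          exact g0 (Finset.mem_image.2 ⟨a, Finset.mem_erase.2 ⟨h1, ha⟩, rfl⟩)
      · rw [Finset.mem_insert, Finset.mem_erase, not_or]
        exact ⟨huv, fun h1 => h1.1 huw.symm⟩
      · intro i hi
        rcases g2 i hi with h3 | h3 | h3 | h3
        · left; exact hxx (Q.p i) h3
        · right; left; exact hxx (Q.q i) h3
        · right; right; left; exact h3
        · right; right; right; exact h3
      · have h1 := Finset.card_insert_le v (SA.erase w)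
        have h2 := Finset.card_erase_le (a := w) (s := SA)
        omega
    · have hru : r u = u := by simp [r, Ne.symm huw]
      have huM' : u ∉ (M.erase v).image r := by
        intro h1
        rw [Finset.mem_image] at h1
        obtain ⟨a, ha, har⟩ := h1
        rw [Finset.mem_erase] at ha
        by_cases haw : a = w
        · simp only [r, if_pos haw] at har
          exact huv har.symm
        · simp only [r, if_neg haw] at har
          exact huM (by rw [← har]; exact ha.2)
      obtain ⟨SA, SB, g0, gu, g1, g2, g3⟩ := ih (n - 1) (by omega) Q2 (E.erase e) u h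
        ((M.erase v).image r) hKc hs (by
          have := hadj u huv huh
          rwa [hru] at this) huM' (by
          intro a ha
          rw [Finset.mem_image] at ha
          obtain ⟨a', ha', rfl⟩ := ha
          rw [Finset.mem_erase] at ha'
          exact hadj a' ha'.1 (hMo a' ha'.2))
      let SA2 : Finset A := insert v (if v ∈ SA then insert w (SA.erase v) else SA)
      have hSA2v : v ∈ SA2 := Finset.mem_insert_self _ _
      have hSA2w : v ∈ SA → w ∈ SA2 := by
        intro h1
        simp only [SA2, if_pos h1]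
        exact Finset.mem_insert_of_mem (Finset.mem_insert_self _ _)
      have hSA2o : ∀ a ∈ SA, a ∈ SA2 := by
        intro a ha
        by_cases h1 : v ∈ SA
        · by_cases h2 : a = v
          · rw [h2]; exact hSA2v
          · simp only [SA2, if_pos h1]
            exact Finset.mem_insert_of_mem (Finset.mem_insert_of_mem (Finset.mem_erase.2 ⟨h2, ha⟩))
        · simp only [SA2, if_neg h1]
          exact Finset.mem_insert_of_mem ha
      have hSA2u : u ∉ SA2 := by
        by_cases h1 : v ∈ SA
        · simp only [SA2, if_pos h1, Finset.mem_insert, Finset.mem_erase, not_or]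
          exact ⟨huv, Ne.symm huw, fun h2 => gu h2.2⟩
        · simp only [SA2, if_neg h1, Finset.mem_insert, not_or]
          exact ⟨huv, gu⟩
      have hcard : SA2.card ≤ SA.card + 1 := by
        by_cases h1 : v ∈ SA
        · simp only [SA2, if_pos h1]
          have h2 := Finset.card_insert_le v (insert w (SA.erase v))
          have h3 := Finset.card_insert_le w (SA.erase v)
          have h4 := Finset.card_erase_of_mem h1
          have h5 := Finset.card_pos.2 ⟨v, h1⟩
          omega
        · simp only [SA2, if_neg h1]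
          exact Finset.card_insert_le v SA
      have hxx : ∀ a : A, (if a = w then v else a) ∈ SA → a ∈ SA2 := by
        intro a h1
        by_cases h2 : a = w
        · rw [if_pos h2] at h1; rw [h2]; exact hSA2w h1
        · rw [if_neg h2] at h1; exact hSA2o a h1
      refine ⟨SA2, SB, ?_, hSA2u, g1, hit_erase ?_ (Hit.of_atA hev hSA2v), ?_⟩
      · intro a ha
        by_cases h1 : a = v
        · rw [h1]; exact hSA2v
        · apply hxx
          exact g0 (Finset.mem_image.2 ⟨a, Finset.mem_erase.2 ⟨h1, ha⟩, rfl⟩)
      · intro i hi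
        rcases g2 i hi with h3 | h3 | h3 | h3
        · left; exact hxx (Q.p i) h3
        · right; left; exact hxx (Q.q i) h3
        · right; right; left; exact h3
        · right; right; right; exact h3
      · omega

theorem bstarM_of_bstar (hB : BStar ι) : BStarM ι := by
  intro A B _ _ _ _ Q E u h M hE huh huM hMo
  exact P8_step (fun Q E u h h1 h2 => hB A B Q E u h h1 h2) E.card Q E u h M rfl hE huh huM hMo

end Helper83.PY
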