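import Pool.Agent.Helper83.PY.Defs3
import Pool.Agent.Helper83.PY.St.P6
import Pool.Agent.Helper83.PY.St.P7
import Pool.Agent.Helper83.PY.St.P8

/-!
PY piece P9: four hubs.

(a) `La`: every region `K` (ends u z, hubs h f) has a cover avoiding u and h with 3c <= |K| + 2.
    By `planar_regx` (Tabs) or `planar_reg` (P7) either h f have no further common neighbour in K: block_sph (f -> h), BStar;
    or u z have none: swapped block_sph (z -> u), BStar.
(b) a type I region: K ⊆ E, IsReg Q K u z h f, no face at u2, 2 <= |K|.  It contains exactly one of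
    the two faces at (u,h).  If there is one containing the face g0 at (u,h): take it with K.card
    maximal and replace it by one face e0 (closure_sph): Setg is preserved (all faces at u2 are
    outside), the new sphere has no type I region containing e0 (otherwise (X \ e0) ∪ K is larger),
    and a type I region containing the other face g1 is one of the old sphere.  A cover of the new
    sphere + `La`-cover of K: cost |E'| + k + |K| + 2 = |E| + k + 3.
(c) do (b) for both faces at (u,h); no type I region => NoTypeI (a 4-cycle u h z f bounds two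
    regions, z <> u2 by disj, one of them has no face at u2; if it has one face, this is the face of
    NoTypeI).
-/

open Finset

set_option linter.unusedSectionVars false
set_option linter.unusedSimpArgs false
set_option linter.unusedVariables false

namespace Helper83.PY

variable {ι : Type} [DecidableEq ι]

theorem bstar_all : BStar ι := bstar_of_nm nm_all

theorem bstarM_all : BStarM ι := bstarM_of_bstar bstar_all

section
variable {A B : Type} [DecidableEq A] [DecidableEq B] [Fintype A] [Fintype B]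

/-- (a): every region has a cover avoiding one end and one hub. -/
theorem la_all {Q : QS ι A B} {E K : Finset ι} {u z : A} {h f : B}
    (hE : IsSph Q E) (hK : K ⊆ E) (R : IsReg Q K u z h f) :
    ∃ (SA : Finset A) (SB : Finset B), u ∉ SA ∧ h ∉ SB ∧ Hit Q K SA SB ∧
      3 * (SA.card + SB.card) ≤ K.card + 2 := by
  have hbs : BSn ι K.card := fun A B _ _ _ _ Q E u h hs _ ha => bstar_all A B Q E u h hs ha
  by_cases hbl : ∀ a, a ≠ u → a ≠ z → Q.cnt K a h = 0 ∨ Q.cnt K a f = 0
  · exact blk_good hbs hE hK R hbl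
  · push Not at hbl
    obtain ⟨w, w1, w2, w3, w4⟩ := hbl
    have hbl' : ∀ b, b ≠ h → b ≠ f → Q.swap.cnt K b u = 0 ∨ Q.swap.cnt K b z = 0 := by
      intro b hb1 hb2
      by_contra hcon
      push Not at hcon
      rw [Q.swap_cnt, Q.swap_cnt] at hcon
      exact planar_reg hE hK R w1 w2 hb1 hb2 w3 w4 hcon.1 hcon.2
    obtain ⟨SB, SA, g1, g2, g3, g4⟩ := blk_good hbs hE.swap hK (swap_reg R) hbl'
    exact ⟨SA, SB, g2, g1, hit_swap g3, by omega⟩

/-- a type I region at `u h` without faces at `u2` -/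
structure TI (Q : QS ι A B) (E : Finset ι) (u u2 : A) (h : B) (K : Finset ι) : Prop where
  sub : K ⊆ E
  reg : ∃ z f, IsReg Q K u z h f
  no2 : ∀ i ∈ K, ¬ Q.atA i u2
  two : 2 ≤ K.card

/-- the pair of faces at `(u, h)` -/
structure TwoF (Q : QS ι A B) (E : Finset ι) (u : A) (h : B) (g0 g1 : ι) : Prop where
  m0 : g0 ∈ E
  m1 : g1 ∈ E
  ne : g0 ≠ g1
  a0 : Q.atA g0 u ∧ Q.atB g0 h
  a1 : Q.atA g1 u ∧ Q.atB g1 h

theorem cnt_ge_card {Q : QS ι A B} {S T : Finset ι} {a : A} {b : B} (hT : T ⊆ S)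
    (h : ∀ i ∈ T, Q.atA i a ∧ Q.atB i b) : T.card ≤ Q.cnt S a b := by
  refine le_trans ?_ (Q.cnt_mono hT a b)
  unfold QS.cnt
  rw [Finset.card_eq_sum_ones]
  refine Finset.sum_le_sum (fun i hi => ?_)
  have h1 : Q.inc i a b ≠ 0 := fun h2 => (Q.inc_eq_zero i a b).1 h2 (h i hi)
  omega

/-- only two faces at the pair -/
theorem TwoF.only {Q : QS ι A B} {E : Finset ι} {u : A} {h : B} {g0 g1 : ι} (hE : IsSph Q E)
    (hg : TwoF Q E u h g0 g1) {i : ι} (hi : i ∈ E) (hiu : Q.atA i u) (hih : Q.atB i h) :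
    i = g0 ∨ i = g1 := by
  by_contra hcon
  push Not at hcon
  have h1 : ({i, g0, g1} : Finset ι).card = 3 := by
    rw [Finset.card_insert_of_notMem, Finset.card_pair hg.ne]
    simp [hcon.1, hcon.2]
  have h2 := cnt_ge_card (Q := Q) (S := E) (T := {i, g0, g1}) (a := u) (b := h) (by
    intro j hj
    simp only [Finset.mem_insert, Finset.mem_singleton] at hj
    rcases hj with rfl | rfl | rfl
    · exact hi
    · exact hg.m0
    · exact hg.m1) (by
    intro j hj
    simp only [Finset.mem_insert, Finset.mem_singleton] at hj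
    rcases hj with rfl | rfl | rfl
    · exact ⟨hiu, hih⟩
    · exact hg.a0
    · exact hg.a1)
  have h3 := cnt_le_two hE (Finset.Subset.refl E) u h
  omega

/-- a region at `u h` contains not both faces -/
theorem not_both {Q : QS ι A B} {E K : Finset ι} {u z : A} {h f : B} {g0 g1 : ι}
    (hE : IsSph Q E) (hK : K ⊆ E) (R : IsReg Q K u z h f) (hg : TwoF Q E u h g0 g1)
    (h0 : g0 ∈ K) (h1 : g1 ∈ K) : False := by
  have h2 := cnt_of_bd_one hE hK (by rw [R.bd]; exact del_self₁ : Q.bd K u h = 1)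
  have h3 := cnt_ge_card (Q := Q) (S := K) (T := {g0, g1}) (a := u) (b := h) (by
    intro j hj
    simp only [Finset.mem_insert, Finset.mem_singleton] at hj
    rcases hj with rfl | rfl
    · exact h0
    · exact h1) (by
    intro j hj
    simp only [Finset.mem_insert, Finset.mem_singleton] at hj
    rcases hj with rfl | rfl
    · exact hg.a0
    · exact hg.a1)
  rw [Finset.card_pair hg.ne] at h3
  omega

/-- (b): one closure step -/
theorem ti_step {Q : QS ι A B} {E : Finset ι} {u u2 : A} {h : B} (hs : Setg Q E u h {u2})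
    {g0 g1 : ι} (hg : TwoF Q E u h g0 g1) (hex : ∃ K, TI Q E u u2 h K ∧ g0 ∈ K) :
    ∃ (Q' : QS ι A B) (E' : Finset ι), Setg Q' E' u h {u2} ∧ TwoF Q' E' u h g0 g1 ∧
      (∀ K, TI Q' E' u u2 h K → g0 ∉ K) ∧
      (∀ K, TI Q' E' u u2 h K → g0 ∉ K → TI Q E u u2 h K) ∧
      (∀ k, GoodM Q' E' u h {u2} ∅ k → GoodM Q E u h {u2} ∅ (k + 3)) := by
  classical
  have hu2 : u ≠ u2 := fun h1 => hs.uU (by rw [h1]; exact Finset.mem_singleton_self _)
  obtain ⟨K, hKmem, hKmax⟩ := Finset.exists_max_image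
    (E.powerset.filter (fun K => TI Q E u u2 h K ∧ g0 ∈ K)) Finset.card (by
      obtain ⟨K, hK⟩ := hex
      exact ⟨K, Finset.mem_filter.2 ⟨Finset.mem_powerset.2 hK.1.sub, hK⟩⟩)
  obtain ⟨_, hTI, hg0K⟩ := Finset.mem_filter.1 hKmem
  obtain ⟨hKE, ⟨z, f, R⟩, hno2, hK2⟩ := hTI
  have hg1K : g1 ∉ K := fun h1 => not_both hs.sph hKE R hg hg0K h1
  have hzu2 : z ≠ u2 := by
    obtain ⟨i, hi, hi1, _⟩ := reg_corner R (Or.inr rfl : z = u ∨ z = z)
      (Or.inl rfl : h = h ∨ h = f)
    intro h1
    rw [h1] at hi1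
    exact hno2 i hi hi1
  have huf : Adj Q E u f := by
    obtain ⟨i, hi, hi1, hi2⟩ := reg_corner R (Or.inl rfl : u = u ∨ u = z)
      (Or.inr rfl : f = h ∨ f = f)
    exact ⟨i, hKE hi, hi1, hi2⟩
  set Q' := Q.setFace g0 u z h f with hQ'
  set E' := insert g0 (E \ K) with hE'
  have hsph : IsSph Q' E' := closure_sph hs.sph hKE R hg0K
  have hout : ∀ i ∈ E \ K, i ≠ g0 := by
    intro i hi h1
    rw [h1] at hi
    exact (Finset.mem_sdiff.1 hi).2 hg0K
  have hself : Q'.atA g0 u ∧ Q'.atB g0 h :=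
    ⟨(setFace_atA_self u).2 (Or.inl rfl), (setFace_atB_self h).2 (Or.inl rfl)⟩
  have hdisj : ∀ v ∈ ({u2} : Finset A), ∀ b, Adj Q' E' v b → Adj Q' E' u b → b = h := by
    intro v hv b hvb hub
    rw [Finset.mem_singleton] at hv
    subst hv
    obtain ⟨i, hi, hi1, hi2⟩ := hvb
    obtain ⟨j, hj, hj1, hj2⟩ := hub
    have hi' : i ∈ E \ K := by
      rcases Finset.mem_insert.1 hi with h1 | h1
      · exfalso
        rw [h1, setFace_atA_self] at hi1
        rcases hi1 with h2 | h2
        · exact hu2 h2.symm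
        · exact hzu2 h2.symm
      · exact h1
    have hvb' : Adj Q E v b := ⟨i, (Finset.mem_sdiff.1 hi').1,
      (setFace_atA_ne (hout i hi') v).1 hi1, (setFace_atB_ne (hout i hi') b).1 hi2⟩
    have hub' : Adj Q E u b := by
      rcases Finset.mem_insert.1 hj with h1 | h1
      · rw [h1, setFace_atB_self] at hj2
        rcases hj2 with h2 | h2
        · rw [h2]; exact hs.adj
        · rw [h2]; exact huf
      · exact ⟨j, (Finset.mem_sdiff.1 h1).1,
          (setFace_atA_ne (hout j h1) u).1 hj1, (setFace_atB_ne (hout j h1) b).1 hj2⟩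
    exact hs.disj v (Finset.mem_singleton_self _) b hvb' hub'
  have hset : Setg Q' E' u h {u2} :=
    { sph := hsph
      adj := ⟨g0, Finset.mem_insert_self _ _, hself.1, hself.2⟩
      uU := hs.uU
      outer := by
        intro v hv
        obtain ⟨i, hi, hi1, hi2⟩ := hs.outer v hv
        rw [Finset.mem_singleton] at hv
        have hiK : i ∉ K := fun h1 => hno2 i h1 (by rw [← hv]; exact hi1)
        have hi' : i ∈ E \ K := Finset.mem_sdiff.2 ⟨hi, hiK⟩
        exact ⟨i, Finset.mem_insert_of_mem hi', (setFace_atA_ne (hout i hi') v).2 hi1,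
          (setFace_atB_ne (hout i hi') h).2 hi2⟩
      disj := hdisj }
  have hg1' : g1 ∈ E \ K := Finset.mem_sdiff.2 ⟨hg.m1, hg1K⟩
  have hg' : TwoF Q' E' u h g0 g1 :=
    { m0 := Finset.mem_insert_self _ _
      m1 := Finset.mem_insert_of_mem hg1'
      ne := hg.ne
      a0 := hself
      a1 := ⟨(setFace_atA_ne (hout g1 hg1') u).2 hg.a1.1,
        (setFace_atB_ne (hout g1 hg1') h).2 hg.a1.2⟩ }
  refine ⟨Q', E', hset, hg', ?_, ?_, ?_⟩
  · -- maximality
    intro X hX hg0X
    obtain ⟨hXE, ⟨z', f', RX⟩, hXno, hX2⟩ := hX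
    have hsubY := clo_sub hKE hXE
    have hY : TI Q E u u2 h (clo g0 K X) := by
      refine ⟨hsubY, ⟨z', f', RX.vz, RX.hf, fun a b => ?_⟩, ?_, ?_⟩
      · rw [← clo_bd hs.sph hKE R hg0K hXE]
        exact RX.bd a b
      · intro i hi
        rcases mem_clo.1 hi with ⟨h1, h2⟩ | ⟨h1, h2⟩
        · intro h3
          exact hXno i h2 ((setFace_atA_ne h1 u2).2 h3)
        · exact hno2 i h2
      · refine le_trans hK2 (Finset.card_le_card ?_)
        intro i hi
        exact mem_clo.2 (Or.inr ⟨hg0X, hi⟩)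
    have h1 := hKmax (clo g0 K X) (Finset.mem_filter.2 ⟨Finset.mem_powerset.2 hsubY, hY,
      mem_clo.2 (Or.inr ⟨hg0X, hg0K⟩)⟩)
    have h2 : clo g0 K X = X.erase g0 ∪ K := by unfold clo; rw [if_pos hg0X]
    have h3 : Disjoint (X.erase g0) K := by
      rw [Finset.disjoint_left]
      intro i hi hiK
      rw [Finset.mem_erase] at hi
      rcases Finset.mem_insert.1 (hXE hi.2) with h4 | h4
      · exact hi.1 h4
      · exact (Finset.mem_sdiff.1 h4).2 hiK
    rw [h2, Finset.card_union_of_disjoint h3, Finset.card_erase_of_mem hg0X] at h1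
    omega
  · intro X hX hg0X
    obtain ⟨hXE, ⟨z', f', RX⟩, hXno, hX2⟩ := hX
    have hXE' : X ⊆ E \ K := by
      intro i hi
      rcases Finset.mem_insert.1 (hXE hi) with h4 | h4
      · exact absurd (by rw [← h4]; exact hi) hg0X
      · exact h4
    refine ⟨hXE'.trans Finset.sdiff_subset, ⟨z', f', RX.vz, RX.hf, fun a b => ?_⟩, ?_, hX2⟩
    · rw [← RX.bd, hQ', setFace_bd_of_notMem hg0X]
    · intro i hi h3
      exact hXno i hi ((setFace_atA_ne (hout i (hXE' hi)) u2).2 h3)
  · intro k hk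
    obtain ⟨SA, SB, k1, k2, k3, k4, k5, k6⟩ := hk
    obtain ⟨SA', SB', l1, l2, l3, l4⟩ := la_all hs.sph hKE R
    have hcardE : E'.card + K.card = E.card + 1 := by
      rw [hE', Finset.card_insert_of_notMem (fun h1 => hout g0 h1 rfl)]
      have := Finset.card_sdiff_add_card_eq_card hKE
      omega
    refine ⟨SA ∪ SA'.erase u2, SB ∪ SB', Finset.empty_subset _, ?_, ?_, ?_, ?_, ?_⟩
    · rw [Finset.mem_union, Finset.mem_erase]
      rintro (h1 | h1)
      · exact k2 h1
      · exact l1 h1.2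
    · intro v hv
      rw [Finset.mem_union, Finset.mem_erase]
      rintro (h1 | h1)
      · exact k3 v hv h1
      · exact h1.1 (Finset.mem_singleton.1 hv)
    · rw [Finset.mem_union]
      rintro (h1 | h1)
      · exact k4 h1
      · exact l2 h1
    · intro i hi
      by_cases hiK : i ∈ K
      · rcases l3 i hiK with h1 | h1 | h1 | h1
        · left
          refine Finset.mem_union_right _ (Finset.mem_erase.2 ⟨fun h2 => ?_, h1⟩)
          exact hno2 i hiK (Or.inl h2)
        · right; left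
          refine Finset.mem_union_right _ (Finset.mem_erase.2 ⟨fun h2 => ?_, h1⟩)
          exact hno2 i hiK (Or.inr h2)
        · right; right; left
          exact Finset.mem_union_right _ h1
        · right; right; right
          exact Finset.mem_union_right _ h1
      · have hi' : i ∈ E \ K := Finset.mem_sdiff.2 ⟨hi, hiK⟩
        have hne := hout i hi'
        have h2 := k5 i (Finset.mem_insert_of_mem hi')
        have e1 : Q'.p i = Q.p i := by
          rw [hQ']; unfold QS.setFace; simp [Function.update_of_ne hne]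
        have e2 : Q'.q i = Q.q i := by
          rw [hQ']; unfold QS.setFace; simp [Function.update_of_ne hne]
        have e3 : Q'.x i = Q.x i := by
          rw [hQ']; unfold QS.setFace; simp [Function.update_of_ne hne]
        have e4 : Q'.y i = Q.y i := by
          rw [hQ']; unfold QS.setFace; simp [Function.update_of_ne hne]
        rw [e1, e2, e3, e4] at h2
        rcases h2 with h1 | h1 | h1 | h1
        · left; exact Finset.mem_union_left _ h1
        · right; left; exact Finset.mem_union_left _ h1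
        · right; right; left; exact Finset.mem_union_left _ h1
        · right; right; right; exact Finset.mem_union_left _ h1
    · have h1 := Finset.card_union_le SA (SA'.erase u2)
      have h2 := Finset.card_union_le SB SB'
      have h3 := Finset.card_erase_le (a := u2) (s := SA')
      omega

/-- no type I region at the two faces: no type I cycle -/
theorem noTypeI_of_ti {Q : QS ι A B} {E : Finset ι} {u u2 : A} {h : B} (hs : Setg Q E u h {u2})
    {g0 g1 : ι} (hg : TwoF Q E u h g0 g1) (h0 : ∀ K, TI Q E u u2 h K → g0 ∉ K)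
    (h1 : ∀ K, TI Q E u u2 h K → g1 ∉ K) : NoTypeI Q E u h := by
  intro z f hzu hfh hzh hzf huf
  have hzu2 : z ≠ u2 := by
    intro h2
    rw [h2] at hzf
    exact hfh (hs.disj u2 (Finset.mem_singleton_self _) f hzf huf)
  have hu2 : u ≠ u2 := fun h1 => hs.uU (by rw [h1]; exact Finset.mem_singleton_self _)
  obtain ⟨X, hX, hbX⟩ := hs.sph.ml (fun a b => del u z h f a b) (by
    intro a b hab
    by_contra hne
    rcases zmod2_cases (del u z h f a b) with h2 | h2
    · exact hne h2
    · obtain ⟨ha, hb⟩ := del_eq_one h2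
      rw [QS.cnt_eq_zero] at hab
      rcases ha with rfl | rfl <;> rcases hb with rfl | rfl
      · obtain ⟨i, hi, hi1, hi2⟩ := hs.adj; exact hab i hi ⟨hi1, hi2⟩
      · obtain ⟨i, hi, hi1, hi2⟩ := huf; exact hab i hi ⟨hi1, hi2⟩
      · obtain ⟨i, hi, hi1, hi2⟩ := hzh; exact hab i hi ⟨hi1, hi2⟩
      · obtain ⟨i, hi, hi1, hi2⟩ := hzf; exact hab i hi ⟨hi1, hi2⟩)
    (fun a => sum_del_row (Ne.symm hfh) a) (fun b => sum_del_col (Ne.symm hzu) b)
  have RX : IsReg Q X u z h f := ⟨Ne.symm hzu, Ne.symm hfh, hbX⟩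
  have RY := compl_reg hs.sph hX RX
  have key : ∀ W ⊆ E, IsReg Q W u z h f → (∀ i ∈ W, ¬ Q.atA i u2) →
      ∃ i ∈ E, Q.atA i u ∧ Q.atA i z ∧ Q.atB i h ∧ Q.atB i f := by
    intro W hW RW hno
    obtain ⟨i, hi, hi1, hi2⟩ := reg_corner RW (Or.inl rfl : u = u ∨ u = z)
      (Or.inl rfl : h = h ∨ h = f)
    have hcard : ¬ 2 ≤ W.card := by
      intro h2
      have hTI : TI Q E u u2 h W := ⟨hW, ⟨z, f, RW⟩, hno, h2⟩
      rcases hg.only hs.sph (hW hi) hi1 hi2 with h3 | h3
      · rw [h3] at hi; exact h0 W hTI hi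
      · rw [h3] at hi; exact h1 W hTI hi
    obtain ⟨j, hj, hj1, hj2⟩ := reg_corner RW (Or.inr rfl : z = u ∨ z = z)
      (Or.inr rfl : f = h ∨ f = f)
    have hij : i = j := by
      by_contra hne
      apply hcard
      rw [← Finset.card_pair hne]
      refine Finset.card_le_card ?_
      intro k hk
      simp only [Finset.mem_insert, Finset.mem_singleton] at hk
      rcases hk with rfl | rfl
      · exact hi
      · exact hj
    rw [← hij] at hj1 hj2
    exact ⟨i, hW hi, hi1, hj1, hi2, hj2⟩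
  rcases hs.sph.linkA u2 X hX (fun b => by rw [hbX]; exact del_A (Ne.symm hu2) (Ne.symm hzu2) b)
    with h2 | h2
  · refine key (E \ X) Finset.sdiff_subset RY (fun i hi h3 => ?_)
    exact (Finset.mem_sdiff.1 hi).2 (h2 i (Finset.mem_sdiff.1 hi).1 h3)
  · exact key X hX RX h2

theorem four_noTypeI {Q : QS ι A B} {E : Finset ι} {u u2 : A} {h : B} (hs : Setg Q E u h {u2})
    (hn : NoTypeI Q E u h) (h2 : 2 ≤ E.card) : GoodM Q E u h {u2} ∅ 3 :=
  fm_all (k := 1) (κ := 3) (T := fun j => 2 + 2 * j) (baseT_one bstarM_all)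
    (fun j => by show 2 + 2 * (j + 1) ≤ 2 + 2 * j + 2; omega) (by show 2 + 2 * 0 ≤ 3; omega)
    (by show 2 + 2 * 1 ≤ 3 + 1; omega) E.card A B Q E u h {u2} hs
    (by rw [Finset.card_singleton]) hn h2 rfl

theorem GoodM.mono {Q : QS ι A B} {E : Finset ι} {u : A} {h : B} {U M : Finset A} {t t' : ℕ}
    (hG : GoodM Q E u h U M t) (htt : t ≤ t') : GoodM Q E u h U M t' := by
  obtain ⟨SA, SB, k1, k2, k3, k4, k5, k6⟩ := hG
  exact ⟨SA, SB, k1, k2, k3, k4, k5, by omega⟩

theorem TwoF.two {Q : QS ι A B} {E : Finset ι} {u : A} {h : B} {g0 g1 : ι}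
    (hg : TwoF Q E u h g0 g1) : 2 ≤ E.card := by
  rw [← Finset.card_pair hg.ne]
  refine Finset.card_le_card ?_
  intro k hk
  simp only [Finset.mem_insert, Finset.mem_singleton] at hk
  rcases hk with rfl | rfl
  · exact hg.m0
  · exact hg.m1

theorem TwoF.symm {Q : QS ι A B} {E : Finset ι} {u : A} {h : B} {g0 g1 : ι}
    (hg : TwoF Q E u h g0 g1) : TwoF Q E u h g1 g0 :=
  ⟨hg.m1, hg.m0, hg.ne.symm, hg.a1, hg.a0⟩

/-- the second face -/
theorem four_one {Q : QS ι A B} {E : Finset ι} {u u2 : A} {h : B} (hs : Setg Q E u h {u2})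
    {g0 g1 : ι} (hg : TwoF Q E u h g0 g1) (h0 : ∀ K, TI Q E u u2 h K → g0 ∉ K) :
    GoodM Q E u h {u2} ∅ 6 := by
  by_cases hex : ∃ K, TI Q E u u2 h K ∧ g1 ∈ K
  · obtain ⟨Q', E', hs', hg', p1, p2, p3⟩ := ti_step hs hg.symm hex
    refine p3 3 (four_noTypeI hs' (noTypeI_of_ti hs' hg'.symm ?_ p1) hg'.two)
    intro K hK hgK
    exact h0 K (p2 K hK (p1 K hK)) hgK
  · push Not at hex
    exact (four_noTypeI hs (noTypeI_of_ti hs hg h0 hex) hg.two).mono (by omega)

end

/-- four hubs, sphere form: `h` and its neighbours `u`, `u2` forbidden -/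
theorem four_hubs {A B : Type} [DecidableEq A] [DecidableEq B] [Fintype A] [Fintype B]
    (Q : QS ι A B) (E : Finset ι) (u u2 : A) (h : B) (hs : Setg Q E u h {u2})
    (h2 : 2 ≤ E.card) : GoodM Q E u h {u2} ∅ 9 := by
  obtain ⟨g0, hg0, a0, b0⟩ := hs.adj
  obtain ⟨g1, hg1, a1, b1⟩ := second hs.sph hg0 h2 a0 b0
  have hg : TwoF Q E u h g0 g1 := ⟨hg0, Finset.mem_of_mem_erase hg1,
    Ne.symm (Finset.ne_of_mem_erase hg1), ⟨a0, b0⟩, ⟨a1, b1⟩⟩
  by_cases hex : ∃ K, TI Q E u u2 h K ∧ g0 ∈ K
  · obtain ⟨Q', E', hs', hg', p1, p2, p3⟩ := ti_step hs hg hex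
    exact p3 6 (four_one hs' hg' p1)
  · push Not at hex
    exact (four_one hs hg hex).mono (by omega)

end Helper83.PY
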